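import Pool.Agent.J4H77.PE.Base

/-!
# The Mellin transform of the error term for `Re s > 1`
-/

set_option autoImplicit false

open Filter Topology MeasureTheory Set

namespace Pool.Agent.J4H77.PE

noncomputable section

lemma D_nonneg (k : ℕ) (x : ℝ) : 0 ≤ D k x := Finset.sum_nonneg fun _ _ => Nat.cast_nonneg _

lemma D_mono (k : ℕ) {x y : ℝ} (h : x ≤ y) : D k x ≤ D k y := by
  unfold D
  apply Finset.sum_le_sum_of_subset_of_nonneg
  · exact Finset.Icc_subset_Icc_right (Nat.floor_le_floor h)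
  · intro _ _ _
    exact Nat.cast_nonneg _

/-- powers of the logarithm -/
lemma poly_log_le (P : Polynomial ℝ) (ε : ℝ) (hε : 0 < ε) : ∃ C : ℝ, 0 ≤ C ∧ ∀ u : ℝ, 0 ≤ u → |P.eval u| ≤ C * Real.exp (ε * u) := by
  induction P using Polynomial.induction_on' with
  | add p q hp hq =>
    obtain ⟨C, hC, h1⟩ := hp
    obtain ⟨C', hC', h2⟩ := hq
    refine ⟨C + C', by positivity, fun u hu => ?_⟩
    rw [Polynomial.eval_add, add_mul]
    exact (abs_add_le _ _).trans (add_le_add (h1 u hu) (h2 u hu))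
  | monomial n a =>
    refine ⟨|a| * (n.factorial / ε ^ n), by positivity, fun u hu => ?_⟩
    rw [Polynomial.eval_monomial, abs_mul, abs_pow, abs_of_nonneg hu, mul_assoc]
    apply mul_le_mul_of_nonneg_left _ (abs_nonneg a)
    have h := Real.pow_div_factorial_le_exp (ε * u) (by positivity) n
    rw [div_le_iff₀ (by positivity)] at h
    rw [div_mul_eq_mul_div, le_div_iff₀ (by positivity)]
    calc u ^ n * ε ^ n = (ε * u) ^ n := by rw [mul_pow]; ring
      _ ≤ _ := h
      _ = _ := by ring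

lemma D_bound {k : ℕ} {P : Polynomial ℝ} {θ C : ℝ} (h : Good k P θ C) (ε : ℝ) (hε : 0 < ε) :
    ∃ C' : ℝ, 0 ≤ C' ∧ ∀ u : ℝ, 0 ≤ u → D k (Real.exp u) ≤ C' * Real.exp ((1 + ε) * u) := by
  obtain ⟨B, hB, h1⟩ := poly_log_le P ε hε
  refine ⟨C + B, add_nonneg h.2.2.1 hB, fun u hu => ?_⟩
  have h2 := h.2.2.2 (Real.exp u) (Real.one_le_exp hu)
  have h3 : D k (Real.exp u) = err k P (Real.exp u) + Real.exp u * P.eval u := by
    unfold err
    rw [Real.log_exp]
    ring
  rw [h3, add_mul]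
  apply add_le_add
  · refine (le_abs_self _).trans (h2.trans ?_)
    apply mul_le_mul_of_nonneg_left _ h.2.2.1
    rw [← Real.exp_mul]
    apply Real.exp_le_exp.2
    nlinarith [h.2.1]
  · calc Real.exp u * P.eval u ≤ Real.exp u * (B * Real.exp (ε * u)) := by
          gcongr
          exact (le_abs_self _).trans (h1 u hu)
      _ = B * Real.exp ((1 + ε) * u) := by rw [add_mul, one_mul, Real.exp_add]; ring

lemma mono_int1 (j : ℕ) {s : ℂ} (hs : 1 < s.re) :
    IntegrableOn (fun u : ℝ => ((u ^ j : ℝ) : ℂ) * Complex.exp (-(s - 1) * u)) (Ioi 0) := by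
  have h1 : IntegrableOn (fun u : ℝ => (j.factorial / ((s.re - 1) / 2) ^ j : ℝ) * Real.exp (-((s.re - 1) / 2) * u)) (Ioi 0) :=
    (int_exp_Ioi (by linarith)).const_mul _
  refine Integrable.mono' h1 ?_ ?_
  · refine Measurable.aestronglyMeasurable ?_
    fun_prop
  · rw [ae_restrict_iff' measurableSet_Ioi]
    refine Eventually.of_forall fun u hu => ?_
    have hu0 : (0 : ℝ) ≤ u := (mem_Ioi.1 hu).le
    rw [norm_mul, norm_cexp, Complex.norm_real, Real.norm_eq_abs, abs_of_nonneg (by positivity)]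
    have h := Real.pow_div_factorial_le_exp ((s.re - 1) / 2 * u) (by nlinarith) j
    rw [div_le_iff₀ (by positivity)] at h
    have hp : 0 < ((s.re - 1) / 2) ^ j := pow_pos (by linarith) _
    have h2 : u ^ j ≤ j.factorial / ((s.re - 1) / 2) ^ j * Real.exp ((s.re - 1) / 2 * u) := by
      rw [div_mul_eq_mul_div, le_div_iff₀ hp]
      calc u ^ j * ((s.re - 1) / 2) ^ j = ((s.re - 1) / 2 * u) ^ j := by rw [mul_pow]; ring
        _ ≤ _ := h
        _ = _ := by ring
    calc u ^ j * Real.exp (-(s - 1).re * u) ≤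
        j.factorial / ((s.re - 1) / 2) ^ j * Real.exp ((s.re - 1) / 2 * u) * Real.exp (-(s - 1).re * u) := by gcongr
      _ = j.factorial / ((s.re - 1) / 2) ^ j * Real.exp (-((s.re - 1) / 2) * u) := by
        rw [mul_assoc, ← Real.exp_add]
        congr 2
        simp
        ring

lemma tendsto_mono (j : ℕ) {s : ℂ} (hs : 1 < s.re) :
    Tendsto (fun u : ℝ => ((u ^ j : ℝ) : ℂ) * Complex.exp (-(s - 1) * u)) atTop (𝓝 0) := by
  rw [tendsto_zero_iff_norm_tendsto_zero]
  have h := Real.tendsto_pow_mul_exp_neg_atTop_nhds_zero j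
  have h2 : Tendsto (fun u : ℝ => u ^ j * Real.exp (-(s.re - 1) * u)) atTop (𝓝 0) := by
    have hc : 0 < s.re - 1 := by linarith
    have h3 := (h.comp (tendsto_id.const_mul_atTop hc)).const_mul (1 / (s.re - 1) ^ j)
    rw [mul_zero] at h3
    refine h3.congr fun u => ?_
    simp only [Function.comp, id]
    rw [mul_pow]
    have : (s.re - 1) ^ j ≠ 0 := (pow_pos hc _).ne'
    field_simp
  refine h2.congr' ?_
  filter_upwards [eventually_ge_atTop 0] with u hu
  rw [norm_mul, norm_cexp, Complex.norm_real, Real.norm_eq_abs, abs_of_nonneg (by positivity)]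
  simp

lemma mono_val (j : ℕ) {s : ℂ} (hs : 1 < s.re) :
    ∫ u in Ioi (0 : ℝ), ((u ^ j : ℝ) : ℂ) * Complex.exp (-(s - 1) * u) = j.factorial / (s - 1) ^ (j + 1) := by
  have ha : s - 1 ≠ 0 := by
    intro h
    have : (s - 1).re = 0 := by rw [h]; simp
    simp at this
    linarith
  have hexp : ∀ u : ℝ, HasDerivAt (fun u : ℝ => Complex.exp (-(s - 1) * u)) (-(s - 1) * Complex.exp (-(s - 1) * u)) u := by
    intro u
    have h1 : HasDerivAt (fun u : ℝ => -(s - 1) * (u : ℂ)) (-(s - 1)) u := by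
      have := (Complex.ofRealCLM.hasDerivAt (x := u)).const_mul (-(s - 1))
      simpa using this
    have h2 := h1.cexp
    refine h2.congr_deriv ?_
    ring
  induction j with
  | zero =>
    have hd : ∀ u ∈ Ici (0 : ℝ), HasDerivAt (fun u : ℝ => -(1 / (s - 1)) * Complex.exp (-(s - 1) * u))
        (((u ^ 0 : ℝ) : ℂ) * Complex.exp (-(s - 1) * u)) u := by
      intro u _
      refine ((hexp u).const_mul (-(1 / (s - 1)))).congr_deriv ?_
      push_cast
      field_simp
    have ht : Tendsto (fun u : ℝ => -(1 / (s - 1)) * Complex.exp (-(s - 1) * u)) atTop (𝓝 0) := by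
      have := (tendsto_mono 0 hs).const_mul (-(1 / (s - 1)))
      simpa using this
    rw [integral_Ioi_of_hasDerivAt_of_tendsto' hd (mono_int1 0 hs) ht]
    simp
  | succ j ih =>
    have hd : ∀ u ∈ Ici (0 : ℝ), HasDerivAt (fun u : ℝ => -(1 / (s - 1)) * (((u ^ (j + 1) : ℝ) : ℂ) * Complex.exp (-(s - 1) * u)))
        (((u ^ (j + 1) : ℝ) : ℂ) * Complex.exp (-(s - 1) * u) - (j + 1) / (s - 1) * (((u ^ j : ℝ) : ℂ) * Complex.exp (-(s - 1) * u))) u := by
      intro u _
      have h1 : HasDerivAt (fun u : ℝ => ((u ^ (j + 1) : ℝ) : ℂ)) (((j + 1) * u ^ j : ℝ) : ℂ) u := by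
        have := (hasDerivAt_pow (j + 1) u).ofReal_comp
        simpa using this
      refine ((h1.mul (hexp u)).const_mul (-(1 / (s - 1)))).congr_deriv ?_
      push_cast
      field_simp
      ring
    have ht : Tendsto (fun u : ℝ => -(1 / (s - 1)) * (((u ^ (j + 1) : ℝ) : ℂ) * Complex.exp (-(s - 1) * u))) atTop (𝓝 0) := by
      have := (tendsto_mono (j + 1) hs).const_mul (-(1 / (s - 1)))
      simpa using this
    have hi := (mono_int1 (j + 1) hs).sub ((mono_int1 j hs).const_mul ((j + 1) / (s - 1)))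
    have h := integral_Ioi_of_hasDerivAt_of_tendsto' hd hi ht
    have h2 : ∫ u in Ioi (0 : ℝ), (((u ^ (j + 1) : ℝ) : ℂ) * Complex.exp (-(s - 1) * u) - (j + 1) / (s - 1) * (((u ^ j : ℝ) : ℂ) * Complex.exp (-(s - 1) * u))) =
        (∫ u in Ioi (0 : ℝ), ((u ^ (j + 1) : ℝ) : ℂ) * Complex.exp (-(s - 1) * u)) -
        (j + 1) / (s - 1) * ∫ u in Ioi (0 : ℝ), ((u ^ j : ℝ) : ℂ) * Complex.exp (-(s - 1) * u) := by
      rw [integral_sub (mono_int1 (j + 1) hs) ((mono_int1 j hs).const_mul ((j + 1) / (s - 1))), integral_const_mul]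
    rw [h2, ih] at h
    simp only [ne_eq, Nat.add_eq_zero_iff, one_ne_zero, and_false, not_false_eq_true, zero_pow, Complex.ofReal_zero,
      zero_mul, mul_zero, sub_self] at h
    rw [sub_eq_zero] at h
    rw [h, Nat.factorial_succ]
    push_cast
    field_simp
    ring

/-- the monomials -/
lemma mono_int (j : ℕ) {s : ℂ} (hs : 1 < s.re) :
    IntegrableOn (fun u : ℝ => ((u ^ j : ℝ) : ℂ) * Complex.exp (-(s - 1) * u)) (Ioi 0) ∧
    ∫ u in Ioi (0 : ℝ), ((u ^ j : ℝ) : ℂ) * Complex.exp (-(s - 1) * u) = j.factorial / (s - 1) ^ (j + 1) := by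
  constructor
  · exact mono_int1 j hs
  · exact mono_val j hs

lemma Rf_eq (P : Polynomial ℝ) {s : ℂ} (hs : 1 < s.re) :
    IntegrableOn (fun u : ℝ => ((P.eval u : ℝ) : ℂ) * Complex.exp (-(s - 1) * u)) (Ioi 0) ∧
    ∫ u in Ioi (0 : ℝ), ((P.eval u : ℝ) : ℂ) * Complex.exp (-(s - 1) * u) = Rf P s := by
  induction P using Polynomial.induction_on' with
  | add p q hp hq =>
    have e : (fun u : ℝ => (((p + q).eval u : ℝ) : ℂ) * Complex.exp (-(s - 1) * u)) =
      fun u : ℝ => ((p.eval u : ℝ) : ℂ) * Complex.exp (-(s - 1) * u) + ((q.eval u : ℝ) : ℂ) * Complex.exp (-(s - 1) * u) := by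
      funext u
      rw [Polynomial.eval_add]
      push_cast
      ring
    rw [e]
    refine ⟨hp.1.add hq.1, ?_⟩
    rw [integral_add hp.1 hq.1, hp.2, hq.2]
    unfold Rf
    rw [Polynomial.sum_add_index]
    · intro j; simp
    · intro j a b; push_cast; ring
  | monomial n a =>
    have e : (fun u : ℝ => (((Polynomial.monomial n a).eval u : ℝ) : ℂ) * Complex.exp (-(s - 1) * u)) =
      fun u : ℝ => (a : ℂ) * (((u ^ n : ℝ) : ℂ) * Complex.exp (-(s - 1) * u)) := by
      funext u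
      rw [Polynomial.eval_monomial]
      push_cast
      ring
    rw [e]
    refine ⟨(mono_int n hs).1.const_mul _, ?_⟩
    rw [integral_const_mul, (mono_int n hs).2]
    unfold Rf
    rw [Polynomial.sum_monomial_index]
    simp

end

end Pool.Agent.J4H77.PE
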