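import Pool.Agent.J4H77.PE.Mom

/-!
# A local form of Cauchy's formula in a strip, with a Gaussian factor
-/

set_option autoImplicit false

open Filter Topology MeasureTheory Set

namespace Pool.Agent.J4H77.PE

noncomputable section

/-- the kernel -/
def Kd (δ : ℝ) : ℂ := ∫ y : ℝ, Complex.exp ((δ + y * Complex.I) ^ 2) / (δ + y * Complex.I)

lemma quad_line (δ r : ℝ) : ∫ y : ℝ, Complex.exp ((δ + y * Complex.I) ^ 2 - (δ + y * Complex.I) * r) =
    ((Real.sqrt Real.pi * Real.exp (-(1 / 4) * r ^ 2) : ℝ) : ℂ) := by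
  have e : ∀ y : ℝ, Complex.exp ((δ + y * Complex.I) ^ 2 - (δ + y * Complex.I) * r) =
      Complex.exp ((-1 : ℂ) * (y : ℂ) ^ 2 + (2 * δ - r) * Complex.I * y + (δ ^ 2 - δ * r)) := by
    intro y
    congr 1
    linear_combination ((y : ℂ) ^ 2) * Complex.I_sq
  simp_rw [e]
  rw [integral_cexp_quadratic (by simp)]
  have h1 : (Real.pi / -(-1 : ℂ)) ^ (1 / 2 : ℂ) = ((Real.sqrt Real.pi : ℝ) : ℂ) := by
    rw [neg_neg, div_one, Real.sqrt_eq_rpow, Complex.ofReal_cpow Real.pi_pos.le]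
    norm_num
  rw [h1]
  push_cast
  congr 2
  linear_combination ((2 * δ - r) ^ 2 / 4 : ℂ) * Complex.I_sq

lemma norm_quad (δ y : ℝ) : ‖Complex.exp ((δ + y * Complex.I) ^ 2)‖ = Real.exp (δ ^ 2 - y ^ 2) := by
  rw [Complex.norm_exp]
  congr 1
  simp [pow_two]

lemma Kd_pos {δ : ℝ} (hδ : 0 < δ) : Kd δ = Real.pi := by
  unfold Kd
  have e1 : ∀ y : ℝ, Complex.exp ((δ + y * Complex.I) ^ 2) / (δ + y * Complex.I) =
      ∫ r in Ioi (0 : ℝ), Complex.exp ((δ + y * Complex.I) ^ 2 - (δ + y * Complex.I) * r) := by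
    intro y
    have h := mono_val 0 (s := 1 + δ + y * Complex.I) (by simp; exact hδ)
    rw [show (1 : ℂ) + δ + y * Complex.I - 1 = δ + y * Complex.I by ring] at h
    simp only [Nat.factorial_zero, Nat.cast_one, zero_add, pow_one] at h
    rw [div_eq_mul_one_div, ← h, ← integral_const_mul]
    apply setIntegral_congr_fun measurableSet_Ioi
    intro r _
    simp only [pow_zero, Complex.ofReal_one, one_mul]
    rw [← Complex.exp_add]
    ring_nf
  simp_rw [e1]
  rw [integral_integral_swap]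
  · simp_rw [quad_line]
    rw [integral_complex_ofReal, integral_const_mul, integral_gaussian_Ioi]
    have : Real.sqrt (Real.pi / (1 / 4)) = 2 * Real.sqrt Real.pi := by
      rw [show Real.pi / (1 / 4) = 2 ^ 2 * Real.pi by ring, Real.sqrt_mul (by positivity), Real.sqrt_sq (by norm_num)]
    rw [this]
    have h6 : Real.sqrt Real.pi * (2 * Real.sqrt Real.pi / 2) = Real.pi := by
      rw [mul_div_cancel_left₀ _ (by norm_num : (2:ℝ) ≠ 0)]
      exact Real.mul_self_sqrt Real.pi_pos.le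
    rw [h6]
  · have h1 : Integrable (fun p : ℝ × ℝ => Real.exp (δ ^ 2 - 1 * p.1 ^ 2) * Real.exp (-δ * p.2))
        (volume.prod (volume.restrict (Ioi (0 : ℝ)))) :=
      (gauss_t_int one_pos _).mul_prod (int_exp_Ioi hδ)
    refine Integrable.mono' h1 ?_ ?_
    · exact Measurable.aestronglyMeasurable (by fun_prop)
    · refine Eventually.of_forall fun p => ?_
      simp only [Function.uncurry]
      rw [Complex.norm_exp, ← Real.exp_add]
      apply le_of_eq
      congr 1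
      simp [pow_two]
      ring

lemma Kd_neg {δ : ℝ} (hδ : 0 < δ) : Kd (-δ) = -Real.pi := by
  rw [← Kd_pos hδ]
  unfold Kd
  rw [← integral_neg_eq_self, ← integral_neg]
  apply integral_congr_ae
  refine Eventually.of_forall fun y => ?_
  simp only
  have e : ((-δ : ℝ) : ℂ) + ((-y : ℝ) : ℂ) * Complex.I = -(δ + y * Complex.I) := by
    push_cast
    ring
  rw [e, neg_sq, div_neg]

/-- polynomial growth in the strip -/
def Growth (F : ℂ → ℂ) (C : ℝ) (m : ℕ) : Prop :=
  0 ≤ C ∧ ∀ s : ℂ, 0 ≤ s.re → s.re ≤ 2 → 1 ≤ |s.im| → ‖F s‖ ≤ C * s.im ^ (2 * m)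

lemma Zf_growth (m : ℕ) : ∃ C, Growth (fun s => Zf s ^ m) C m := by
  obtain ⟨A, hA, h⟩ := Pool.Agent.H52R4.PZT1.zeta_strip
  refine ⟨A ^ m, by positivity, fun s h1 h2 h3 => ?_⟩
  have hs1 : s ≠ 1 := by
    intro h0
    rw [h0] at h3
    simp at h3
    linarith
  rw [norm_pow]
  calc ‖Zf s‖ ^ m ≤ ‖riemannZeta s‖ ^ m := by gcongr; exact Zf_le h1 hs1
    _ ≤ (A * |s.im| ^ 2) ^ m := by gcongr; exact h s (by linarith) h2 h3
    _ = A ^ m * s.im ^ (2 * m) := by rw [mul_pow, sq_abs, ← pow_mul]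

/-- the bound far from the point -/
lemma far_bound {F : ℂ → ℂ} {C : ℝ} {m : ℕ} (hg : Growth F C m) {s₀ w : ℂ} (h1 : 0 ≤ (s₀ + w).re) (h2 : (s₀ + w).re ≤ 2)
    (h3 : 2 * |s₀.im| + 2 ≤ |w.im|) : ‖F (s₀ + w)‖ ≤ C * (4 * w.im ^ 2) ^ m := by
  have h4 : |w.im| ≤ |(s₀ + w).im| + |s₀.im| := by
    have : w.im = (s₀ + w).im - s₀.im := by simp
    calc |w.im| = |(s₀ + w).im - s₀.im| := by rw [← this]
      _ ≤ _ := abs_sub _ _
  have h5 : |(s₀ + w).im| ≤ 2 * |w.im| := by
    rw [Complex.add_im]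
    refine (abs_add_le _ _).trans ?_
    linarith [abs_nonneg s₀.im]
  refine (hg.2 _ h1 h2 (by linarith [abs_nonneg s₀.im])).trans ?_
  apply mul_le_mul_of_nonneg_left _ hg.1
  rw [pow_mul]
  apply pow_le_pow_left₀ (sq_nonneg _)
  rw [← sq_abs, ← sq_abs w.im]
  nlinarith [abs_nonneg (s₀ + w).im]

lemma exp_neg_sq_le (m : ℕ) (y : ℝ) : (4 * y ^ 2) ^ m * Real.exp (-y ^ 2) * y ^ 2 ≤ 4 ^ m * (m + 1).factorial := by
  have h := gauss_beat (m + 1) one_pos y
  rw [one_pow, div_one] at h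
  calc (4 * y ^ 2) ^ m * Real.exp (-y ^ 2) * y ^ 2 = 4 ^ m * (y ^ (2 * (m + 1)) * Real.exp (-1 * y ^ 2)) := by
        rw [mul_pow, ← pow_mul]
        ring_nf
    _ ≤ _ := by gcongr

lemma kern_int {δ : ℝ} (hδ : δ ≠ 0) : Integrable (fun y : ℝ => Complex.exp ((δ + y * Complex.I) ^ 2) / (δ + y * Complex.I)) := by
  have hne : ∀ y : ℝ, (δ + y * Complex.I : ℂ) ≠ 0 := by
    intro y h
    have : (δ + y * Complex.I : ℂ).re = 0 := by rw [h]; simp
    simp at this
    exact hδ this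
  have h1 := (gauss_t_int one_pos (δ ^ 2)).mul_const (1 / |δ|)
  refine Integrable.mono' h1 ?_ ?_
  · apply Continuous.aestronglyMeasurable
    exact Continuous.div (by fun_prop) (by fun_prop) hne
  · refine Eventually.of_forall fun y => ?_
    rw [norm_div, norm_quad, div_eq_mul_one_div, one_mul]
    have h2 : |δ| ≤ ‖(δ + y * Complex.I : ℂ)‖ := by
      have := Complex.abs_re_le_norm (δ + y * Complex.I : ℂ)
      simpa using this
    have h3 : 0 < |δ| := abs_pos.2 hδ
    gcongr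

lemma fline_int {F : ℂ → ℂ} (hF : ∀ z : ℂ, -1 < z.re → DifferentiableAt ℂ F z) {C : ℝ} {m : ℕ} (hg : Growth F C m)
    {s₀ : ℂ} {δ : ℝ} (hδ : δ ≠ 0) (h1 : 0 ≤ s₀.re + δ) (h2 : s₀.re + δ ≤ 2) :
    Integrable (fun y : ℝ => F (s₀ + (δ + y * Complex.I)) * (Complex.exp ((δ + y * Complex.I) ^ 2) / (δ + y * Complex.I))) := by
  have hne : ∀ y : ℝ, (δ + y * Complex.I : ℂ) ≠ 0 := by
    intro y h
    have : (δ + y * Complex.I : ℂ).re = 0 := by rw [h]; simp
    simp at this
    exact hδ this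
  have hc : Continuous (fun y : ℝ => F (s₀ + (δ + y * Complex.I)) * (Complex.exp ((δ + y * Complex.I) ^ 2) / (δ + y * Complex.I))) := by
    refine Continuous.mul ?_ (Continuous.div (by fun_prop) (by fun_prop) hne)
    rw [continuous_iff_continuousAt]
    intro y
    have h3 : ContinuousAt F (s₀ + (δ + y * Complex.I)) := (hF _ (by simp; linarith)).continuousAt
    have h4 : ContinuousAt (fun y : ℝ => (s₀ + (δ + y * Complex.I) : ℂ)) y := by fun_prop
    exact ContinuousAt.comp (f := fun y : ℝ => (s₀ + (δ + y * Complex.I) : ℂ)) h3 h4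
  have h3 : 0 < |δ| := abs_pos.2 hδ
  obtain ⟨C', -, h5⟩ := Pool.Agent.E8helper52.OR.global_bd hc (C := C * Real.exp (δ ^ 2) / |δ| * (4 ^ m * (m + 1).factorial))
    (T := 2 * |s₀.im| + 2) (by have := hg.1; positivity) (by linarith [abs_nonneg s₀.im]) (fun y hy => by
      have hy0 : 0 < y ^ 2 := by
        rw [← sq_abs]
        have : 0 < |y| := by linarith [abs_nonneg s₀.im]
        positivity
      rw [le_div_iff₀ hy0, norm_mul, norm_div, norm_quad]
      have h6 := far_bound hg (s₀ := s₀) (w := δ + y * Complex.I) (by simpa using h1) (by simpa using h2) (by simpa using hy)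
      have h7 : (δ + y * Complex.I : ℂ).im = y := by simp
      rw [h7] at h6
      have h8 : |δ| ≤ ‖(δ + y * Complex.I : ℂ)‖ := by
        have := Complex.abs_re_le_norm (δ + y * Complex.I : ℂ)
        simpa using this
      have h9 : Real.exp (δ ^ 2 - y ^ 2) = Real.exp (δ ^ 2) * Real.exp (-y ^ 2) := by
        rw [← Real.exp_add]
        ring_nf
      have h10 : 0 ≤ C * (4 * y ^ 2) ^ m := le_trans (norm_nonneg _) h6
      calc ‖F (s₀ + (δ + y * Complex.I))‖ * (Real.exp (δ ^ 2 - y ^ 2) / ‖(δ + y * Complex.I : ℂ)‖) * y ^ 2 ≤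
          (C * (4 * y ^ 2) ^ m) * (Real.exp (δ ^ 2 - y ^ 2) / |δ|) * y ^ 2 := by gcongr
        _ = C * Real.exp (δ ^ 2) / |δ| * ((4 * y ^ 2) ^ m * Real.exp (-y ^ 2) * y ^ 2) := by rw [h9]; ring
        _ ≤ _ := by
          apply mul_le_mul_of_nonneg_left (exp_neg_sq_le m y)
          have := hg.1
          positivity)
  exact Pool.Agent.E8helper52.OR.integrable_of_bd hc h5

/-- **Cauchy's formula with a Gaussian factor** -/
theorem cauchy_gauss {F : ℂ → ℂ} (hF : ∀ z : ℂ, -1 < z.re → DifferentiableAt ℂ F z) {C : ℝ} {m : ℕ} (hg : Growth F C m)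
    {s₀ : ℂ} {A B : ℝ} (hA : 0 < A) (hB : 0 < B) (ha : 0 ≤ s₀.re - A) (hb : s₀.re + B ≤ 2) :
    2 * Real.pi * F s₀ = (∫ y : ℝ, F (s₀ + (B + y * Complex.I)) * (Complex.exp ((B + y * Complex.I) ^ 2) / (B + y * Complex.I))) -
      ∫ y : ℝ, F (s₀ + ((-A : ℝ) + y * Complex.I)) *
        (Complex.exp (((-A : ℝ) + y * Complex.I) ^ 2) / ((-A : ℝ) + y * Complex.I)) := by
  have hopen : {z : ℂ | -1 < z.re} ∈ 𝓝 s₀ := (half_open (-1)).mem_nhds (show -1 < s₀.re by linarith)
  have hds : DifferentiableOn ℂ (dslope F s₀) {z : ℂ | -1 < z.re} :=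
    (Complex.differentiableOn_dslope hopen).2 fun z hz => (hF z hz).differentiableWithinAt
  have hline : ∀ δ : ℝ, δ ≠ 0 → 0 ≤ s₀.re + δ → s₀.re + δ ≤ 2 →
      ∫ y : ℝ, dslope F s₀ (s₀ + (δ + y * Complex.I)) * Complex.exp ((δ + y * Complex.I) ^ 2) =
      (∫ y : ℝ, F (s₀ + (δ + y * Complex.I)) * (Complex.exp ((δ + y * Complex.I) ^ 2) / (δ + y * Complex.I))) - F s₀ * Kd δ := by
    intro δ hδ h1 h2
    unfold Kd
    rw [← integral_const_mul, ← integral_sub (fline_int hF hg hδ h1 h2) ((kern_int hδ).const_mul _)]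
    apply integral_congr_ae
    refine Eventually.of_forall fun y => ?_
    simp only
    have hne : (δ + y * Complex.I : ℂ) ≠ 0 := by
      intro h
      have : (δ + y * Complex.I : ℂ).re = 0 := by rw [h]; simp
      simp at this
      exact hδ this
    rw [dslope_of_ne _ (by intro h; apply hne; simpa using h), slope_def_field, add_sub_cancel_left]
    field_simp
  have hs := Pool.Agent.E8helper52.OR.strip_shift
    (f := fun w => dslope F s₀ (s₀ + w) * Complex.exp (w ^ 2)) (a := -A) (b := B)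
    (C := (C + ‖F s₀‖) * Real.exp 4 * (4 ^ m * (m + 1).factorial)) (T := 2 * |s₀.im| + 2) (by linarith) ?_ ?_ ?_ ?_
  · rw [hline (-A) (by linarith) (by linarith) (by linarith), hline B (by linarith) (by linarith) (by linarith),
      Kd_neg hA, Kd_pos hB] at hs
    linear_combination hs
  · intro z hz1 hz2
    have h1 : s₀ + z ∈ {z : ℂ | -1 < z.re} := by
      simp only [mem_setOf_eq, Complex.add_re]
      linarith
    have h2 : DifferentiableAt ℂ (dslope F s₀) (s₀ + z) := (hds _ h1).differentiableAt ((half_open (-1)).mem_nhds h1)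
    have h3 : DifferentiableAt ℂ (fun w => dslope F s₀ (s₀ + w)) z := h2.comp z (by fun_prop)
    fun_prop
  · have := hg.1
    positivity
  · linarith [abs_nonneg s₀.im]
  · intro z hz1 hz2 hz3
    have hy : 2 ≤ |z.im| := by linarith [abs_nonneg s₀.im]
    have hy0 : 0 < z.im ^ 2 := by rw [← sq_abs]; positivity
    have hzn : 1 ≤ ‖z‖ := by linarith [Complex.abs_im_le_norm z]
    have hz0 : z ≠ 0 := by
      intro h
      rw [h] at hzn
      simp at hzn
      linarith
    rw [le_div_iff₀ hy0, norm_mul, dslope_of_ne _ (by simpa using hz0), slope_def_field, add_sub_cancel_left, norm_div]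
    have h6 := far_bound hg (s₀ := s₀) (w := z) (by simp; linarith) (by simp; linarith) hz3
    have h7 : ‖F (s₀ + z) - F s₀‖ / ‖z‖ ≤ (C + ‖F s₀‖) * (4 * z.im ^ 2) ^ m := by
      refine (div_le_self (norm_nonneg _) hzn).trans ((norm_sub_le _ _).trans ?_)
      rw [add_mul]
      apply add_le_add h6
      apply le_mul_of_one_le_right (norm_nonneg _)
      apply one_le_pow₀
      rw [← sq_abs]
      nlinarith
    have h8 : ‖Complex.exp (z ^ 2)‖ ≤ Real.exp 4 * Real.exp (-z.im ^ 2) := by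
      rw [Complex.norm_exp, ← Real.exp_add]
      apply Real.exp_le_exp.2
      simp only [pow_two, Complex.mul_re]
      have : z.re * z.re ≤ 4 := by nlinarith
      linarith
    have h9 : 0 ≤ (C + ‖F s₀‖) * (4 * z.im ^ 2) ^ m := le_trans (by positivity) h7
    calc ‖F (s₀ + z) - F s₀‖ / ‖z‖ * ‖Complex.exp (z ^ 2)‖ * z.im ^ 2 ≤
        ((C + ‖F s₀‖) * (4 * z.im ^ 2) ^ m) * (Real.exp 4 * Real.exp (-z.im ^ 2)) * z.im ^ 2 := by gcongr
      _ = (C + ‖F s₀‖) * Real.exp 4 * ((4 * z.im ^ 2) ^ m * Real.exp (-z.im ^ 2) * z.im ^ 2) := by ring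
      _ ≤ _ := by
        apply mul_le_mul_of_nonneg_left (exp_neg_sq_le m _)
        have := hg.1
        positivity

end

end Pool.Agent.J4H77.PE
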