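import Pool.Agent.J4H77.PE.Struct

/-!
# Pointwise bounds of the error term from the Lindelöf abscissa
-/

set_option autoImplicit false

open Filter Topology MeasureTheory Set
open scoped ComplexConjugate

namespace Pool.Agent.J4H77.PE

noncomputable section

/-- the zeta function to the right of the Lindelöf abscissa, both signs of the ordinate -/
lemma Lind_abs {σ : ℝ} (h : σ ∈ LindSet) {ε : ℝ} (hε : 0 < ε) : ∃ C : ℝ, 0 ≤ C ∧ ∀ t : ℝ, 1 ≤ |t| →
    ‖riemannZeta (σ + t * Complex.I)‖ ≤ C * |t| ^ ε := by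
  obtain ⟨C, hC⟩ := h.2 ε hε
  have hC0 : 0 ≤ C := by
    have := (norm_nonneg _).trans (hC 1 le_rfl)
    simpa using this
  refine ⟨C, hC0, fun t ht => ?_⟩
  rcases le_or_gt 0 t with h1 | h1
  · rw [abs_of_nonneg h1] at ht ⊢
    exact hC t ht
  · rw [abs_of_neg h1] at ht ⊢
    have h2 := hC (-t) ht
    have e2 : (σ : ℂ) + (-t : ℝ) * Complex.I = conj ((σ : ℂ) + t * Complex.I) := by simp
    rw [e2, riemannZeta_conj, RCLike.norm_conj] at h2
    exact h2

lemma Hf_Lind {k : ℕ} (hk : 1 ≤ k) {P : Polynomial ℝ} {θ C : ℝ} (hg : Good k P θ C) {σ : ℝ} (h : σ ∈ LindSet)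
    {η : ℝ} (hη : 0 < η) (hη1 : η ≤ 1) : ∃ B : ℝ, 0 ≤ B ∧ ∀ y : ℝ, ‖Hf k P (σ + y * Complex.I)‖ ≤
      B * ((1 + ‖y‖ ^ 2) ^ (-(1 + η) / 2) * (1 + y ^ 2) ^ η) := by
  have hk0 : (0 : ℝ) < k := by exact_mod_cast hk
  obtain ⟨C₁, hC₁, h1⟩ := Lind_abs h (ε := η / k) (by positivity)
  obtain ⟨A, hA, hR⟩ := Rf_le P
  have hc := line_cont hk hg h.1
  obtain ⟨B₁, hB₁⟩ := (isCompact_Icc (a := (-1 : ℝ)) (b := 1)).exists_bound_of_continuousOn hc.continuousOn
  have hB₁0 : 0 ≤ B₁ := (norm_nonneg _).trans (hB₁ 0 ⟨by norm_num, by norm_num⟩)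
  have e0 : ∀ y : ℝ, (1 + ‖y‖ ^ 2) ^ (-(1 + η) / 2) * (1 + y ^ 2) ^ η = (1 + y ^ 2) ^ ((η - 1) / 2) := by
    intro y
    rw [Real.norm_eq_abs, sq_abs, ← Real.rpow_add (by positivity)]
    congr 1
    ring
  refine ⟨2 * (C₁ ^ k + A) + 2 * B₁, by positivity, fun y => ?_⟩
  rw [e0]
  have hpos : 0 < (1 + y ^ 2) ^ ((η - 1) / 2) := by positivity
  by_cases hy : 1 ≤ |y|
  · have hy0 : 0 < |y| := by linarith
    obtain ⟨s, hs⟩ : ∃ s : ℂ, s = σ + y * Complex.I := ⟨_, rfl⟩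
    have him : s.im = y := by rw [hs]; simp
    have hs1 : s ≠ 1 := ne_one_of_im (by rw [him]; exact hy)
    have hsn : |y| ≤ ‖s‖ := by
      have := Complex.abs_im_le_norm s
      rwa [him] at this
    rw [← hs, Hf_ne hs1]
    unfold Ef
    have h2 : ‖riemannZeta s ^ k / s‖ ≤ C₁ ^ k * |y| ^ (η - 1) := by
      rw [norm_div, norm_pow]
      have h3 := h1 y hy
      rw [← hs] at h3
      calc ‖riemannZeta s‖ ^ k / ‖s‖ ≤ (C₁ * |y| ^ (η / k)) ^ k / |y| := by gcongr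
        _ = C₁ ^ k * (|y| ^ η / |y|) := by
            rw [mul_pow, ← Real.rpow_natCast (|y| ^ _), ← Real.rpow_mul hy0.le, div_mul_cancel₀ _ hk0.ne', mul_div_assoc]
        _ = _ := by rw [Real.rpow_sub_one hy0.ne']
    have h3 : ‖Rf P s‖ ≤ A * |y| ^ (η - 1) := by
      have h4 := hR s (by rw [him]; exact hy)
      rw [him] at h4
      have h5 : |y| ^ (-1 : ℝ) ≤ |y| ^ (η - 1) := Real.rpow_le_rpow_of_exponent_le hy (by linarith)
      rw [Real.rpow_neg_one] at h5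
      calc ‖Rf P s‖ ≤ A / |y| := h4
        _ = A * |y|⁻¹ := div_eq_mul_inv _ _
        _ ≤ _ := by gcongr
    have h4 : |y| ^ (η - 1) ≤ 2 * (1 + y ^ 2) ^ ((η - 1) / 2) := by
      have h5 : |y| ^ (η - 1) = (y ^ 2) ^ ((η - 1) / 2) := by
        rw [← sq_abs, ← Real.rpow_natCast, ← Real.rpow_mul (abs_nonneg y)]
        congr 1
        push_cast
        ring
      have h6 : (1 + y ^ 2) ≤ 2 * y ^ 2 := by
        have : 1 ≤ y ^ 2 := by rw [← sq_abs]; nlinarith
        linarith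
      have hy2 : 0 < y ^ 2 := by rw [← sq_abs]; positivity
      have h7 : (2 * y ^ 2) ^ ((η - 1) / 2) ≤ (1 + y ^ 2) ^ ((η - 1) / 2) :=
        Real.rpow_le_rpow_of_nonpos (by positivity) h6 (by linarith)
      rw [Real.mul_rpow (by norm_num) hy2.le] at h7
      have h8 : (1 : ℝ) / 2 ≤ 2 ^ ((η - 1) / 2) := by
        calc (1 : ℝ) / 2 = 2 ^ (-1 : ℝ) := by rw [Real.rpow_neg_one]; norm_num
          _ ≤ _ := Real.rpow_le_rpow_of_exponent_le (by norm_num) (by linarith)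
      rw [h5]
      have h9 : 0 < (y ^ 2) ^ ((η - 1) / 2) := by positivity
      nlinarith
    calc ‖riemannZeta s ^ k / s - Rf P s‖ ≤ ‖riemannZeta s ^ k / s‖ + ‖Rf P s‖ := norm_sub_le _ _
      _ ≤ (C₁ ^ k + A) * |y| ^ (η - 1) := by rw [add_mul]; exact add_le_add h2 h3
      _ ≤ (C₁ ^ k + A) * (2 * (1 + y ^ 2) ^ ((η - 1) / 2)) := by gcongr
      _ ≤ _ := by nlinarith [mul_nonneg hB₁0 hpos.le]
  · push Not at hy
    have h2 := hB₁ y ⟨by linarith [(abs_lt.1 hy).1], by linarith [(abs_lt.1 hy).2]⟩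
    have h3 : (1 : ℝ) / 2 ≤ (1 + y ^ 2) ^ ((η - 1) / 2) := by
      have h4 : (1 + y ^ 2 : ℝ) ≤ 2 := by
        have : y ^ 2 < 1 := by rw [← sq_abs]; nlinarith [abs_nonneg y]
        linarith
      calc (1 : ℝ) / 2 = 2 ^ (-1 : ℝ) := by rw [Real.rpow_neg_one]; norm_num
        _ ≤ 2 ^ ((η - 1) / 2) := Real.rpow_le_rpow_of_exponent_le (by norm_num) (by linarith)
        _ ≤ _ := Real.rpow_le_rpow_of_nonpos (by positivity) h4 (by linarith)
    have h5 : 0 ≤ 2 * (C₁ ^ k + A) * (1 + y ^ 2) ^ ((η - 1) / 2) := by positivity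
    nlinarith

/-- the Gaussian mean of the error term -/
def AN (k : ℕ) (P : Polynomial ℝ) (n : ℕ) (v : ℝ) : ℝ := ∫ y : ℝ, fe k P (v - y / ((n : ℝ) + 1)) * Real.exp (-y ^ 2)

/-- the Gaussian means of the error term are small -/
theorem AN_bound {k : ℕ} (hk : 1 ≤ k) {P : Polynomial ℝ} {θ C : ℝ} (hg : Good k P θ C) {σ : ℝ} (h : σ ∈ LindSet) (h2 : σ ≤ 1)
    {η : ℝ} (hη : 0 < η) (hη1 : η ≤ 1) : ∃ B : ℝ, 0 ≤ B ∧ ∀ n : ℕ, ∀ v : ℝ,
      |AN k P n v| ≤ B * Real.exp (σ * v) * ((n : ℝ) + 1) ^ (2 * η) := by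
  obtain ⟨B, hB, hH⟩ := Hf_Lind hk hg h hη hη1
  have hI : Integrable (fun t : ℝ => (1 + ‖t‖ ^ 2) ^ (-(1 + η) / 2)) :=
    integrable_rpow_neg_one_add_norm_sq (E := ℝ) (μ := volume) (by simp; linarith)
  obtain ⟨I, hId⟩ : ∃ I, I = ∫ t : ℝ, (1 + ‖t‖ ^ 2) ^ (-(1 + η) / 2) := ⟨_, rfl⟩
  have hI0 : 0 ≤ I := by rw [hId]; exact integral_nonneg fun t => by positivity
  refine ⟨12 * B * I, by positivity, fun n v => ?_⟩
  have hN : (1 : ℝ) ≤ (n : ℝ) + 1 := by
    have : (0 : ℝ) ≤ n := Nat.cast_nonneg _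
    linarith
  have hN0 : (0 : ℝ) < (n : ℝ) + 1 := by linarith
  have hen := en_pos n
  have hen1 : en n ≤ 1 := by
    unfold en
    rw [div_le_one (by positivity)]
    nlinarith
  -- the formula for the mean
  have h3 := shift hk hg hen v h.1 (show σ ≤ 2 by linarith) (le_refl (2:ℝ))
  rw [line_two hk hg hen v] at h3
  have h4 := phi_eq k P n v
  have h5 : |Real.sqrt (Real.pi / en n) * phi k P (en n) v| ≤
      Real.exp (σ * v) * (3 * (4 * B * I * ((n : ℝ) + 1) ^ (2 * η))) := by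
    have e1 : |Real.sqrt (Real.pi / en n) * phi k P (en n) v| =
        ‖∫ y : ℝ, Hf k P (σ + y * Complex.I) * gs (en n) v (σ + y * Complex.I)‖ := by
      rw [h3, Complex.norm_real, Real.norm_eq_abs]
    rw [e1]
    have hb : ∀ y : ℝ, ‖Hf k P (σ + y * Complex.I) * gs (en n) v (σ + y * Complex.I)‖ ≤
        Real.exp (σ * v) * (3 * (4 * B * ((n : ℝ) + 1) ^ (2 * η))) * (1 + ‖y‖ ^ 2) ^ (-(1 + η) / 2) := by
      intro y
      rw [norm_mul, gs_norm]
      have e2 : Real.exp (en n * ((σ + y * Complex.I : ℂ).re ^ 2 - (σ + y * Complex.I : ℂ).im ^ 2) + (σ + y * Complex.I : ℂ).re * v) ≤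
          Real.exp (σ * v) * (3 * Real.exp (-(en n * y ^ 2))) := by
        have h6 : Real.exp 1 ≤ 3 := by linarith [Real.exp_one_lt_d9]
        have h7 : Real.exp (σ * v) * (Real.exp 1 * Real.exp (-(en n * y ^ 2))) ≤ Real.exp (σ * v) * (3 * Real.exp (-(en n * y ^ 2))) := by
          gcongr
        refine le_trans ?_ h7
        rw [← Real.exp_add, ← Real.exp_add]
        apply Real.exp_le_exp.2
        have e3 : (σ + y * Complex.I : ℂ).re = σ := by simp
        have e4 : (σ + y * Complex.I : ℂ).im = y := by simp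
        rw [e3, e4]
        have : en n * σ ^ 2 ≤ 1 := by
          have : σ ^ 2 ≤ 1 := by nlinarith [h.1]
          nlinarith
        linarith
      have e3 : (1 + y ^ 2) ^ η * Real.exp (-(en n * y ^ 2)) ≤ 4 * ((n : ℝ) + 1) ^ (2 * η) := by
        obtain ⟨x, hx⟩ : ∃ x, x = y ^ 2 / ((n : ℝ) + 1) ^ 2 := ⟨_, rfl⟩
        have hx0 : 0 ≤ x := by rw [hx]; positivity
        have h6 : (1 + y ^ 2) ≤ ((n : ℝ) + 1) ^ 2 * (1 + x) := by
          rw [hx, mul_add, mul_one, mul_div_cancel₀ _ (by positivity)]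
          have : 1 ≤ ((n : ℝ) + 1) ^ 2 := one_le_pow₀ hN
          linarith
        have h7 : (1 + y ^ 2) ^ η ≤ ((n : ℝ) + 1) ^ (2 * η) * (1 + x) := by
          calc (1 + y ^ 2) ^ η ≤ (((n : ℝ) + 1) ^ 2 * (1 + x)) ^ η := by gcongr
            _ = ((n : ℝ) + 1) ^ (2 * η) * (1 + x) ^ η := by
                rw [Real.mul_rpow (by positivity) (by positivity), ← Real.rpow_natCast, ← Real.rpow_mul hN0.le]
                push_cast
                rfl
            _ ≤ ((n : ℝ) + 1) ^ (2 * η) * (1 + x) := by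
                gcongr
                calc (1 + x) ^ η ≤ (1 + x) ^ (1 : ℝ) := Real.rpow_le_rpow_of_exponent_le (by linarith) hη1
                  _ = 1 + x := Real.rpow_one _
        have h8 : (1 + x) * Real.exp (-(en n * y ^ 2)) ≤ 4 := by
          have e4 : en n * y ^ 2 = x / 4 := by
            rw [hx]
            unfold en
            field_simp
          rw [e4]
          have h9 : 1 + x ≤ 4 * Real.exp (x / 4) := by
            have := Real.add_one_le_exp (x / 4)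
            linarith
          calc (1 + x) * Real.exp (-(x / 4)) ≤ (4 * Real.exp (x / 4)) * Real.exp (-(x / 4)) := by gcongr
            _ = 4 := by rw [mul_assoc, ← Real.exp_add, add_neg_cancel, Real.exp_zero, mul_one]
        calc (1 + y ^ 2) ^ η * Real.exp (-(en n * y ^ 2)) ≤ (((n : ℝ) + 1) ^ (2 * η) * (1 + x)) * Real.exp (-(en n * y ^ 2)) := by gcongr
          _ = ((n : ℝ) + 1) ^ (2 * η) * ((1 + x) * Real.exp (-(en n * y ^ 2))) := by ring
          _ ≤ ((n : ℝ) + 1) ^ (2 * η) * 4 := by gcongr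
          _ = _ := by ring
      calc ‖Hf k P (σ + y * Complex.I)‖ * _ ≤
          (B * ((1 + ‖y‖ ^ 2) ^ (-(1 + η) / 2) * (1 + y ^ 2) ^ η)) * (Real.exp (σ * v) * (3 * Real.exp (-(en n * y ^ 2)))) :=
            mul_le_mul (hH y) e2 (Real.exp_pos _).le (by positivity)
        _ = Real.exp (σ * v) * (3 * (B * ((1 + y ^ 2) ^ η * Real.exp (-(en n * y ^ 2))))) * (1 + ‖y‖ ^ 2) ^ (-(1 + η) / 2) := by ring
        _ ≤ Real.exp (σ * v) * (3 * (B * (4 * ((n : ℝ) + 1) ^ (2 * η)))) * (1 + ‖y‖ ^ 2) ^ (-(1 + η) / 2) := by gcongr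
        _ = _ := by ring
    refine (norm_integral_le_of_norm_le (hI.const_mul _) (Eventually.of_forall hb)).trans (le_of_eq ?_)
    rw [integral_const_mul, ← hId]
    ring
  have h6 : Real.sqrt Real.pi ≤ 2 := by
    rw [Real.sqrt_le_left (by norm_num)]
    linarith [Real.pi_le_four]
  have hsp : 0 < Real.sqrt Real.pi := Real.sqrt_pos.2 Real.pi_pos
  have h7 : AN k P n v = Real.sqrt Real.pi * (1 / (2 * Real.pi)) * (Real.sqrt (Real.pi / en n) * phi k P (en n) v) := by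
    have e : AN k P n v = Real.sqrt Real.pi * (1 / Real.sqrt Real.pi * ∫ y : ℝ, fe k P (v - y / ((n : ℝ) + 1)) * Real.exp (-y ^ 2)) := by
      unfold AN
      field_simp
    rw [e, ← h4]
    ring
  rw [h7, abs_mul, abs_of_pos (by positivity)]
  have h8 : Real.sqrt Real.pi * (1 / (2 * Real.pi)) ≤ 1 := by
    rw [← div_eq_mul_one_div, div_le_one (by positivity)]
    linarith [Real.pi_gt_three]
  calc Real.sqrt Real.pi * (1 / (2 * Real.pi)) * |Real.sqrt (Real.pi / en n) * phi k P (en n) v| ≤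
      1 * (Real.exp (σ * v) * (3 * (4 * B * I * ((n : ℝ) + 1) ^ (2 * η)))) := by gcongr
    _ = _ := by ring

end

end Pool.Agent.J4H77.PE
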