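import Pool.Agent.J4H77.PE.Alp

/-!
# Pointwise bounds of the error term from the Lindelöf abscissa, second part
-/

set_option autoImplicit false

open Filter Topology MeasureTheory Set
open scoped ComplexConjugate

namespace Pool.Agent.J4H77.PE

noncomputable section

/-- the main term as a function of the logarithm -/
def Mt (P : Polynomial ℝ) (w : ℝ) : ℝ := Real.exp w * P.eval w

lemma fe_eq (k : ℕ) (P : Polynomial ℝ) {u : ℝ} (hu : 0 ≤ u) : fe k P u = D k (Real.exp u) - Mt P u := by
  rw [fe_pos hu]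
  unfold err Mt
  rw [Real.log_exp]

/-- the main term varies slowly -/
lemma Mt_lip (P : Polynomial ℝ) {η : ℝ} (hη : 0 < η) : ∃ Q : ℝ, 0 ≤ Q ∧ ∀ w : ℝ, 0 ≤ w → ∀ u v : ℝ, 0 ≤ u → u ≤ w → 0 ≤ v → v ≤ w →
    |Mt P u - Mt P v| ≤ Q * Real.exp ((1 + η) * w) * |u - v| := by
  obtain ⟨Q, hQ, h⟩ := poly_log_le (P + P.derivative) η hη
  refine ⟨Q, hQ, fun w hw u v hu0 hu1 hv0 hv1 => ?_⟩
  have hd : ∀ x ∈ Icc 0 w, HasDerivWithinAt (Mt P) (Real.exp x * (P + P.derivative).eval x) (Icc 0 w) x := by
    intro x _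
    have h1 := ((Real.hasDerivAt_exp x).mul (P.hasDerivAt x)).hasDerivWithinAt (s := Icc 0 w)
    have e : Real.exp x * (P + P.derivative).eval x = Real.exp x * P.eval x + Real.exp x * P.derivative.eval x := by
      rw [Polynomial.eval_add]
      ring
    rw [e]
    exact h1
  have hb : ∀ x ∈ Icc 0 w, ‖Real.exp x * (P + P.derivative).eval x‖ ≤ Q * Real.exp ((1 + η) * w) := by
    intro x hx
    rw [Real.norm_eq_abs, abs_mul, abs_of_pos (Real.exp_pos _)]
    calc Real.exp x * |(P + P.derivative).eval x| ≤ Real.exp w * (Q * Real.exp (η * w)) := by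
          have h1 := h x hx.1
          have h2 : Real.exp x ≤ Real.exp w := Real.exp_le_exp.2 hx.2
          have h3 : Real.exp (η * x) ≤ Real.exp (η * w) := Real.exp_le_exp.2 (mul_le_mul_of_nonneg_left hx.2 hη.le)
          have h4 : |(P + P.derivative).eval x| ≤ Q * Real.exp (η * w) := h1.trans (mul_le_mul_of_nonneg_left h3 hQ)
          gcongr
      _ = Q * Real.exp ((1 + η) * w) := by
          rw [mul_left_comm, ← Real.exp_add]
          ring_nf
  have h1 := Convex.norm_image_sub_le_of_norm_hasDerivWithin_le hd hb (convex_Icc 0 w) (x := v) (y := u) ⟨hv0, hv1⟩ ⟨hu0, hu1⟩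
  simpa [Real.norm_eq_abs] using h1

lemma fe_shift_int {k : ℕ} {P : Polynomial ℝ} {θ C : ℝ} (hg : Good k P θ C) (v N : ℝ) (hN : 1 ≤ N) :
    Integrable (fun y : ℝ => fe k P (v - y / N) * Real.exp (-y ^ 2)) := by
  refine Integrable.mono' (g := fun y : ℝ => C * Real.exp (|v| + 1 / 2) * Real.exp (-(1 / 2) * y ^ 2))
    ((integrable_exp_neg_mul_sq (by norm_num)).const_mul _) ?_ ?_
  · have := fe_meas k P
    exact Measurable.aestronglyMeasurable (by fun_prop)
  · refine Eventually.of_forall fun y => ?_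
    rw [norm_mul, Real.norm_eq_abs, Real.norm_eq_abs, abs_of_pos (Real.exp_pos _)]
    have h2 := fe_le hg (v - y / N)
    have h3 : θ * (v - y / N) ≤ |v| + |y| := by
      have h4 : |v - y / N| ≤ |v| + |y| := by
        refine (abs_sub _ _).trans (add_le_add le_rfl ?_)
        rw [abs_div]
        apply div_le_self (abs_nonneg _)
        rw [abs_of_pos (by linarith)]
        exact hN
      calc θ * (v - y / N) ≤ |θ * (v - y / N)| := le_abs_self _
        _ = θ * |v - y / N| := by rw [abs_mul, abs_of_pos hg.1]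
        _ ≤ 1 * (|v| + |y|) := mul_le_mul hg.2.1.le h4 (abs_nonneg _) zero_le_one
        _ = _ := one_mul _
    have h5 : |y| ≤ 1 / 2 + 1 / 2 * y ^ 2 := by
      rw [← sq_abs y]
      nlinarith [sq_nonneg (|y| - 1)]
    calc |fe k P (v - y / N)| * Real.exp (-y ^ 2) ≤
        (C * Real.exp (|v| + |y|)) * Real.exp (-y ^ 2) := by
          apply mul_le_mul_of_nonneg_right _ (Real.exp_pos _).le
          exact h2.trans (mul_le_mul_of_nonneg_left (Real.exp_le_exp.2 h3) hg.2.2.1)
      _ = C * Real.exp (|v| + |y| - y ^ 2) := by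
          rw [mul_assoc, ← Real.exp_add]
          ring_nf
      _ ≤ C * Real.exp ((|v| + 1 / 2) + (-(1 / 2) * y ^ 2)) := by
          apply mul_le_mul_of_nonneg_left _ hg.2.2.1
          apply Real.exp_le_exp.2
          linarith
      _ = _ := by rw [Real.exp_add, mul_assoc]

/-- comparison of a value with a Gaussian mean nearby -/
lemma compare {k : ℕ} {P : Polynomial ℝ} {θ C : ℝ} (hg : Good k P θ C) {Q η : ℝ} (hQ : 0 ≤ Q)
    (hMt : ∀ w : ℝ, 0 ≤ w → ∀ u v : ℝ, 0 ≤ u → u ≤ w → 0 ≤ v → v ≤ w → |Mt P u - Mt P v| ≤ Q * Real.exp ((1 + η) * w) * |u - v|)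
    {n : ℕ} {v₀ s : ℝ} (hs : s = 1 ∨ s = -1) (hv₀ : 1 ≤ v₀) (hN : 2 * (1 + v₀) / ((n : ℝ) + 1) ≤ 1) (hpos : 0 ≤ s * fe k P v₀) :
    s * fe k P v₀ ≤ 4 * (|AN k P n (v₀ + s * (1 + v₀) / ((n : ℝ) + 1))| +
      Q * Real.exp ((1 + η) * (v₀ + 1)) * (2 * (1 + v₀) / ((n : ℝ) + 1)) * 2 + C * Real.exp 4 * 3) := by
  obtain ⟨N, hNd⟩ : ∃ N : ℝ, N = (n : ℝ) + 1 := ⟨_, rfl⟩
  rw [← hNd] at hN ⊢
  have hN1 : 1 ≤ N := by
    rw [hNd]
    have : (0 : ℝ) ≤ n := Nat.cast_nonneg _
    linarith
  have hN0 : 0 < N := by linarith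
  obtain ⟨L, hL⟩ : ∃ L, L = 1 + v₀ := ⟨_, rfl⟩
  obtain ⟨v, hv⟩ : ∃ v, v = v₀ + s * (1 + v₀) / N := ⟨_, rfl⟩
  rw [← hv]
  obtain ⟨E, hE⟩ : ∃ E, E = Q * Real.exp ((1 + η) * (v₀ + 1)) * (2 * (1 + v₀) / N) := ⟨_, rfl⟩
  have hE0 : 0 ≤ E := by rw [hE]; positivity
  rw [← hE]
  have hs1 : |s| = 1 := by rcases hs with h | h <;> rw [h] <;> norm_num
  have hss : s * s = 1 := by rcases hs with h | h <;> rw [h] <;> norm_num
  have hC := hg.2.2.1
  -- the pointwise bound
  have hpt : ∀ y : ℝ, s * fe k P v₀ * (indicator (Icc (-1 : ℝ) 1) (fun _ => (1 : ℝ) / 3) y) - E * Real.exp (-y ^ 2) -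
      C * Real.exp 4 * Real.exp (-(1 / 2) * y ^ 2) ≤ s * (fe k P (v - y / N) * Real.exp (-y ^ 2)) := by
    intro y
    have hex : 0 < Real.exp (-y ^ 2) := Real.exp_pos _
    have hex2 : 0 < Real.exp (-(1 / 2) * y ^ 2) := Real.exp_pos _
    by_cases hy : |y| ≤ L
    · -- the main range
      have hsy : |s * y| = |y| := by rw [abs_mul, hs1, one_mul]
      have h1 : 0 ≤ L - s * y := by
        have := le_abs_self (s * y)
        linarith
      have h2 : L - s * y ≤ 2 * L := by
        have := neg_abs_le (s * y)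
        linarith
      obtain ⟨u, hu⟩ : ∃ u, u = v - y / N := ⟨_, rfl⟩
      have h3 : u - v₀ = s * ((L - s * y) / N) := by
        rw [hu, hv, ← hL]
        calc v₀ + s * L / N - y / N - v₀ = (s * L - 1 * y) / N := by ring
          _ = (s * L - (s * s) * y) / N := by rw [hss]
          _ = _ := by ring
      have h4 : |u - v₀| ≤ 2 * (1 + v₀) / N := by
        rw [h3, abs_mul, hs1, one_mul, abs_of_nonneg (by positivity), ← hL]
        gcongr
      have h5 : 0 ≤ u := by
        have := neg_abs_le (u - v₀)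
        linarith
      have h6 : u ≤ v₀ + 1 := by
        have := le_abs_self (u - v₀)
        linarith
      have h7 : 0 ≤ s * (D k (Real.exp u) - D k (Real.exp v₀)) := by
        rcases hs with h | h
        · rw [h, one_mul, sub_nonneg]
          apply D_mono
          apply Real.exp_le_exp.2
          rw [h] at h3
          have : 0 ≤ (L - 1 * y) / N := by rw [h] at h1; positivity
          linarith
        · rw [h]
          have : D k (Real.exp u) ≤ D k (Real.exp v₀) := by
            apply D_mono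
            apply Real.exp_le_exp.2
            rw [h] at h3
            have : 0 ≤ (L - (-1) * y) / N := by rw [h] at h1; positivity
            linarith
          linarith
      have h8 : |s * (Mt P u - Mt P v₀)| ≤ E := by
        rw [abs_mul, hs1, one_mul, hE]
        refine (hMt (v₀ + 1) (by linarith) u v₀ h5 h6 (by linarith) (by linarith)).trans ?_
        gcongr
      have h9 : s * fe k P v₀ - E ≤ s * fe k P u := by
        rw [fe_eq k P h5, fe_eq k P (show 0 ≤ v₀ by linarith)]
        have := le_abs_self (s * (Mt P u - Mt P v₀))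
        nlinarith
      rw [← hu]
      have h10 : indicator (Icc (-1 : ℝ) 1) (fun _ => (1 : ℝ) / 3) y ≤ Real.exp (-y ^ 2) := by
        by_cases hy1 : y ∈ Icc (-1 : ℝ) 1
        · rw [indicator_of_mem hy1]
          have h11 : Real.exp (-1) ≤ Real.exp (-y ^ 2) := by
            apply Real.exp_le_exp.2
            have := hy1.1
            have := hy1.2
            nlinarith
          have h12 : 1 / 3 ≤ Real.exp (-1) := by
            rw [Real.exp_neg, one_div]
            apply inv_anti₀ (Real.exp_pos _)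
            linarith [Real.exp_one_lt_d9]
          linarith
        · rw [indicator_of_notMem hy1]
          exact hex.le
      calc s * fe k P v₀ * (indicator (Icc (-1 : ℝ) 1) (fun _ => (1 : ℝ) / 3) y) - E * Real.exp (-y ^ 2) -
            C * Real.exp 4 * Real.exp (-(1 / 2) * y ^ 2) ≤ s * fe k P v₀ * Real.exp (-y ^ 2) - E * Real.exp (-y ^ 2) - 0 := by
            have : 0 ≤ C * Real.exp 4 * Real.exp (-(1 / 2) * y ^ 2) := by positivity
            have := mul_le_mul_of_nonneg_left h10 hpos
            linarith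
        _ = (s * fe k P v₀ - E) * Real.exp (-y ^ 2) := by ring
        _ ≤ (s * fe k P u) * Real.exp (-y ^ 2) := by gcongr
        _ = _ := by ring
    · -- the tail
      push Not at hy
      have hy1 : y ∉ Icc (-1 : ℝ) 1 := by
        intro h
        have : |y| ≤ 1 := abs_le.2 ⟨h.1, h.2⟩
        linarith
      rw [indicator_of_notMem hy1, mul_zero]
      have h1 : |s * (fe k P (v - y / N) * Real.exp (-y ^ 2))| ≤ C * Real.exp 4 * Real.exp (-(1 / 2) * y ^ 2) := by
        rw [abs_mul, hs1, one_mul, abs_mul, abs_of_pos hex]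
        have h2 := fe_le hg (v - y / N)
        have h3 : θ * (v - y / N) ≤ v₀ + 1 + |y| := by
          have h4 : |v - y / N| ≤ v₀ + 1 + |y| := by
            refine (abs_sub _ _).trans (add_le_add ?_ ?_)
            · rw [hv]
              have h5 : |s * (1 + v₀) / N| ≤ 1 := by
                rw [abs_div, abs_mul, hs1, one_mul, abs_of_pos hN0, abs_of_pos (by linarith)]
                rw [mul_div_assoc] at hN
                have : 0 ≤ (1 + v₀) / N := by positivity
                linarith
              calc |v₀ + s * (1 + v₀) / N| ≤ |v₀| + |s * (1 + v₀) / N| := abs_add_le _ _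
                _ ≤ v₀ + 1 := by rw [abs_of_nonneg (by linarith)]; linarith
            · rw [abs_div]
              apply div_le_self (abs_nonneg _)
              rw [abs_of_pos hN0]
              exact hN1
          calc θ * (v - y / N) ≤ |θ * (v - y / N)| := le_abs_self _
            _ = θ * |v - y / N| := by rw [abs_mul, abs_of_pos hg.1]
            _ ≤ 1 * (v₀ + 1 + |y|) := mul_le_mul hg.2.1.le h4 (abs_nonneg _) zero_le_one
            _ = _ := one_mul _
        calc |fe k P (v - y / N)| * Real.exp (-y ^ 2) ≤ (C * Real.exp (v₀ + 1 + |y|)) * Real.exp (-y ^ 2) := by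
              apply mul_le_mul_of_nonneg_right _ hex.le
              exact h2.trans (mul_le_mul_of_nonneg_left (Real.exp_le_exp.2 h3) hC)
          _ = C * Real.exp (v₀ + 1 + |y| - y ^ 2) := by
              rw [mul_assoc, ← Real.exp_add]
              ring_nf
          _ ≤ C * Real.exp (4 + -(1 / 2) * y ^ 2) := by
              apply mul_le_mul_of_nonneg_left _ hC
              apply Real.exp_le_exp.2
              rw [← sq_abs y]
              nlinarith [sq_nonneg (|y| - 2)]
          _ = _ := by rw [Real.exp_add, mul_assoc]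
      have h2 := neg_abs_le (s * (fe k P (v - y / N) * Real.exp (-y ^ 2)))
      have : 0 ≤ E * Real.exp (-y ^ 2) := by positivity
      linarith
  -- integrate
  have i0 : Integrable (fun y : ℝ => indicator (Icc (-1 : ℝ) 1) (fun _ => (1 : ℝ) / 3) y) := by
    rw [integrable_indicator_iff measurableSet_Icc]
    exact integrableOn_const (by simp)
  have i1 : Integrable (fun y : ℝ => Real.exp (-y ^ 2)) := by
    have := integrable_exp_neg_mul_sq (b := 1) one_pos
    simpa using this
  have i2 : Integrable (fun y : ℝ => Real.exp (-(1 / 2) * y ^ 2)) := integrable_exp_neg_mul_sq (by norm_num)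
  have i3 := fe_shift_int hg v N hN1
  have h1 := integral_mono (((i0.const_mul (s * fe k P v₀)).sub (i1.const_mul E)).sub (i2.const_mul (C * Real.exp 4)))
    (i3.const_mul s) hpt
  have e1 : ∫ y : ℝ, ((fun y => s * fe k P v₀ * (indicator (Icc (-1 : ℝ) 1) (fun _ => (1 : ℝ) / 3) y)) - (fun y => E * Real.exp (-y ^ 2)) -
      fun y => C * Real.exp 4 * Real.exp (-(1 / 2) * y ^ 2)) y =
      s * fe k P v₀ * (2 / 3) - E * Real.sqrt Real.pi - C * Real.exp 4 * Real.sqrt (Real.pi / (1 / 2)) := by
    have j1 := integral_sub (((i0.const_mul (s * fe k P v₀)).sub (i1.const_mul E))) (i2.const_mul (C * Real.exp 4))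
    have j2 := integral_sub (i0.const_mul (s * fe k P v₀)) (i1.const_mul E)
    simp only [Pi.sub_apply] at j1 j2 ⊢
    rw [j1, j2,
      integral_const_mul, integral_const_mul, integral_const_mul, integral_gaussian, integral_indicator measurableSet_Icc]
    have e2 : ∫ y : ℝ, Real.exp (-y ^ 2) = Real.sqrt Real.pi := by
      have := integral_gaussian 1
      simpa using this
    rw [e2]
    congr 3
    simp
    norm_num
  rw [e1, integral_const_mul] at h1
  have h2 : s * ∫ y : ℝ, fe k P (v - y / N) * Real.exp (-y ^ 2) ≤ |AN k P n v| := by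
    unfold AN
    rw [← hNd]
    calc s * ∫ y : ℝ, fe k P (v - y / N) * Real.exp (-y ^ 2) ≤ |s * ∫ y : ℝ, fe k P (v - y / N) * Real.exp (-y ^ 2)| := le_abs_self _
      _ = _ := by rw [abs_mul, hs1, one_mul]
  have h3 : Real.sqrt Real.pi ≤ 2 := by
    rw [Real.sqrt_le_left (by norm_num)]
    linarith [Real.pi_le_four]
  have h4 : Real.sqrt (Real.pi / (1 / 2)) ≤ 3 := by
    rw [Real.sqrt_le_left (by norm_num)]
    linarith [Real.pi_le_four]
  have h5 : E * Real.sqrt Real.pi ≤ E * 2 := by gcongr
  have h6 : C * Real.exp 4 * Real.sqrt (Real.pi / (1 / 2)) ≤ C * Real.exp 4 * 3 := by gcongr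
  linarith [abs_nonneg (AN k P n v)]

end

end Pool.Agent.J4H77.PE
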