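import Pool.Agent.J4H77.PE.Alp2

/-!
# Pointwise bounds of the error term from the Lindelöf abscissa, third part
-/

set_option autoImplicit false

open Filter Topology MeasureTheory Set
open scoped ComplexConjugate

namespace Pool.Agent.J4H77.PE

noncomputable section

theorem alpha_of_Lind {k : ℕ} (hk : 1 ≤ k) {P : Polynomial ℝ} {θ C : ℝ} (hg : Good k P θ C) {σ : ℝ} (h : σ ∈ LindSet)
    {τ : ℝ} (hτ : σ < τ) : ∃ C' : ℝ, ∀ x : ℝ, 1 ≤ x → |err k P x| ≤ C' * x ^ τ := by
  have hC := hg.2.2.1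
  rcases le_or_gt 1 τ with h1 | h1
  · refine ⟨C, fun x hx => (hg.2.2.2 x hx).trans ?_⟩
    apply mul_le_mul_of_nonneg_left _ hC
    exact Real.rpow_le_rpow_of_exponent_le hx (by linarith [hg.2.1])
  have hσ0 := h.1
  obtain ⟨η, hη⟩ : ∃ η, η = (τ - σ) / 4 := ⟨_, rfl⟩
  have hη0 : 0 < η := by rw [hη]; linarith
  have hη1 : η ≤ 1 := by rw [hη]; linarith
  have hη2 : σ + 4 * η < 1 := by rw [hη]; linarith
  obtain ⟨B, hB, hAN⟩ := AN_bound hk hg h (by linarith) hη0 hη1
  obtain ⟨Q, hQ, hMt⟩ := Mt_lip P hη0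
  obtain ⟨B₁, hB₁⟩ : ∃ B₁ : ℝ, B₁ = 1 + 1 / η := ⟨_, rfl⟩
  have hB₁0 : 0 < B₁ := by rw [hB₁]; positivity
  have hlog : ∀ v : ℝ, 0 ≤ v → 1 + v ≤ B₁ * Real.exp (η * v) := by
    intro v hv
    have h2 := Real.add_one_le_exp (η * v)
    have h3 : 1 ≤ Real.exp (η * v) := Real.one_le_exp (by positivity)
    rw [hB₁, add_mul, one_mul]
    have h4 : v ≤ 1 / η * Real.exp (η * v) := by
      rw [one_div, inv_mul_eq_div, le_div_iff₀ hη0]
      linarith
    linarith
  -- the starting point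
  have hlim : Tendsto (fun v : ℝ => 2 * B₁ * Real.exp (-(1 - σ - η) * v)) atTop (𝓝 0) := by
    have h2 : Tendsto (fun v : ℝ => Real.exp (-(1 - σ - η) * v)) atTop (𝓝 0) := by
      apply Real.tendsto_exp_atBot.comp
      apply Tendsto.const_mul_atTop_of_neg (by linarith) tendsto_id
    simpa using h2.const_mul (2 * B₁)
  obtain ⟨V, hV⟩ := eventually_atTop.1 (hlim.eventually (gt_mem_nhds (zero_lt_one)))
  obtain ⟨V₀, hV₀⟩ : ∃ V₀, V₀ = max V 1 := ⟨_, rfl⟩
  have hV1 : 1 ≤ V₀ := by rw [hV₀]; exact le_max_right _ _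
  obtain ⟨C₄, hC₄⟩ : ∃ C₄, C₄ = 4 * (B * 27 + Q * (Real.exp 2 * (2 * B₁)) * 2 + C * Real.exp 4 * 3) := ⟨_, rfl⟩
  have hC₄0 : 0 ≤ C₄ := by rw [hC₄]; positivity
  have hmain : ∀ v : ℝ, V₀ ≤ v → |fe k P v| ≤ C₄ * Real.exp ((σ + 2 * η) * v) := by
    intro v hv
    have hv1 : 1 ≤ v := hV1.trans hv
    have hv0 : 0 ≤ v := by linarith
    obtain ⟨n, hn⟩ : ∃ n : ℕ, n = ⌈Real.exp ((1 - σ) * v)⌉₊ := ⟨_, rfl⟩
    have hn1 : Real.exp ((1 - σ) * v) ≤ (n : ℝ) + 1 := by
      have := Nat.le_ceil (Real.exp ((1 - σ) * v))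
      rw [← hn] at this
      linarith
    have hn0 : (0 : ℝ) < (n : ℝ) + 1 := by positivity
    have hn2 : (n : ℝ) + 1 ≤ 3 * Real.exp v := by
      have h2 := Nat.ceil_lt_add_one (Real.exp_pos ((1 - σ) * v)).le
      rw [← hn] at h2
      have h3 : Real.exp ((1 - σ) * v) ≤ Real.exp v := Real.exp_le_exp.2 (by nlinarith)
      have h4 : 1 ≤ Real.exp v := Real.one_le_exp hv0
      linarith
    have hr : 2 * (1 + v) / ((n : ℝ) + 1) ≤ 2 * B₁ * Real.exp (-(1 - σ - η) * v) := by
      rw [div_le_iff₀ hn0]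
      calc 2 * (1 + v) ≤ 2 * (B₁ * Real.exp (η * v)) := by
            have := hlog v hv0
            linarith
        _ = 2 * B₁ * Real.exp (-(1 - σ - η) * v) * Real.exp ((1 - σ) * v) := by
            rw [mul_assoc (2 * B₁), ← Real.exp_add]
            ring_nf
        _ ≤ _ := by gcongr
    have hr1 : 2 * (1 + v) / ((n : ℝ) + 1) ≤ 1 := by
      refine hr.trans (hV v ?_).le
      exact (le_max_left V 1).trans (by rw [← hV₀]; exact hv)
    have side : ∀ s : ℝ, (s = 1 ∨ s = -1) → 0 ≤ s * fe k P v → s * fe k P v ≤ C₄ * Real.exp ((σ + 2 * η) * v) := by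
      intro s hs hpos
      have h2 := compare hg hQ hMt hs hv1 hr1 hpos
      have h3 : |AN k P n (v + s * (1 + v) / ((n : ℝ) + 1))| ≤ B * 27 * Real.exp ((σ + 2 * η) * v) := by
        have h4 : s * (1 + v) / ((n : ℝ) + 1) ≤ 1 := by
          have h5 : (1 + v) / ((n : ℝ) + 1) ≤ 1 := by
            have h6 : 0 ≤ (1 + v) / ((n : ℝ) + 1) := by positivity
            rw [mul_div_assoc] at hr1
            linarith
          have h6 : 0 ≤ (1 + v) / ((n : ℝ) + 1) := by positivity
          rw [mul_div_assoc]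
          rcases hs with h | h <;> rw [h] <;> linarith
        have h5 : Real.exp (σ * (v + s * (1 + v) / ((n : ℝ) + 1))) ≤ 3 * Real.exp (σ * v) := by
          have h6 : Real.exp 1 ≤ 3 := by linarith [Real.exp_one_lt_d9]
          calc Real.exp (σ * (v + s * (1 + v) / ((n : ℝ) + 1))) ≤ Real.exp (1 + σ * v) := by
                apply Real.exp_le_exp.2
                nlinarith
            _ = Real.exp 1 * Real.exp (σ * v) := Real.exp_add _ _
            _ ≤ _ := by gcongr
        have h6 : ((n : ℝ) + 1) ^ (2 * η) ≤ 9 * Real.exp (2 * η * v) := by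
          calc ((n : ℝ) + 1) ^ (2 * η) ≤ (3 * Real.exp v) ^ (2 * η) := by gcongr
            _ = 3 ^ (2 * η) * Real.exp (2 * η * v) := by
                rw [Real.mul_rpow (by norm_num) (Real.exp_pos _).le, ← Real.exp_mul]
                ring_nf
            _ ≤ 3 ^ (2 : ℝ) * Real.exp (2 * η * v) := by
                have : (3 : ℝ) ^ (2 * η) ≤ 3 ^ (2 : ℝ) := Real.rpow_le_rpow_of_exponent_le (by norm_num) (by linarith)
                gcongr
            _ = _ := by norm_num
        calc |AN k P n (v + s * (1 + v) / ((n : ℝ) + 1))| ≤ B * (3 * Real.exp (σ * v)) * (9 * Real.exp (2 * η * v)) := by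
              refine (hAN n _).trans ?_
              gcongr
          _ = B * 27 * (Real.exp (σ * v) * Real.exp (2 * η * v)) := by ring
          _ = _ := by rw [← Real.exp_add]; ring_nf
      have h4 : Q * Real.exp ((1 + η) * (v + 1)) * (2 * (1 + v) / ((n : ℝ) + 1)) * 2 ≤
          Q * (Real.exp 2 * (2 * B₁)) * 2 * Real.exp ((σ + 2 * η) * v) := by
        calc Q * Real.exp ((1 + η) * (v + 1)) * (2 * (1 + v) / ((n : ℝ) + 1)) * 2 ≤
            Q * (Real.exp 2 * Real.exp ((1 + η) * v)) * (2 * B₁ * Real.exp (-(1 - σ - η) * v)) * 2 := by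
              have h5 : Real.exp ((1 + η) * (v + 1)) ≤ Real.exp 2 * Real.exp ((1 + η) * v) := by
                rw [← Real.exp_add]
                apply Real.exp_le_exp.2
                nlinarith
              gcongr
          _ = Q * (Real.exp 2 * (2 * B₁)) * 2 * (Real.exp ((1 + η) * v) * Real.exp (-(1 - σ - η) * v)) := by ring
          _ = _ := by rw [← Real.exp_add]; ring_nf
      have h5 : C * Real.exp 4 * 3 ≤ C * Real.exp 4 * 3 * Real.exp ((σ + 2 * η) * v) := by
        apply le_mul_of_one_le_right (by positivity)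
        exact Real.one_le_exp (by positivity)
      calc s * fe k P v ≤ _ := h2
        _ ≤ 4 * (B * 27 * Real.exp ((σ + 2 * η) * v) + Q * (Real.exp 2 * (2 * B₁)) * 2 * Real.exp ((σ + 2 * η) * v) +
            C * Real.exp 4 * 3 * Real.exp ((σ + 2 * η) * v)) := by
              gcongr
        _ = _ := by rw [hC₄]; ring
    rcases le_or_gt 0 (fe k P v) with h2 | h2
    · rw [abs_of_nonneg h2]
      have := side 1 (Or.inl rfl) (by linarith)
      linarith
    · rw [abs_of_neg h2]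
      have := side (-1) (Or.inr rfl) (by linarith)
      linarith
  refine ⟨C₄ + C * Real.exp V₀, fun x hx => ?_⟩
  have hx0 : 0 < x := by linarith
  obtain ⟨v, hv⟩ : ∃ v, v = Real.log x := ⟨_, rfl⟩
  have hv0 : 0 ≤ v := by rw [hv]; exact Real.log_nonneg hx
  have hfe : err k P x = fe k P v := by
    rw [fe_pos hv0, hv, Real.exp_log hx0]
  have hxτ : x ^ τ = Real.exp (τ * v) := by
    rw [Real.rpow_def_of_pos hx0, hv]
    ring_nf
  rw [hfe, hxτ, add_mul]
  have hE : 0 < Real.exp (τ * v) := Real.exp_pos _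
  rcases le_or_gt V₀ v with h2 | h2
  · have h3 : Real.exp ((σ + 2 * η) * v) ≤ Real.exp (τ * v) := by
      apply Real.exp_le_exp.2
      have : σ + 2 * η ≤ τ := by rw [hη]; linarith
      nlinarith
    have h4 : 0 ≤ C * Real.exp V₀ * Real.exp (τ * v) := by positivity
    calc |fe k P v| ≤ C₄ * Real.exp ((σ + 2 * η) * v) := hmain v h2
      _ ≤ C₄ * Real.exp (τ * v) := by gcongr
      _ ≤ _ := by linarith
  · have h3 : |fe k P v| ≤ C * Real.exp V₀ := by
      refine (fe_le hg v).trans ?_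
      apply mul_le_mul_of_nonneg_left _ hC
      apply Real.exp_le_exp.2
      nlinarith [hg.1, hg.2.1]
    have h4 : 1 ≤ Real.exp (τ * v) := Real.one_le_exp (by nlinarith)
    have h5 : 0 ≤ C * Real.exp V₀ := by positivity
    have h6 : 0 ≤ C₄ * Real.exp (τ * v) := by positivity
    nlinarith

end

end Pool.Agent.J4H77.PE
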