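import Mathlib
import Pool.Agent.TH935.LP.W3

/-!
# The error term in the divisor problem of Piltz: definitions, the Mellin transform and its continuation
-/

set_option autoImplicit false

open Filter Topology MeasureTheory Set

namespace Pool.Agent.J4H77.PE

noncomputable section

/-- the summatory function of `d_k` -/
def D (k : ℕ) (x : ℝ) : ℝ :=
  ∑ n ∈ Finset.Icc 1 ⌊x⌋₊, (((ArithmeticFunction.zeta ^ k : ArithmeticFunction ℕ) n : ℕ) : ℝ)

/-- the error term for the main term `x P(log x)` -/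
def err (k : ℕ) (P : Polynomial ℝ) (x : ℝ) : ℝ := D k x - x * P.eval (Real.log x)

/-- `err k P` has a power saving -/
def Good (k : ℕ) (P : Polynomial ℝ) (θ C : ℝ) : Prop :=
  0 < θ ∧ θ < 1 ∧ 0 ≤ C ∧ ∀ x : ℝ, 1 ≤ x → |err k P x| ≤ C * x ^ θ

theorem exists_good (k : ℕ) (hk : 1 ≤ k) : ∃ (P : Polynomial ℝ) (θ C : ℝ), Good k P θ C := by
  obtain ⟨r, rfl⟩ : ∃ r, k = r + 1 := ⟨k - 1, by omega⟩
  obtain ⟨P, -, C, δ, hC, hδ, h⟩ := Pool.Agent.TH935.LP.piltz r
  refine ⟨P, max (1 - δ) (1 / 2), C, by positivity, ?_, hC, fun x hx => ?_⟩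
  · exact max_lt (by linarith) (by norm_num)
  · have hx0 : 0 < x := by linarith
    have h1 := h x hx
    have e1 : D (r + 1) x = x * (Pool.Agent.TH935.LP.SD (r + 1) ⌊x⌋₊ / x) := by
      rw [mul_div_cancel₀ _ hx0.ne']
      rfl
    unfold err
    rw [e1, ← mul_sub, abs_mul, abs_of_pos hx0]
    calc x * |Pool.Agent.TH935.LP.SD (r + 1) ⌊x⌋₊ / x - P.eval (Real.log x)| ≤ x * (C * x ^ (-δ)) := by gcongr
      _ = C * x ^ (1 - δ) := by
          rw [sub_eq_add_neg, Real.rpow_add hx0, Real.rpow_one]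
          ring
      _ ≤ C * x ^ (max (1 - δ) (1 / 2)) := by
          apply mul_le_mul_of_nonneg_left _ hC
          exact Real.rpow_le_rpow_of_exponent_le hx (le_max_left _ _)

/-- the error term in the variable `u = log x` -/
def fe (k : ℕ) (P : Polynomial ℝ) (u : ℝ) : ℝ := if 0 ≤ u then err k P (Real.exp u) else 0

lemma D_meas (k : ℕ) : Measurable (D k) := by
  have h : D k = (fun n : ℕ => ∑ n ∈ Finset.Icc 1 n, (((ArithmeticFunction.zeta ^ k : ArithmeticFunction ℕ) n : ℕ) : ℝ)) ∘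
    (fun x : ℝ => ⌊x⌋₊) := rfl
  rw [h]
  exact (measurable_from_top).comp Nat.measurable_floor

lemma err_meas (k : ℕ) (P : Polynomial ℝ) : Measurable (err k P) := by
  unfold err
  have h := D_meas k
  have h2 : Measurable (fun x : ℝ => P.eval (Real.log x)) := P.continuous.measurable.comp Real.measurable_log
  exact h.sub (measurable_id.mul h2)

lemma fe_meas (k : ℕ) (P : Polynomial ℝ) : Measurable (fe k P) := by
  unfold fe
  refine Measurable.ite measurableSet_Ici ?_ measurable_const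
  exact (err_meas k P).comp Real.measurable_exp

lemma fe_neg {k : ℕ} {P : Polynomial ℝ} {u : ℝ} (hu : u < 0) : fe k P u = 0 := by
  unfold fe
  rw [if_neg (not_le.2 hu)]

lemma fe_pos {k : ℕ} {P : Polynomial ℝ} {u : ℝ} (hu : 0 ≤ u) : fe k P u = err k P (Real.exp u) := by
  unfold fe
  rw [if_pos hu]

lemma fe_le {k : ℕ} {P : Polynomial ℝ} {θ C : ℝ} (h : Good k P θ C) (u : ℝ) : |fe k P u| ≤ C * Real.exp (θ * u) := by
  rcases lt_or_ge u 0 with hu | hu
  · rw [fe_neg hu, abs_zero]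
    have := h.2.2.1
    positivity
  · rw [fe_pos hu]
    have h1 := h.2.2.2 (Real.exp u) (Real.one_le_exp hu)
    rwa [← Real.exp_mul, mul_comm u θ] at h1

/-- the Mellin transform of the error term -/
def Mf (k : ℕ) (P : Polynomial ℝ) (s : ℂ) : ℂ := ∫ u in Ioi (0 : ℝ), (fe k P u : ℂ) * Complex.exp (-s * u)

/-- the part of the main term -/
def Rf (P : Polynomial ℝ) (s : ℂ) : ℂ := P.sum (fun j p => (p : ℂ) * (j.factorial / (s - 1) ^ (j + 1)))

/-- the continuation -/
def Ef (k : ℕ) (P : Polynomial ℝ) (s : ℂ) : ℂ := riemannZeta s ^ k / s - Rf P s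

lemma int_exp_Ioi {a : ℝ} (ha : 0 < a) : IntegrableOn (fun u : ℝ => Real.exp (-a * u)) (Ioi 0) :=
  integrableOn_exp_mul_Ioi (by linarith) 0

lemma norm_cexp (s : ℂ) (u : ℝ) : ‖Complex.exp (-s * u)‖ = Real.exp (-s.re * u) := by
  rw [Complex.norm_exp]
  congr 1
  simp

lemma Mf_int {k : ℕ} {P : Polynomial ℝ} {θ C : ℝ} (h : Good k P θ C) {s : ℂ} (hs : θ < s.re) :
    IntegrableOn (fun u : ℝ => (fe k P u : ℂ) * Complex.exp (-s * u)) (Ioi 0) := by
  refine Integrable.mono' ((int_exp_Ioi (a := s.re - θ) (by linarith)).const_mul C) ?_ ?_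
  · refine Measurable.aestronglyMeasurable ?_
    have := fe_meas k P
    fun_prop
  · refine Eventually.of_forall fun u => ?_
    rw [norm_mul, norm_cexp, Complex.norm_real, Real.norm_eq_abs]
    calc |fe k P u| * Real.exp (-s.re * u) ≤ C * Real.exp (θ * u) * Real.exp (-s.re * u) := by
          gcongr; exact fe_le h u
      _ = C * Real.exp (-(s.re - θ) * u) := by rw [mul_assoc, ← Real.exp_add]; ring_nf

end

end Pool.Agent.J4H77.PE
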