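import Pool.Agent.J4H77.PE.Three3

/-!
# The exponents of the mean square
-/

set_option autoImplicit false

open Filter Topology MeasureTheory Set
open scoped ENNReal

namespace Pool.Agent.J4H77.PE

noncomputable section

/-- the exponents of the mean square -/
def BetaSet (k : ℕ) (P : Polynomial ℝ) : Set ℝ :=
  {b | ∃ C : ℝ, ∀ x : ℝ, 1 ≤ x → ∫ y in (1 : ℝ)..x, (err k P y) ^ 2 ≤ C * x ^ (1 + 2 * b)}

lemma BetaSet_up {k : ℕ} {P : Polynomial ℝ} {b b' : ℝ} (hb : b ∈ BetaSet k P) (h : b ≤ b') : b' ∈ BetaSet k P := by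
  obtain ⟨C, hC⟩ := hb
  refine ⟨max C 0, fun x hx => (hC x hx).trans ?_⟩
  have h1 : x ^ (1 + 2 * b) ≤ x ^ (1 + 2 * b') := Real.rpow_le_rpow_of_exponent_le hx (by linarith)
  have h2 : 0 < x ^ (1 + 2 * b) := Real.rpow_pos_of_pos (by linarith) _
  calc C * x ^ (1 + 2 * b) ≤ max C 0 * x ^ (1 + 2 * b) := by
        apply mul_le_mul_of_nonneg_right (le_max_left _ _) h2.le
    _ ≤ max C 0 * x ^ (1 + 2 * b') := by
        apply mul_le_mul_of_nonneg_left h1 (le_max_right _ _)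

lemma err_sq_int {k : ℕ} {P : Polynomial ℝ} {θ C : ℝ} (hg : Good k P θ C) {x : ℝ} (hx : 1 ≤ x) :
    IntegrableOn (fun y => (err k P y) ^ 2) (Icc 1 x) := by
  refine Measure.integrableOn_of_bounded (M := (C * x ^ θ) ^ 2) (by simp) ?_ ?_
  · have := err_meas k P
    exact Measurable.aestronglyMeasurable (by fun_prop)
  · refine (ae_restrict_iff' measurableSet_Icc).2 (Eventually.of_forall fun y hy => ?_)
    rw [Real.norm_eq_abs, abs_pow]
    have h1 := hg.2.2.2 y hy.1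
    have h2 : y ^ θ ≤ x ^ θ := Real.rpow_le_rpow (by linarith [hy.1]) hy.2 hg.1.le
    have h3 : C * y ^ θ ≤ C * x ^ θ := mul_le_mul_of_nonneg_left h2 hg.2.2.1
    have h4 := h1.trans h3
    gcongr

lemma ofReal_ms {k : ℕ} {P : Polynomial ℝ} {θ C : ℝ} (hg : Good k P θ C) {x : ℝ} (hx : 1 ≤ x) :
    ENNReal.ofReal (∫ y in (1 : ℝ)..x, (err k P y) ^ 2) = ∫⁻ y in Icc 1 x, ENNReal.ofReal ((err k P y) ^ 2) := by
  rw [intervalIntegral.integral_of_le hx, ← integral_Icc_eq_integral_Ioc]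
  rw [ofReal_integral_eq_lintegral_ofReal (err_sq_int hg hx)]
  exact Eventually.of_forall fun y => by positivity

lemma cov (k : ℕ) (P : Polynomial ℝ) (U : ℝ) :
    ∫⁻ y in Icc 1 (Real.exp U), ENNReal.ofReal ((err k P y) ^ 2) =
      ∫⁻ u in Icc 0 U, ENNReal.ofReal (Real.exp u * (fe k P u) ^ 2) := by
  have himg : Real.exp '' Icc 0 U = Icc 1 (Real.exp U) := by
    ext y
    constructor
    · rintro ⟨u, hu, rfl⟩
      exact ⟨Real.one_le_exp hu.1, Real.exp_le_exp.2 hu.2⟩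
    · intro hy
      have hy0 : 0 < y := by linarith [hy.1]
      refine ⟨Real.log y, ⟨Real.log_nonneg hy.1, ?_⟩, Real.exp_log hy0⟩
      rw [← Real.log_exp U]
      exact Real.log_le_log hy0 hy.2
  rw [← himg]
  rw [lintegral_image_eq_lintegral_abs_deriv_mul measurableSet_Icc
    (fun x _ => (Real.hasDerivAt_exp x).hasDerivWithinAt) (Real.exp_injective.injOn)]
  apply setLIntegral_congr_fun measurableSet_Icc
  intro u hu
  simp only
  rw [abs_of_pos (Real.exp_pos _), ← ENNReal.ofReal_mul (Real.exp_pos _).le, fe_pos hu.1]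

lemma fs_sq (k : ℕ) (P : Polynomial ℝ) (σ u : ℝ) :
    ‖fs k P σ u‖ₑ ^ 2 = ENNReal.ofReal (Real.exp (-(1 + 2 * σ) * u)) * ENNReal.ofReal (Real.exp u * (fe k P u) ^ 2) := by
  rw [← ENNReal.ofReal_mul (Real.exp_pos _).le, ← ofReal_norm, fs_norm, ← ENNReal.ofReal_pow (by positivity)]
  congr 1
  have h : Real.exp (-(1 + 2 * σ) * u) * Real.exp u = Real.exp ((2 : ℕ) * (-σ * u)) := by
    rw [← Real.exp_add]
    congr 1
    push_cast
    ring
  rw [mul_pow, sq_abs, ← Real.exp_nat_mul, ← h]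
  ring

/-- from the weighted mean square to the mean square -/
theorem beta_of_L2 {k : ℕ} {P : Polynomial ℝ} {θ C : ℝ} (hg : Good k P θ C) {σ : ℝ} (hσ : 0 ≤ σ) (h : L2 k P σ) :
    σ ∈ BetaSet k P := by
  unfold L2 at h
  refine ⟨(∫⁻ u : ℝ, ‖fs k P σ u‖ₑ ^ 2).toReal, fun x hx => ?_⟩
  have hx0 : 0 < x := by linarith
  have hr : 0 < x ^ (1 + 2 * σ) := Real.rpow_pos_of_pos hx0 _
  have h1 : ENNReal.ofReal (∫ y in (1 : ℝ)..x, (err k P y) ^ 2) ≤
      ENNReal.ofReal (x ^ (1 + 2 * σ)) * ∫⁻ u : ℝ, ‖fs k P σ u‖ₑ ^ 2 := by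
    rw [ofReal_ms hg hx]
    have h2 := cov k P (Real.log x)
    rw [Real.exp_log hx0] at h2
    rw [h2, ← lintegral_const_mul' _ _ ENNReal.ofReal_ne_top]
    refine le_trans ?_ (setLIntegral_le_lintegral (Icc 0 (Real.log x)) _)
    apply setLIntegral_mono' measurableSet_Icc
    intro u hu
    rw [fs_sq, ← mul_assoc, ← ENNReal.ofReal_mul hr.le]
    apply le_mul_of_one_le_left (by simp)
    rw [ENNReal.one_le_ofReal, Real.rpow_def_of_pos hx0, ← Real.exp_add]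
    apply Real.one_le_exp
    have := hu.2
    nlinarith
  have h3 : (∫⁻ u : ℝ, ‖fs k P σ u‖ₑ ^ 2) = ENNReal.ofReal (∫⁻ u : ℝ, ‖fs k P σ u‖ₑ ^ 2).toReal :=
    (ENNReal.ofReal_toReal h.ne).symm
  rw [h3, ← ENNReal.ofReal_mul hr.le] at h1
  have h4 := (ENNReal.ofReal_le_ofReal_iff (by positivity)).1 h1
  rw [mul_comm]
  exact h4

/-- from the mean square to the weighted mean square -/
theorem L2_of_beta {k : ℕ} {P : Polynomial ℝ} {θ C : ℝ} (hg : Good k P θ C) {b σ : ℝ} (hb : b ∈ BetaSet k P)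
    (hbσ : b < σ) (hσ : 0 ≤ σ) : L2 k P σ := by
  obtain ⟨A, hA⟩ := hb
  have hA0 : 0 ≤ A := by
    have := hA 1 le_rfl
    simpa using this
  unfold L2
  have hsub : (Ici (0 : ℝ)) ⊆ ⋃ n : ℕ, Ico (n : ℝ) (n + 1) := by
    intro u hu
    rw [mem_iUnion]
    exact ⟨⌊u⌋₊, Nat.floor_le hu, Nat.lt_floor_add_one u⟩
  have h1 : ∫⁻ u : ℝ, ‖fs k P σ u‖ₑ ^ 2 ≤ ∫⁻ u in Ici (0 : ℝ), ‖fs k P σ u‖ₑ ^ 2 := by
    rw [← lintegral_indicator measurableSet_Ici]
    apply lintegral_mono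
    intro u
    by_cases hu : 0 ≤ u
    · rw [indicator_of_mem (by exact hu)]
    · push Not at hu
      simp only [fs, fe_neg hu]
      simp
  have h2 : ∀ n : ℕ, ∫⁻ u in Ico (n : ℝ) (n + 1), ‖fs k P σ u‖ₑ ^ 2 ≤
      ENNReal.ofReal (A * Real.exp (1 + 2 * b) * Real.exp (-(2 * (σ - b))) ^ n) := by
    intro n
    have hx : 1 ≤ Real.exp ((n : ℝ) + 1) := Real.one_le_exp (by positivity)
    calc ∫⁻ u in Ico (n : ℝ) (n + 1), ‖fs k P σ u‖ₑ ^ 2 ≤
        ∫⁻ u in Ico (n : ℝ) (n + 1), ENNReal.ofReal (Real.exp (-(1 + 2 * σ) * n)) * ENNReal.ofReal (Real.exp u * (fe k P u) ^ 2) := by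
          apply setLIntegral_mono' measurableSet_Ico
          intro u hu
          rw [fs_sq]
          gcongr ENNReal.ofReal (Real.exp ?_) * _
          have := hu.1
          nlinarith
      _ = ENNReal.ofReal (Real.exp (-(1 + 2 * σ) * n)) * ∫⁻ u in Ico (n : ℝ) (n + 1), ENNReal.ofReal (Real.exp u * (fe k P u) ^ 2) := by
          rw [lintegral_const_mul' _ _ ENNReal.ofReal_ne_top]
      _ ≤ ENNReal.ofReal (Real.exp (-(1 + 2 * σ) * n)) * ∫⁻ u in Icc (0 : ℝ) (n + 1), ENNReal.ofReal (Real.exp u * (fe k P u) ^ 2) := by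
          gcongr
          intro u hu
          have h3 : (0 : ℝ) ≤ n := by positivity
          exact ⟨h3.trans hu.1, hu.2.le⟩
      _ = ENNReal.ofReal (Real.exp (-(1 + 2 * σ) * n)) * ENNReal.ofReal (∫ y in (1 : ℝ)..(Real.exp ((n : ℝ) + 1)), (err k P y) ^ 2) := by
          rw [ofReal_ms hg hx, cov]
      _ ≤ ENNReal.ofReal (Real.exp (-(1 + 2 * σ) * n)) * ENNReal.ofReal (A * Real.exp ((n : ℝ) + 1) ^ (1 + 2 * b)) := by
          gcongr
          exact hA _ hx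
      _ = _ := by
          rw [← ENNReal.ofReal_mul (Real.exp_pos _).le]
          congr 1
          rw [← Real.exp_mul, ← Real.exp_nat_mul]
          calc Real.exp (-(1 + 2 * σ) * n) * (A * Real.exp (((n : ℝ) + 1) * (1 + 2 * b))) =
              A * (Real.exp (-(1 + 2 * σ) * n) * Real.exp (((n : ℝ) + 1) * (1 + 2 * b))) := by ring
            _ = A * (Real.exp (1 + 2 * b) * Real.exp (n * -(2 * (σ - b)))) := by
                rw [← Real.exp_add, ← Real.exp_add]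
                congr 2
                ring
            _ = _ := by ring
  have hr : Real.exp (-(2 * (σ - b))) < 1 := by
    rw [Real.exp_lt_one_iff]
    linarith
  have hs : Summable (fun n : ℕ => A * Real.exp (1 + 2 * b) * Real.exp (-(2 * (σ - b))) ^ n) :=
    (summable_geometric_of_lt_one (Real.exp_pos _).le hr).mul_left _
  calc ∫⁻ u : ℝ, ‖fs k P σ u‖ₑ ^ 2 ≤ ∫⁻ u in Ici (0 : ℝ), ‖fs k P σ u‖ₑ ^ 2 := h1
    _ ≤ ∫⁻ u in ⋃ n : ℕ, Ico (n : ℝ) (n + 1), ‖fs k P σ u‖ₑ ^ 2 := lintegral_mono_set hsub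
    _ ≤ ∑' n : ℕ, ∫⁻ u in Ico (n : ℝ) (n + 1), ‖fs k P σ u‖ₑ ^ 2 := lintegral_iUnion_le _ _
    _ ≤ ∑' n : ℕ, ENNReal.ofReal (A * Real.exp (1 + 2 * b) * Real.exp (-(2 * (σ - b))) ^ n) := ENNReal.tsum_le_tsum h2
    _ < ⊤ := by
        rw [← ENNReal.ofReal_tsum_of_nonneg (fun n => by positivity) hs]
        exact ENNReal.ofReal_lt_top

theorem Int_of_beta {k : ℕ} (hk : 1 ≤ k) {P : Polynomial ℝ} {θ C : ℝ} (hg : Good k P θ C) {b σ : ℝ} (hb : b ∈ BetaSet k P)
    (hbσ : b < σ) (h0 : 0 < σ) (h2 : σ ≤ 2) : Int (2 * k) σ := by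
  have ha : max b 0 < σ := max_lt hbσ h0
  have h1 : L2 k P ((max b 0 + σ) / 2) :=
    L2_of_beta hg hb (by linarith [le_max_left b 0]) (by linarith [le_max_right b 0])
  exact Int_of_AH hk hg h0 h2 (H_L2 hk hg (by linarith [le_max_right b 0]) (by linarith) h1 (by linarith))

theorem beta_of_Int {k : ℕ} (hk : 1 ≤ k) {P : Polynomial ℝ} {θ C : ℝ} (hg : Good k P θ C) {σ : ℝ}
    (h0 : 0 < σ) (h2 : σ ≤ 2) (h : Int (2 * k) σ) : σ ∈ BetaSet k P :=
  beta_of_L2 hg h0.le (L2_of_AH hk hg h0 h2 (AH_of_Int hk hg h0 h))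

/-- a pointwise bound gives a mean square bound -/
lemma beta_of_point {k : ℕ} {P : Polynomial ℝ} {θ C : ℝ} (hg : Good k P θ C) : θ ∈ BetaSet k P := by
  refine ⟨C ^ 2, fun x hx => ?_⟩
  have hx0 : 0 < x := by linarith
  have h1 : ∀ y ∈ Icc (1 : ℝ) x, (err k P y) ^ 2 ≤ C ^ 2 * x ^ (2 * θ) := by
    intro y hy
    have h1 := hg.2.2.2 y hy.1
    have h2 : y ^ θ ≤ x ^ θ := Real.rpow_le_rpow (by linarith [hy.1]) hy.2 hg.1.le
    have h3 : |err k P y| ≤ C * x ^ θ := h1.trans (mul_le_mul_of_nonneg_left h2 hg.2.2.1)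
    calc (err k P y) ^ 2 = |err k P y| ^ 2 := (sq_abs _).symm
      _ ≤ (C * x ^ θ) ^ 2 := by gcongr
      _ = _ := by rw [mul_pow, ← Real.rpow_natCast (x ^ θ), ← Real.rpow_mul hx0.le]; norm_num; left; ring_nf
  have h2 : IntervalIntegrable (fun y => (err k P y) ^ 2) volume 1 x := by
    rw [intervalIntegrable_iff_integrableOn_Icc_of_le hx]
    exact err_sq_int hg hx
  calc ∫ y in (1 : ℝ)..x, (err k P y) ^ 2 ≤ ∫ y in (1 : ℝ)..x, C ^ 2 * x ^ (2 * θ) :=
        intervalIntegral.integral_mono_on hx h2 (by simp) h1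
    _ = (x - 1) * (C ^ 2 * x ^ (2 * θ)) := by rw [intervalIntegral.integral_const, smul_eq_mul]
    _ ≤ x * (C ^ 2 * x ^ (2 * θ)) := by
        apply mul_le_mul_of_nonneg_right (by linarith) (by positivity)
    _ = C ^ 2 * x ^ (1 + 2 * θ) := by
        rw [Real.rpow_add hx0, Real.rpow_one]
        ring

/-- the second moment: all lines to the right of the imaginary axis -/
theorem Int_two {σ : ℝ} (h0 : 0 < σ) (h2 : σ ≤ 2) : Int 2 σ := by
  have hfl : ∀ x : ℝ, 1 ≤ x → D 1 x = ⌊x⌋₊ := by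
    intro x hx
    unfold D
    rw [Finset.sum_congr rfl (g := fun _ => (1 : ℝ))]
    · simp
    · intro n hn
      have : n ≠ 0 := by
        have := (Finset.mem_Icc.1 hn).1
        omega
      simp [this]
  have he : ∀ x : ℝ, 1 ≤ x → |err 1 1 x| ≤ 1 := by
    intro x hx
    unfold err
    rw [hfl x hx]
    simp only [Polynomial.eval_one, mul_one]
    rw [abs_le]
    have h3 := Nat.floor_le (show 0 ≤ x by linarith)
    have h4 := Nat.lt_floor_add_one x
    constructor <;> linarith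
  have hg : Good 1 1 (1 / 2) 1 := by
    refine ⟨by norm_num, by norm_num, by norm_num, fun x hx => (he x hx).trans ?_⟩
    rw [one_mul]
    exact Real.one_le_rpow hx (by norm_num)
  have hb : (0 : ℝ) ∈ BetaSet 1 1 := by
    refine ⟨1, fun x hx => ?_⟩
    have h2 : IntervalIntegrable (fun y => (err 1 1 y) ^ 2) volume 1 x := by
      rw [intervalIntegrable_iff_integrableOn_Icc_of_le hx]
      exact err_sq_int hg hx
    calc ∫ y in (1 : ℝ)..x, (err 1 1 y) ^ 2 ≤ ∫ y in (1 : ℝ)..x, (1 : ℝ) :=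
          intervalIntegral.integral_mono_on hx h2 (by simp) (fun y hy => by
            have := he y hy.1
            rw [← sq_abs]
            nlinarith [abs_nonneg (err 1 1 y)])
      _ = x - 1 := by simp
      _ ≤ _ := by simp
  exact Int_of_beta le_rfl hg hb h0 h0 h2

end

end Pool.Agent.J4H77.PE
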