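import Pool.Agent.J4H77.PE.Mel

/-!
# The continuation of the Mellin transform of the error term
-/

set_option autoImplicit false

open Filter Topology MeasureTheory Set

namespace Pool.Agent.J4H77.PE

noncomputable section

/-- `d_k` with complex values -/
def dc (k n : ℕ) : ℂ := (((ArithmeticFunction.zeta ^ k : ArithmeticFunction ℕ) n : ℕ) : ℂ)

lemma dc_LSeries (k : ℕ) (hk : 1 ≤ k) {s : ℂ} (hs : 1 < s.re) :
    LSeriesSummable (dc k) s ∧ LSeries (dc k) s = riemannZeta s ^ k := by
  induction k, hk using Nat.le_induction with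
  | base =>
    have e : dc 1 = fun n => ((ArithmeticFunction.zeta n : ℕ) : ℂ) := by
      funext n
      unfold dc
      rw [pow_one]
    rw [e, pow_one]
    exact ⟨ArithmeticFunction.LSeriesSummable_zeta_iff.2 hs, ArithmeticFunction.LSeries_zeta_eq_riemannZeta hs⟩
  | succ k hk ih =>
    have e : dc (k + 1) = fun n => ((((ArithmeticFunction.zeta ^ k : ArithmeticFunction ℕ) : ArithmeticFunction ℂ) *
        ((ArithmeticFunction.zeta : ArithmeticFunction ℕ) : ArithmeticFunction ℂ) : ArithmeticFunction ℂ) n) := by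
      funext n
      unfold dc
      rw [pow_succ, ← ArithmeticFunction.natCoe_mul, ArithmeticFunction.natCoe_apply]
    have e1 : dc k = fun n => ((ArithmeticFunction.zeta ^ k : ArithmeticFunction ℕ) : ArithmeticFunction ℂ) n := by
      funext n
      unfold dc
      rw [ArithmeticFunction.natCoe_apply]
    have e2 : (fun n => ((ArithmeticFunction.zeta n : ℕ) : ℂ)) =
        fun n => ((ArithmeticFunction.zeta : ArithmeticFunction ℕ) : ArithmeticFunction ℂ) n := by
      funext n
      rw [ArithmeticFunction.natCoe_apply]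
    have h1 := ih.1
    rw [e1] at h1
    have h2 : LSeriesSummable (fun n => ((ArithmeticFunction.zeta n : ℕ) : ℂ)) s :=
      ArithmeticFunction.LSeriesSummable_zeta_iff.2 hs
    rw [e2] at h2
    rw [e]
    refine ⟨ArithmeticFunction.LSeriesSummable_mul h1 h2, ?_⟩
    rw [ArithmeticFunction.LSeries_mul' h1 h2, ← e1, ← e2, ih.2, ArithmeticFunction.LSeries_zeta_eq_riemannZeta hs, pow_succ]

lemma D_cast (k : ℕ) (x : ℝ) : ((D k x : ℝ) : ℂ) = ∑ n ∈ Finset.Icc 1 ⌊x⌋₊, dc k n := by
  unfold D dc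
  push_cast
  rfl

lemma D_int {k : ℕ} {P : Polynomial ℝ} {θ C : ℝ} (h : Good k P θ C) {s : ℂ} (hs : 1 < s.re) :
    IntegrableOn (fun u : ℝ => ((D k (Real.exp u) : ℝ) : ℂ) * Complex.exp (-s * u)) (Ioi 0) := by
  have h1 := Mf_int h (s := s) (by linarith [h.2.1])
  have h2 := (Rf_eq P hs).1
  refine (h1.add h2).congr_fun ?_ measurableSet_Ioi
  intro u hu
  have hu0 : (0 : ℝ) ≤ u := (mem_Ioi.1 hu).le
  simp only [Pi.add_apply]
  rw [fe_pos hu0]
  unfold err
  rw [Real.log_exp]
  push_cast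
  have e : Complex.exp (-(s - 1) * u) = Complex.exp u * Complex.exp (-s * u) := by
    rw [← Complex.exp_add]
    ring_nf
  rw [e]
  ring

lemma D_val {k : ℕ} (hk : 1 ≤ k) {P : Polynomial ℝ} {θ C : ℝ} (h : Good k P θ C) {s : ℂ} (hs : 1 < s.re) :
    ∫ u in Ioi (0 : ℝ), ((D k (Real.exp u) : ℝ) : ℂ) * Complex.exp (-s * u) = riemannZeta s ^ k / s := by
  have hs0 : s ≠ 0 := by
    intro h0
    rw [h0] at hs
    simp at hs
    linarith
  obtain ⟨B, hB, hD⟩ := D_bound h ((s.re - 1) / 2) (by linarith)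
  have hO : (fun n : ℕ => ∑ m ∈ Finset.Icc 1 n, dc k m) =O[atTop] fun n : ℕ => (n : ℝ) ^ (1 + (s.re - 1) / 2) := by
    apply Asymptotics.IsBigO.of_bound B
    filter_upwards [eventually_ge_atTop 1] with n hn
    have hn1 : (1 : ℝ) ≤ n := by exact_mod_cast hn
    have hn0 : (0 : ℝ) < n := by linarith
    have h2 := hD (Real.log n) (Real.log_nonneg hn1)
    rw [Real.exp_log hn0] at h2
    have h3 : ∑ m ∈ Finset.Icc 1 n, dc k m = ((D k n : ℝ) : ℂ) := by
      rw [D_cast, Nat.floor_natCast]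
    rw [h3, Complex.norm_real, Real.norm_eq_abs, abs_of_nonneg (D_nonneg _ _), Real.norm_eq_abs,
      abs_of_nonneg (by positivity)]
    rw [Real.rpow_def_of_pos hn0, mul_comm (Real.log (n : ℝ))]
    exact h2
  have h1 := LSeries_eq_mul_integral (dc k) (r := 1 + (s.re - 1) / 2) (by linarith) (s := s) (by linarith)
    (dc_LSeries k hk hs).1 hO
  rw [(dc_LSeries k hk hs).2] at h1
  have h4 : ∫ t in Ioi (1 : ℝ), (∑ m ∈ Finset.Icc 1 ⌊t⌋₊, dc k m) * (t : ℂ) ^ (-(s + 1)) =
      ∫ u in Ioi (0 : ℝ), ((D k (Real.exp u) : ℝ) : ℂ) * Complex.exp (-s * u) := by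
    have himg : Real.exp '' Ioi 0 = Ioi 1 := by
      ext y
      simp only [mem_image, mem_Ioi]
      constructor
      · rintro ⟨x, hx, rfl⟩
        exact Real.one_lt_exp_iff.2 hx
      · intro hy
        exact ⟨Real.log y, Real.log_pos hy, Real.exp_log (by linarith)⟩
    rw [← himg, integral_image_eq_integral_abs_deriv_smul measurableSet_Ioi
      (fun x _ => (Real.hasDerivAt_exp x).hasDerivWithinAt) (Real.exp_injective.injOn)]
    apply setIntegral_congr_fun measurableSet_Ioi
    intro u hu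
    simp only
    rw [← D_cast, abs_of_pos (Real.exp_pos u), Complex.real_smul]
    have e : ((Real.exp u : ℝ) : ℂ) ^ (-(s + 1)) = Complex.exp (-(s + 1) * u) := by
      rw [Complex.cpow_def_of_ne_zero (by exact_mod_cast (Real.exp_pos u).ne'), ← Complex.ofReal_log (Real.exp_pos u).le,
        Real.log_exp]
      ring_nf
    rw [e]
    have e2 : Complex.exp (-s * u) = Complex.exp u * Complex.exp (-(s + 1) * u) := by
      rw [← Complex.exp_add]
      ring_nf
    rw [e2]
    push_cast
    ring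
  rw [h4] at h1
  rw [h1, mul_div_cancel_left₀ _ hs0]

lemma Mf_eq {k : ℕ} (hk : 1 ≤ k) {P : Polynomial ℝ} {θ C : ℝ} (h : Good k P θ C) {s : ℂ} (hs : 1 < s.re) :
    Mf k P s = Ef k P s := by
  unfold Ef
  rw [← D_val hk h hs, ← (Rf_eq P hs).2, ← integral_sub (D_int h hs) (Rf_eq P hs).1]
  unfold Mf
  apply setIntegral_congr_fun measurableSet_Ioi
  intro u hu
  have hu0 : (0 : ℝ) ≤ u := (mem_Ioi.1 hu).le
  simp only
  rw [fe_pos hu0]
  unfold err
  rw [Real.log_exp]
  push_cast
  have e : Complex.exp (-(s - 1) * u) = Complex.exp u * Complex.exp (-s * u) := by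
    rw [← Complex.exp_add]
    ring_nf
  rw [e]
  ring

end

end Pool.Agent.J4H77.PE
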