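import Pool.Agent.J4H77.PE.Cont

/-!
# The continuation of the Mellin transform of the error term, part 2
-/

set_option autoImplicit false

open Filter Topology MeasureTheory Set

namespace Pool.Agent.J4H77.PE

noncomputable section

/-- absolute convergence to the right of `a` -/
def Conv (k : ℕ) (P : Polynomial ℝ) (a : ℝ) : Prop :=
  ∀ σ : ℝ, a < σ → IntegrableOn (fun u : ℝ => |fe k P u| * Real.exp (-σ * u)) (Ioi 0)

lemma conv_good {k : ℕ} {P : Polynomial ℝ} {θ C : ℝ} (h : Good k P θ C) : Conv k P θ := by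
  intro σ hσ
  have h1 : IntegrableOn (fun u : ℝ => ‖(fe k P u : ℂ) * Complex.exp (-(σ : ℂ) * u)‖) (Ioi 0) :=
    (Mf_int h (s := (σ : ℂ)) (by simpa using hσ)).norm
  refine h1.congr_fun ?_ measurableSet_Ioi
  intro u _
  simp only
  rw [norm_mul, norm_cexp, Complex.norm_real, Real.norm_eq_abs, Complex.ofReal_re]

lemma conv_int {k : ℕ} {P : Polynomial ℝ} {a : ℝ} (h : Conv k P a) {s : ℂ} (hs : a < s.re) :
    IntegrableOn (fun u : ℝ => (fe k P u : ℂ) * Complex.exp (-s * u)) (Ioi 0) := by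
  refine Integrable.mono' (h s.re hs) ?_ ?_
  · refine Measurable.aestronglyMeasurable ?_
    have := fe_meas k P
    fun_prop
  · refine Eventually.of_forall fun u => ?_
    rw [norm_mul, norm_cexp, Complex.norm_real, Real.norm_eq_abs]

lemma Mf_diff {k : ℕ} {P : Polynomial ℝ} {a : ℝ} (h : Conv k P a) {s : ℂ} (hs : a < s.re) :
    DifferentiableAt ℂ (Mf k P) s := by
  obtain ⟨δ, hδ⟩ : ∃ δ, δ = (s.re - a) / 3 := ⟨_, rfl⟩
  have hδ0 : 0 < δ := by rw [hδ]; linarith
  have hm := fe_meas k P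
  have hd := hasDerivAt_integral_of_dominated_loc_of_deriv_le (μ := volume.restrict (Ioi (0 : ℝ)))
    (F := fun (z : ℂ) (u : ℝ) => (fe k P u : ℂ) * Complex.exp (-z * u))
    (F' := fun (z : ℂ) (u : ℝ) => (fe k P u : ℂ) * (-u * Complex.exp (-z * u)))
    (x₀ := s) (s := Metric.ball s δ) (bound := fun u => 1 / δ * (|fe k P u| * Real.exp (-(s.re - 2 * δ) * u)))
    (Metric.ball_mem_nhds s hδ0) ?_ ?_ ?_ ?_ ?_ ?_
  · exact hd.2.differentiableAt
  · exact Eventually.of_forall fun z => Measurable.aestronglyMeasurable (by fun_prop)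
  · exact conv_int h hs
  · exact Measurable.aestronglyMeasurable (by fun_prop)
  · rw [ae_restrict_iff' measurableSet_Ioi]
    refine Eventually.of_forall fun u hu z hz => ?_
    have hu0 : (0 : ℝ) < u := mem_Ioi.1 hu
    rw [norm_mul, norm_mul, norm_cexp, Complex.norm_real, Real.norm_eq_abs, norm_neg, Complex.norm_real,
      Real.norm_eq_abs, abs_of_pos hu0]
    have h1 : s.re - δ ≤ z.re := by
      have h2 := Complex.abs_re_le_norm (z - s)
      rw [Metric.mem_ball, dist_eq_norm] at hz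
      rw [Complex.sub_re] at h2
      linarith [(abs_le.1 h2).1]
    have h3 : u * Real.exp (-z.re * u) ≤ 1 / δ * Real.exp (-(s.re - 2 * δ) * u) := by
      have h4 : δ * u ≤ Real.exp (δ * u) := by linarith [Real.add_one_le_exp (δ * u)]
      calc u * Real.exp (-z.re * u) ≤ (1 / δ * Real.exp (δ * u)) * Real.exp (-(s.re - δ) * u) := by
            apply mul_le_mul
            · rw [div_mul_eq_mul_div, le_div_iff₀ hδ0]
              linarith
            · apply Real.exp_le_exp.2
              nlinarith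
            · positivity
            · positivity
        _ = 1 / δ * Real.exp (-(s.re - 2 * δ) * u) := by
            rw [mul_assoc, ← Real.exp_add]
            ring_nf
    calc |fe k P u| * (u * Real.exp (-z.re * u)) ≤ |fe k P u| * (1 / δ * Real.exp (-(s.re - 2 * δ) * u)) := by gcongr
      _ = _ := by ring
  · refine (h (s.re - 2 * δ) ?_).const_mul _
    rw [hδ]
    linarith
  · refine Eventually.of_forall fun u z _ => ?_
    have h1 : HasDerivAt (fun z : ℂ => -z * (u : ℂ)) (-u) z := by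
      have := ((hasDerivAt_id z).neg).mul_const (u : ℂ)
      simpa using this
    have h2 := h1.cexp.const_mul ((fe k P u : ℝ) : ℂ)
    refine h2.congr_deriv ?_
    ring

/-- the entire numerator -/
def G2 (k : ℕ) (P : Polynomial ℝ) (s : ℂ) : ℂ :=
  (s - 1) ^ (P.natDegree + 1) * riemannZeta₁ s ^ k -
    s * P.sum (fun j p => (p : ℂ) * (j.factorial * (s - 1) ^ (k + (P.natDegree - j))))

lemma G2_diff (k : ℕ) (P : Polynomial ℝ) : Differentiable ℂ (G2 k P) := by
  unfold G2 Polynomial.sum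
  have := differentiable_riemannZeta₁
  fun_prop

lemma G2_eq (k : ℕ) (P : Polynomial ℝ) {s : ℂ} (hs0 : s ≠ 0) (hs1 : s ≠ 1) :
    G2 k P s = (s - 1) ^ (k + P.natDegree + 1) * s * Ef k P s := by
  have h1 : s - 1 ≠ 0 := sub_ne_zero.2 hs1
  unfold G2 Ef Rf
  rw [mul_sub]
  congr 1
  · have e : riemannZeta₁ s = (s - 1) * riemannZeta s := by
      rw [riemannZeta_eq_inv_sub_mul hs1]
      field_simp
    rw [e, mul_pow]
    field_simp
    ring
  · unfold Polynomial.sum
    rw [Finset.mul_sum, Finset.mul_sum]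
    apply Finset.sum_congr rfl
    intro j hj
    have hj1 : j ≤ P.natDegree := Polynomial.le_natDegree_of_mem_supp j hj
    obtain ⟨m, hm⟩ : ∃ m, P.natDegree = j + m := ⟨P.natDegree - j, by omega⟩
    simp only
    rw [hm, Nat.add_sub_cancel_left]
    field_simp
    ring

lemma half_open (a : ℝ) : IsOpen {s : ℂ | a < s.re} := isOpen_lt continuous_const Complex.continuous_re

lemma half_pre (a : ℝ) : IsPreconnected {s : ℂ | a < s.re} :=
  (convex_halfSpace_re_gt a).isPreconnected

theorem cont {k : ℕ} (hk : 1 ≤ k) {P : Polynomial ℝ} {θ C : ℝ} (hg : Good k P θ C) {a : ℝ} (ha : 0 ≤ a) (ha2 : a < 2)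
    (h : Conv k P a) {s : ℂ} (hs : a < s.re) (hs1 : s ≠ 1) : Mf k P s = Ef k P s := by
  have h1 : AnalyticOnNhd ℂ (fun z => (z - 1) ^ (k + P.natDegree + 1) * z * Mf k P z) {z : ℂ | a < z.re} := by
    apply DifferentiableOn.analyticOnNhd _ (half_open a)
    intro z hz
    have := Mf_diff h hz
    exact DifferentiableAt.differentiableWithinAt (by fun_prop)
  have h2 : AnalyticOnNhd ℂ (G2 k P) {z : ℂ | a < z.re} := by
    apply DifferentiableOn.analyticOnNhd _ (half_open a)
    exact (G2_diff k P).differentiableOn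
  have h3 : EqOn (fun z => (z - 1) ^ (k + P.natDegree + 1) * z * Mf k P z) (G2 k P) {z : ℂ | a < z.re} := by
    refine h1.eqOn_of_preconnected_of_eventuallyEq h2 (half_pre a) (z₀ := 2) (by simpa using ha2) ?_
    have h4 : ∀ᶠ z : ℂ in 𝓝 2, 1 < z.re :=
      (half_open 1).mem_nhds (by simp)
    filter_upwards [h4] with z hz
    have hz1 : z ≠ 1 := by
      intro h0
      rw [h0] at hz
      simp at hz
    have hz0 : z ≠ 0 := by
      intro h0
      rw [h0] at hz
      simp at hz
      linarith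
    rw [Mf_eq hk hg hz, G2_eq k P hz0 hz1]
  have hs0 : s ≠ 0 := by
    intro h0
    rw [h0] at hs
    simp at hs
    linarith
  have h5 := h3 hs
  simp only at h5
  rw [G2_eq k P hs0 hs1] at h5
  have h6 : (s - 1) ^ (k + P.natDegree + 1) * s ≠ 0 := mul_ne_zero (pow_ne_zero _ (sub_ne_zero.2 hs1)) hs0
  exact mul_left_cancel₀ h6 h5

/-- the continuation, without the removable singularity at `1` -/
def Hf (k : ℕ) (P : Polynomial ℝ) (s : ℂ) : ℂ := if s = 1 then Mf k P 1 else Ef k P s

theorem Hf_eq {k : ℕ} (hk : 1 ≤ k) {P : Polynomial ℝ} {θ C : ℝ} (hg : Good k P θ C) {a : ℝ} (ha : 0 ≤ a) (ha2 : a < 2)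
    (h : Conv k P a) {s : ℂ} (hs : a < s.re) : Hf k P s = Mf k P s := by
  unfold Hf
  split_ifs with h1
  · rw [h1]
  · rw [cont hk hg ha ha2 h hs h1]

lemma Hf_ne {k : ℕ} {P : Polynomial ℝ} {s : ℂ} (h : s ≠ 1) : Hf k P s = Ef k P s := by
  unfold Hf
  rw [if_neg h]

theorem Hf_diff {k : ℕ} (hk : 1 ≤ k) {P : Polynomial ℝ} {θ C : ℝ} (hg : Good k P θ C) {s : ℂ} (hs : s ≠ 0) :
    DifferentiableAt ℂ (Hf k P) s := by
  by_cases h1 : s = 1
  · subst h1
    have h2 : Hf k P =ᶠ[𝓝 1] Mf k P := by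
      filter_upwards [(half_open θ).mem_nhds (show (1 : ℂ) ∈ {s : ℂ | θ < s.re} by simpa using hg.2.1)] with z hz
      exact Hf_eq hk hg hg.1.le (by linarith [hg.2.1]) (conv_good hg) hz
    exact (Mf_diff (conv_good hg) (by simpa using hg.2.1)).congr_of_eventuallyEq h2
  · have h2 : Hf k P =ᶠ[𝓝 s] Ef k P := by
      filter_upwards [isOpen_ne.mem_nhds h1] with z hz
      exact Hf_ne hz
    refine DifferentiableAt.congr_of_eventuallyEq ?_ h2
    unfold Ef Rf Polynomial.sum
    have h3 := differentiableAt_riemannZeta h1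
    have h4 : s - 1 ≠ 0 := sub_ne_zero.2 h1
    refine ((h3.pow k).div differentiableAt_id hs).sub ?_
    apply DifferentiableAt.fun_sum
    intro j _
    refine DifferentiableAt.const_mul ?_ _
    refine (differentiableAt_const _).div ?_ (pow_ne_zero _ h4)
    fun_prop

end

end Pool.Agent.J4H77.PE
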