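import Pool.Agent.J4H77.PE.Pl
import Pool.Agent.H52R4.PZT1
import Pool.Agent.E8helper52.OR.Contour

/-!
# Growth of the continuation in vertical strips
-/

set_option autoImplicit false

open Filter Topology MeasureTheory Set

namespace Pool.Agent.J4H77.PE

noncomputable section

theorem Hf_growth (k : ℕ) (P : Polynomial ℝ) : ∃ C : ℝ, 0 ≤ C ∧ ∀ s : ℂ, -(1 / 2) ≤ s.re → s.re ≤ 2 → 1 ≤ |s.im| →
    ‖Hf k P s‖ ≤ C * s.im ^ (2 * k) := by
  obtain ⟨A, hA, h⟩ := Pool.Agent.H52R4.PZT1.zeta_strip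
  refine ⟨A ^ k + P.sum (fun j p => |p| * j.factorial), ?_, fun s h1 h2 h3 => ?_⟩
  · apply add_nonneg (by positivity)
    unfold Polynomial.sum
    exact Finset.sum_nonneg fun j _ => by positivity
  have hs1 : s ≠ 1 := by
    intro h0
    rw [h0] at h3
    simp at h3
    linarith
  have hn : 1 ≤ ‖s‖ := h3.trans (Complex.abs_im_le_norm s)
  have hn1 : 1 ≤ ‖s - 1‖ := by
    have := Complex.abs_im_le_norm (s - 1)
    rw [Complex.sub_im, Complex.one_im, sub_zero] at this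
    exact h3.trans this
  rw [Hf_ne hs1]
  unfold Ef
  have hy : 1 ≤ s.im ^ (2 * k) := by
    rw [pow_mul]
    apply one_le_pow₀
    rw [← sq_abs]
    nlinarith
  refine (norm_sub_le _ _).trans ?_
  rw [add_mul]
  apply add_le_add
  · rw [norm_div, norm_pow]
    calc ‖riemannZeta s‖ ^ k / ‖s‖ ≤ ‖riemannZeta s‖ ^ k := div_le_self (by positivity) hn
      _ ≤ (A * |s.im| ^ 2) ^ k := by gcongr; exact h s h1 h2 h3
      _ = A ^ k * s.im ^ (2 * k) := by rw [mul_pow, sq_abs, ← pow_mul]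
  · have h4 : ‖Rf P s‖ ≤ P.sum (fun j p => |p| * j.factorial) := by
      unfold Rf Polynomial.sum
      refine (norm_sum_le _ _).trans (Finset.sum_le_sum fun j _ => ?_)
      rw [norm_mul, norm_div, norm_pow, Complex.norm_real, Real.norm_eq_abs, Complex.norm_natCast]
      exact mul_le_mul_of_nonneg_left (div_le_self (by positivity) (one_le_pow₀ hn1)) (abs_nonneg _)
    have h5 : 0 ≤ P.sum (fun j p => |p| * (j.factorial : ℝ)) := le_trans (norm_nonneg _) h4
    nlinarith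

/-- polynomial growth against a Gaussian factor -/
lemma gauss_beat (m : ℕ) {ε : ℝ} (hε : 0 < ε) (y : ℝ) : y ^ (2 * m) * Real.exp (-ε * y ^ 2) ≤ m.factorial / ε ^ m := by
  have h := Real.pow_div_factorial_le_exp (ε * y ^ 2) (by positivity) m
  rw [div_le_iff₀ (by positivity)] at h
  rw [le_div_iff₀ (by positivity)]
  have h1 : Real.exp (-ε * y ^ 2) * Real.exp (ε * y ^ 2) = 1 := by
    rw [← Real.exp_add]
    simp
  calc y ^ (2 * m) * Real.exp (-ε * y ^ 2) * ε ^ m = (ε * y ^ 2) ^ m * Real.exp (-ε * y ^ 2) := by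
        rw [mul_pow, pow_mul]; ring
    _ ≤ (Real.exp (ε * y ^ 2) * m.factorial) * Real.exp (-ε * y ^ 2) := by gcongr
    _ = m.factorial * (Real.exp (-ε * y ^ 2) * Real.exp (ε * y ^ 2)) := by ring
    _ = m.factorial := by rw [h1, mul_one]

/-- the Gaussian factor -/
def gs (ε v : ℝ) (z : ℂ) : ℂ := Complex.exp (ε * z ^ 2 + z * v)

lemma gs_norm (ε v : ℝ) (z : ℂ) : ‖gs ε v z‖ = Real.exp (ε * (z.re ^ 2 - z.im ^ 2) + z.re * v) := by
  unfold gs
  rw [Complex.norm_exp]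
  congr 1
  simp [pow_two]

/-- the bound for the product with the continuation -/
lemma Hgs_bound (k : ℕ) (P : Polynomial ℝ) {ε : ℝ} (hε : 0 < ε) (v : ℝ) : ∃ C : ℝ, 0 ≤ C ∧
    ∀ s : ℂ, -(1 / 2) ≤ s.re → s.re ≤ 2 → 1 ≤ |s.im| → ‖Hf k P s * gs ε v s‖ ≤ C / s.im ^ 2 := by
  obtain ⟨C, hC, h⟩ := Hf_growth k P
  refine ⟨C * Real.exp (4 * ε + 2 * |v|) * ((k + 1).factorial / ε ^ (k + 1)), by positivity, fun s h1 h2 h3 => ?_⟩
  have hy : 0 < s.im ^ 2 := by
    have : 1 ≤ s.im ^ 2 := by rw [← sq_abs]; nlinarith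
    linarith
  rw [norm_mul, gs_norm, le_div_iff₀ hy]
  have h4 := gauss_beat (k + 1) hε s.im
  have h5 : Real.exp (ε * (s.re ^ 2 - s.im ^ 2) + s.re * v) ≤ Real.exp (4 * ε + 2 * |v|) * Real.exp (-ε * s.im ^ 2) := by
    rw [← Real.exp_add]
    apply Real.exp_le_exp.2
    have h6 : s.re * v ≤ 2 * |v| := by
      calc s.re * v ≤ |s.re * v| := le_abs_self _
        _ = |s.re| * |v| := abs_mul _ _
        _ ≤ 2 * |v| := by
          apply mul_le_mul_of_nonneg_right _ (abs_nonneg v)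
          rw [abs_le]
          constructor <;> linarith
    have h7 : s.re ^ 2 ≤ 4 := by nlinarith
    nlinarith
  calc ‖Hf k P s‖ * Real.exp (ε * (s.re ^ 2 - s.im ^ 2) + s.re * v) * s.im ^ 2 ≤
      (C * s.im ^ (2 * k)) * (Real.exp (4 * ε + 2 * |v|) * Real.exp (-ε * s.im ^ 2)) * s.im ^ 2 := by
        have := h s h1 h2 h3
        have h8 : 0 ≤ C * s.im ^ (2 * k) := le_trans (norm_nonneg _) this
        gcongr
    _ = C * Real.exp (4 * ε + 2 * |v|) * (s.im ^ (2 * (k + 1)) * Real.exp (-ε * s.im ^ 2)) := by ring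
    _ ≤ _ := by gcongr

/-- the line integrals of the product do not depend on the line -/
theorem shift {k : ℕ} (hk : 1 ≤ k) {P : Polynomial ℝ} {θ C : ℝ} (hg : Good k P θ C) {ε : ℝ} (hε : 0 < ε) (v : ℝ)
    {a b : ℝ} (ha : 0 < a) (hab : a ≤ b) (hb : b ≤ 2) :
    ∫ y : ℝ, Hf k P (a + y * Complex.I) * gs ε v (a + y * Complex.I) =
    ∫ y : ℝ, Hf k P (b + y * Complex.I) * gs ε v (b + y * Complex.I) := by
  obtain ⟨C', hC', h⟩ := Hgs_bound k P hε v
  refine Pool.Agent.E8helper52.OR.strip_shift (f := fun z => Hf k P z * gs ε v z) hab ?_ hC' (le_refl 1) ?_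
  · intro z hz _
    have hz0 : z ≠ 0 := by
      intro h0
      rw [h0] at hz
      simp at hz
      linarith
    have h1 := Hf_diff hk hg hz0
    unfold gs
    fun_prop
  · intro z hz1 hz2 hz3
    exact h z (by linarith) (by linarith) hz3

end

end Pool.Agent.J4H77.PE
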