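import Pool.Agent.J4H77.PE.Beta
import Pool.Agent.H345R2.Chi

/-!
# The lower bound of the exponent of the mean square
-/

set_option autoImplicit false

open Filter Topology MeasureTheory Set

namespace Pool.Agent.J4H77.PE

noncomputable section

/-- the Gaussian factor of width `T` -/
def Gt (T : ℝ) (z : ℂ) : ℂ := Complex.exp ((z / T) ^ 2)

lemma Gt_norm {T : ℝ} (hT : 0 < T) (z : ℂ) : ‖Gt T z‖ = Real.exp ((z.re ^ 2 - z.im ^ 2) / T ^ 2) := by
  unfold Gt
  rw [Complex.norm_exp]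
  congr 1
  rw [div_pow, ← Complex.ofReal_pow, Complex.div_ofReal_re]
  simp [pow_two]

lemma Gt_shift {T σ : ℝ} (hT : 1 ≤ T) (h0 : 0 ≤ σ) (h2 : σ ≤ 2) :
    ∫ t : ℝ, Zf (σ + t * Complex.I) * Gt T (σ + t * Complex.I) =
    ∫ t : ℝ, Zf ((2 : ℝ) + t * Complex.I) * Gt T ((2 : ℝ) + t * Complex.I) := by
  obtain ⟨C, hC, hg⟩ := Zf_growth 1
  have hT0 : 0 < T := by linarith
  refine Pool.Agent.E8helper52.OR.strip_shift (f := fun z => Zf z * Gt T z) (a := σ) (b := 2)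
    (C := C * Real.exp 4 * (2 * T ^ 4)) (T := 1) h2 ?_ (by positivity) le_rfl ?_
  · intro z h3 h4
    have := Zf_diff (s := z) (by linarith)
    unfold Gt
    fun_prop
  · intro z h3 h4 h5
    have hy : 0 < z.im ^ 2 := by rw [← sq_abs]; positivity
    rw [le_div_iff₀ hy, norm_mul, Gt_norm hT0]
    have h6 := hg z (by linarith) h4 h5
    simp only [pow_one, mul_one] at h6
    have h7 : Real.exp ((z.re ^ 2 - z.im ^ 2) / T ^ 2) ≤ Real.exp 4 * Real.exp (-(1 / T ^ 2) * z.im ^ 2) := by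
      rw [← Real.exp_add]
      apply Real.exp_le_exp.2
      have h8 : z.re ^ 2 / T ^ 2 ≤ 4 := by
        rw [div_le_iff₀ (by positivity)]
        nlinarith [one_le_pow₀ (n := 2) hT]
      calc (z.re ^ 2 - z.im ^ 2) / T ^ 2 = z.re ^ 2 / T ^ 2 + -(1 / T ^ 2) * z.im ^ 2 := by ring
        _ ≤ _ := by linarith
    have h8 := gauss_beat 2 (ε := 1 / T ^ 2) (by positivity) z.im
    have h9 : ((2 : ℕ).factorial : ℝ) / (1 / T ^ 2) ^ 2 = 2 * T ^ 4 := by
      simp only [Nat.factorial]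
      field_simp
      norm_num
    rw [h9] at h8
    calc ‖Zf z‖ * Real.exp ((z.re ^ 2 - z.im ^ 2) / T ^ 2) * z.im ^ 2 ≤
        (C * z.im ^ 2) * (Real.exp 4 * Real.exp (-(1 / T ^ 2) * z.im ^ 2)) * z.im ^ 2 := by
          have := norm_nonneg (Zf z)
          gcongr
      _ = C * Real.exp 4 * (z.im ^ (2 * 2) * Real.exp (-(1 / T ^ 2) * z.im ^ 2)) := by ring
      _ ≤ _ := by gcongr

lemma Gt_int {T : ℝ} (hT : 0 < T) (σ : ℝ) : Integrable (fun t : ℝ => Gt T (σ + t * Complex.I)) := by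
  have h := (integrable_exp_neg_mul_sq (b := 1 / T ^ 2) (by positivity)).const_mul (Real.exp (σ ^ 2 / T ^ 2))
  refine Integrable.mono' h ?_ ?_
  · unfold Gt
    exact Continuous.aestronglyMeasurable (by fun_prop)
  · refine Eventually.of_forall fun t => ?_
    rw [Gt_norm hT, ← Real.exp_add]
    apply le_of_eq
    congr 1
    simp
    ring

lemma gauss_T {T : ℝ} (hT : 0 < T) : ∫ t : ℝ, Real.exp (-(1 / T ^ 2) * t ^ 2) = Real.sqrt Real.pi * T := by
  rw [integral_gaussian]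
  rw [div_div_eq_mul_div, div_one, Real.sqrt_mul Real.pi_pos.le, Real.sqrt_sq hT.le]

lemma Gt_val {T : ℝ} (hT : 0 < T) (σ : ℝ) : ∫ t : ℝ, Gt T (σ + t * Complex.I) = ((Real.sqrt Real.pi * T : ℝ) : ℂ) := by
  have h := quad_line (σ / T) 0
  have e : ∀ t : ℝ, Gt T (σ + t * Complex.I) = (fun y : ℝ => Complex.exp ((((σ / T : ℝ) : ℂ) + y * Complex.I) ^ 2 -
      (((σ / T : ℝ) : ℂ) + y * Complex.I) * (0 : ℝ))) (t * T⁻¹) := by
    intro t
    simp only
    unfold Gt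
    congr 1
    push_cast
    ring
  rw [integral_congr_ae (Eventually.of_forall e), MeasureTheory.Measure.integral_comp_mul_right
    (g := fun y : ℝ => Complex.exp ((((σ / T : ℝ) : ℂ) + y * Complex.I) ^ 2 - (((σ / T : ℝ) : ℂ) + y * Complex.I) * (0 : ℝ))), h,
    inv_inv, abs_of_pos hT]
  simp
  ring

/-- lower bound of the mean value of first order -/
theorem mean_low : ∃ c T₀ : ℝ, 0 < c ∧ 1 ≤ T₀ ∧ ∀ T : ℝ, T₀ ≤ T → ∀ σ : ℝ, 0 ≤ σ → σ ≤ 2 →
    c * T ≤ ‖∫ t : ℝ, Zf (σ + t * Complex.I) * Gt T (σ + t * Complex.I)‖ := by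
  -- the difference `Zf - 1` on the line `2`
  have hdiff : ∀ t : ℝ, ‖Zf ((2 : ℝ) + t * Complex.I) - 1‖ ≤ 3 / 4 + 300 * (1 + t ^ 2)⁻¹ := by
    intro t
    obtain ⟨z, hz⟩ : ∃ z : ℂ, z = 2 + (t : ℂ) * Complex.I := ⟨_, rfl⟩
    have h1 := H345.Chi.zeta_two_line t
    rw [← hz] at h1
    have e : ((2 : ℝ) + t * Complex.I : ℂ) = z := by rw [hz]; push_cast; ring
    rw [e]
    have hre : z.re = 2 := by rw [hz]; simp
    have him : z.im = t := by rw [hz]; simp
    have hz1 : z ≠ 1 := by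
      intro h
      rw [h] at hre
      simp at hre
    have hz2 : z + 1 ≠ 0 := by
      intro h
      have : (z + 1).re = 0 := by rw [h]; simp
      rw [Complex.add_re, hre] at this
      simp at this
      norm_num at this
    have h2 : Zf z - 1 = (riemannZeta z - 1) - 2 * riemannZeta z / (z + 1) := by
      unfold Zf
      have h3 : riemannZeta₁ z = (z - 1) * riemannZeta z := by
        rw [riemannZeta_eq_inv_sub_mul hz1]
        have : z - 1 ≠ 0 := sub_ne_zero.2 hz1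
        field_simp
      rw [h3]
      field_simp
      ring
    have h3 : ‖riemannZeta z‖ ≤ 2 := by
      have := norm_add_le (riemannZeta z - 1) 1
      rw [sub_add_cancel, norm_one] at this
      linarith
    have h4 : ‖z + 1‖ ^ 2 = 9 + t ^ 2 := by
      rw [Complex.sq_norm, Complex.normSq_apply]
      simp [hre, him]
      ring
    have h5 : 0 < ‖z + 1‖ := norm_pos_iff.2 hz2
    have h6 : 4 / ‖z + 1‖ ≤ 1 / 12 + 48 * (1 + t ^ 2)⁻¹ := by
      have h7 : 4 / ‖z + 1‖ ≤ 1 / 12 + 48 / ‖z + 1‖ ^ 2 := by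
        have h8 : 0 ≤ (1 / ‖z + 1‖ * 48 - 2) ^ 2 := sq_nonneg _
        have e1 : (1 / ‖z + 1‖ * 48 - 2) ^ 2 = 48 * (48 / ‖z + 1‖ ^ 2 - 4 / ‖z + 1‖ + 1 / 12) := by
          field_simp
          ring
        rw [e1] at h8
        linarith
      have h9 : 48 / ‖z + 1‖ ^ 2 ≤ 48 * (1 + t ^ 2)⁻¹ := by
        rw [h4, ← div_eq_mul_inv]
        apply div_le_div_of_nonneg_left (by norm_num) (by positivity) (by linarith)
      linarith
    rw [h2]
    calc ‖(riemannZeta z - 1) - 2 * riemannZeta z / (z + 1)‖ ≤ ‖riemannZeta z - 1‖ + ‖2 * riemannZeta z / (z + 1)‖ := norm_sub_le _ _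
      _ ≤ 2 / 3 + 4 / ‖z + 1‖ := by
          apply add_le_add h1
          rw [norm_div, norm_mul, Complex.norm_ofNat]
          gcongr
          linarith
      _ ≤ _ := by
          have : 0 ≤ (1 + t ^ 2)⁻¹ := by positivity
          linarith
  refine ⟨1 / 20, 12000, by norm_num, by norm_num, fun T hT σ h0 h2 => ?_⟩
  have hT0 : 0 < T := by linarith
  rw [Gt_shift (by linarith) h0 h2]
  have hG := Gt_int hT0 2
  have hc := Zf_cont (σ := 2) (by norm_num)
  have hGc : Continuous (fun t : ℝ => Gt T ((2 : ℝ) + t * Complex.I)) := by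
    unfold Gt
    fun_prop
  have hn : ∀ t : ℝ, ‖Gt T ((2 : ℝ) + t * Complex.I)‖ ≤ 101 / 100 * Real.exp (-(1 / T ^ 2) * t ^ 2) := by
    intro t
    rw [Gt_norm hT0]
    have h3 : Real.exp ((((2 : ℝ) + t * Complex.I : ℂ).re ^ 2 - ((2 : ℝ) + t * Complex.I : ℂ).im ^ 2) / T ^ 2) =
        Real.exp (4 / T ^ 2) * Real.exp (-(1 / T ^ 2) * t ^ 2) := by
      rw [← Real.exp_add]
      congr 1
      simp
      ring
    rw [h3]
    apply mul_le_mul_of_nonneg_right _ (Real.exp_pos _).le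
    have h4 : 4 / T ^ 2 ≤ 1 / 1000 := by
      rw [div_le_div_iff₀ (by positivity) (by norm_num)]
      nlinarith
    have h5 := Real.exp_bound_div_one_sub_of_interval (x := 1 / 1000) (by norm_num) (by norm_num)
    calc Real.exp (4 / T ^ 2) ≤ Real.exp (1 / 1000) := Real.exp_le_exp.2 h4
      _ ≤ 1 / (1 - 1 / 1000) := h5
      _ ≤ _ := by norm_num
  have hcmp : ∀ t : ℝ, ‖(Zf ((2 : ℝ) + t * Complex.I) - 1) * Gt T ((2 : ℝ) + t * Complex.I)‖ ≤
      101 / 100 * (3 / 4) * Real.exp (-(1 / T ^ 2) * t ^ 2) + 303 * (1 + t ^ 2)⁻¹ := by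
    intro t
    rw [norm_mul]
    have h3 : Real.exp (-(1 / T ^ 2) * t ^ 2) ≤ 1 := by
      rw [Real.exp_le_one_iff]
      have : 0 ≤ 1 / T ^ 2 * t ^ 2 := by positivity
      linarith
    have h4 : 0 ≤ (1 + t ^ 2)⁻¹ := by positivity
    calc ‖Zf ((2 : ℝ) + t * Complex.I) - 1‖ * ‖Gt T ((2 : ℝ) + t * Complex.I)‖ ≤
        (3 / 4 + 300 * (1 + t ^ 2)⁻¹) * (101 / 100 * Real.exp (-(1 / T ^ 2) * t ^ 2)) :=
          mul_le_mul (hdiff t) (hn t) (norm_nonneg _) (by positivity)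
      _ = 101 / 100 * (3 / 4) * Real.exp (-(1 / T ^ 2) * t ^ 2) + 303 * (1 + t ^ 2)⁻¹ * Real.exp (-(1 / T ^ 2) * t ^ 2) := by ring
      _ ≤ _ := by
          have : 303 * (1 + t ^ 2)⁻¹ * Real.exp (-(1 / T ^ 2) * t ^ 2) ≤ 303 * (1 + t ^ 2)⁻¹ * 1 := by gcongr
          linarith
  have hgi := integrable_exp_neg_mul_sq (b := 1 / T ^ 2) (by positivity)
  have hbi : Integrable (fun t : ℝ => 101 / 100 * (3 / 4) * Real.exp (-(1 / T ^ 2) * t ^ 2) + 303 * (1 + t ^ 2)⁻¹) :=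
    (hgi.const_mul _).add (integrable_inv_one_add_sq.const_mul _)
  have hdi : Integrable (fun t : ℝ => (Zf ((2 : ℝ) + t * Complex.I) - 1) * Gt T ((2 : ℝ) + t * Complex.I)) := by
    refine Integrable.mono' hbi ?_ (Eventually.of_forall hcmp)
    exact Continuous.aestronglyMeasurable (by fun_prop)
  have e1 : ∫ t : ℝ, Zf ((2 : ℝ) + t * Complex.I) * Gt T ((2 : ℝ) + t * Complex.I) =
      ((Real.sqrt Real.pi * T : ℝ) : ℂ) + ∫ t : ℝ, (Zf ((2 : ℝ) + t * Complex.I) - 1) * Gt T ((2 : ℝ) + t * Complex.I) := by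
    rw [← Gt_val hT0 2, ← integral_add hG hdi]
    apply integral_congr_ae
    refine Eventually.of_forall fun t => ?_
    simp only
    ring
  have h5 : ‖∫ t : ℝ, (Zf ((2 : ℝ) + t * Complex.I) - 1) * Gt T ((2 : ℝ) + t * Complex.I)‖ ≤
      101 / 100 * (3 / 4) * (Real.sqrt Real.pi * T) + 303 * Real.pi := by
    refine (norm_integral_le_of_norm_le hbi (Eventually.of_forall hcmp)).trans (le_of_eq ?_)
    rw [integral_add (hgi.const_mul _) (integrable_inv_one_add_sq.const_mul _), integral_const_mul, integral_const_mul,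
      gauss_T hT0, integral_univ_inv_one_add_sq]
  have h6 : ‖((Real.sqrt Real.pi * T : ℝ) : ℂ)‖ = Real.sqrt Real.pi * T := by
    rw [Complex.norm_real, Real.norm_of_nonneg (by positivity)]
  have h7 : 1 ≤ Real.sqrt Real.pi := by
    rw [Real.one_le_sqrt]
    linarith [Real.pi_gt_three]
  have h8 := norm_sub_norm_le ((Real.sqrt Real.pi * T : ℝ) : ℂ)
    (-∫ t : ℝ, (Zf ((2 : ℝ) + t * Complex.I) - 1) * Gt T ((2 : ℝ) + t * Complex.I))
  rw [norm_neg, sub_neg_eq_add, ← e1, h6] at h8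
  have h9 := Real.pi_lt_d2
  nlinarith

end

end Pool.Agent.J4H77.PE
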