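import Pool.Agent.J4H77.PE.Low

/-!
# The lower bound of the exponent of the mean square, second part
-/

set_option autoImplicit false

open Filter Topology MeasureTheory Set
open scoped ComplexConjugate

namespace Pool.Agent.J4H77.PE

noncomputable section

lemma Zf_eq {s : ℂ} (hs1 : s ≠ 1) : Zf s = (s - 1) * riemannZeta s / (s + 1) := by
  unfold Zf
  have h3 : riemannZeta₁ s = (s - 1) * riemannZeta s := by
    rw [riemannZeta_eq_inv_sub_mul hs1]
    have : s - 1 ≠ 0 := sub_ne_zero.2 hs1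
    field_simp
  rw [h3]

lemma Zf_conj {s : ℂ} (hs1 : s ≠ 1) : ‖Zf (conj s)‖ = ‖Zf s‖ := by
  have h1 : conj s ≠ 1 := by
    intro h
    apply hs1
    have := congrArg conj h
    simpa using this
  rw [Zf_eq hs1, Zf_eq h1, riemannZeta_conj]
  have e1 : conj s - 1 = conj (s - 1) := by simp
  have e2 : conj s + 1 = conj (s + 1) := by simp
  rw [e1, e2, ← map_mul, ← map_div₀, RCLike.norm_conj]

lemma ne_one_of_im {s : ℂ} (h : 1 ≤ |s.im|) : s ≠ 1 := by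
  intro h0
  rw [h0] at h
  simp at h
  linarith

/-- the functional equation: the size on the left in terms of the size on the right -/
lemma fe_low : ∃ K : ℝ, 0 < K ∧ ∀ σ : ℝ, 0 < σ → σ < 1 / 2 → ∀ t : ℝ, 1 ≤ |t| →
    ‖Zf ((1 - σ : ℝ) + t * Complex.I)‖ ≤ K * |t| ^ (-(1 / 2 - σ)) * ‖Zf (σ + t * Complex.I)‖ := by
  obtain ⟨K, hK, hX⟩ := H345.Chi.XX_size
  refine ⟨3 * Real.exp K, by positivity, fun σ h0 h1 => ?_⟩
  have key : ∀ t : ℝ, 1 ≤ t → ‖Zf ((1 - σ : ℝ) + t * Complex.I)‖ ≤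
      3 * Real.exp K * |t| ^ (-(1 / 2 - σ)) * ‖Zf (σ + t * Complex.I)‖ := by
    intro t ht
    have ht0 : 0 < t := by linarith
    have hat : |t| = t := abs_of_pos ht0
    obtain ⟨s, hs⟩ : ∃ s : ℂ, s = ((1 - σ : ℝ) : ℂ) + t * Complex.I := ⟨_, rfl⟩
    have hre : s.re = 1 - σ := by rw [hs]; simp
    have him : s.im = t := by rw [hs]; simp
    have hs1 : s ≠ 1 := ne_one_of_im (by rw [him, hat]; exact ht)
    have hfe := H345.zeta_fe s (by
      intro n h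
      have := congrArg Complex.im h
      rw [him] at this
      simp at this
      linarith) hs1
    have h2 := (hX s (by rw [hre]; linarith) (by rw [hre]; linarith) (by rw [him]; exact ht)).1
    rw [hre, him] at h2
    have h3 : 0 < t ^ (1 / 2 - σ) := Real.rpow_pos_of_pos ht0 _
    have h4 : t ^ (-(1 / 2 - σ)) = (t ^ (1 / 2 - σ))⁻¹ := Real.rpow_neg ht0.le _
    have h5 : ‖riemannZeta s‖ ≤ Real.exp K * t ^ (-(1 / 2 - σ)) * ‖riemannZeta (1 - s)‖ := by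
      rw [hfe, norm_mul, h4]
      have e1 : 1 - σ - 1 / 2 = 1 / 2 - σ := by ring
      rw [e1] at h2
      have e2 : Real.exp K * (t ^ (1 / 2 - σ))⁻¹ * (Real.exp (-K) * t ^ (1 / 2 - σ)) = 1 := by
        have : Real.exp K * Real.exp (-K) = 1 := by rw [← Real.exp_add, add_neg_cancel, Real.exp_zero]
        field_simp
        exact this
      calc ‖riemannZeta s‖ = Real.exp K * (t ^ (1 / 2 - σ))⁻¹ * ((Real.exp (-K) * t ^ (1 / 2 - σ)) * ‖riemannZeta s‖) := by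
            rw [← mul_assoc, e2, one_mul]
        _ ≤ _ := by gcongr
    have h6 : 1 - s = conj ((σ : ℂ) + t * Complex.I) := by
      rw [hs]
      simp
      ring
    have h7 : ‖riemannZeta (1 - s)‖ ≤ 3 * ‖Zf (σ + t * Complex.I)‖ := by
      rw [h6, riemannZeta_conj, RCLike.norm_conj]
      exact le_Zf (by simp [hat, ht])
    rw [← hs, hat]
    calc ‖Zf s‖ ≤ ‖riemannZeta s‖ := Zf_le (by rw [hre]; linarith) hs1
      _ ≤ Real.exp K * t ^ (-(1 / 2 - σ)) * ‖riemannZeta (1 - s)‖ := h5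
      _ ≤ Real.exp K * t ^ (-(1 / 2 - σ)) * (3 * ‖Zf (σ + t * Complex.I)‖) := by gcongr
      _ = _ := by ring
  intro t ht
  rcases le_or_gt 0 t with h | h
  · exact key t (by rwa [abs_of_nonneg h] at ht)
  · have h2 := key (-t) (by rwa [abs_of_neg h] at ht)
    have e1 : ((1 - σ : ℝ) : ℂ) + (-t : ℝ) * Complex.I = conj (((1 - σ : ℝ) : ℂ) + t * Complex.I) := by
      simp
    have e2 : (σ : ℂ) + (-t : ℝ) * Complex.I = conj ((σ : ℂ) + t * Complex.I) := by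
      simp
    rw [e1, e2, Zf_conj (ne_one_of_im (by simpa using ht)), Zf_conj (ne_one_of_im (by simpa using ht)), abs_neg] at h2
    exact h2

lemma pow_split {m : ℕ} (hm : 1 ≤ m) {x l : ℝ} (hx : 0 ≤ x) (hl : 0 < l) : x ≤ l + (1 / l) ^ (m - 1) * x ^ m := by
  rcases le_or_gt x l with h | h
  · have : 0 ≤ (1 / l) ^ (m - 1) * x ^ m := by positivity
    linarith
  · have h1 : 1 ≤ (x / l) ^ (m - 1) := one_le_pow₀ ((one_le_div hl).2 h.le)
    have h2 : (1 / l) ^ (m - 1) * x ^ m = x * (x / l) ^ (m - 1) := by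
      obtain ⟨r, rfl⟩ : ∃ r, m = r + 1 := ⟨m - 1, by omega⟩
      rw [Nat.add_sub_cancel, div_pow, div_pow, pow_succ, one_pow]
      ring
    rw [h2]
    nlinarith

lemma pow_gauss {x δ : ℝ} (hx : 0 ≤ x) (h0 : 0 ≤ δ) (h1 : δ ≤ 1) : x ^ (1 - δ) * Real.exp (-x ^ 2) ≤ 1 := by
  have h2 : x ^ (1 - δ) ≤ 1 + x ^ 2 := by
    rcases le_or_gt x 1 with h | h
    · have := Real.rpow_le_one hx h (z := 1 - δ) (by linarith)
      nlinarith [sq_nonneg x]
    · have h3 : x ^ (1 - δ) ≤ x ^ (1 : ℝ) := Real.rpow_le_rpow_of_exponent_le h.le (by linarith)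
      rw [Real.rpow_one] at h3
      nlinarith [sq_nonneg (x - 1)]
  have h3 : 1 + x ^ 2 ≤ Real.exp (x ^ 2) := by linarith [Real.add_one_le_exp (x ^ 2)]
  calc x ^ (1 - δ) * Real.exp (-x ^ 2) ≤ Real.exp (x ^ 2) * Real.exp (-x ^ 2) := by
        apply mul_le_mul_of_nonneg_right (h2.trans h3) (Real.exp_pos _).le
    _ = 1 := by rw [← Real.exp_add, add_neg_cancel, Real.exp_zero]

/-- the lower bound of the abscissa of the mean value of order `m` -/
theorem low_exp {m : ℕ} (hm : 1 ≤ m) {σ : ℝ} (h0 : 0 < σ) (h1 : σ < 1 / 2) (hI : Int m σ) : m * (1 / 2 - σ) ≤ 1 := by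
  by_contra hcon
  push Not at hcon
  obtain ⟨δ, hδ⟩ : ∃ δ, δ = min (m * (1 / 2 - σ) - 1) (1 / 2) := ⟨_, rfl⟩
  have hδ0 : 0 < δ := by rw [hδ]; exact lt_min (by linarith) (by norm_num)
  have hδ1 : δ ≤ 1 / 2 := by rw [hδ]; exact min_le_right _ _
  have hδ2 : 1 + δ ≤ m * (1 / 2 - σ) := by
    have : δ ≤ m * (1 / 2 - σ) - 1 := by rw [hδ]; exact min_le_left _ _
    linarith
  obtain ⟨K, hK, hfe⟩ := fe_low
  obtain ⟨c, T₀, hc, hT₀, hmean⟩ := mean_low
  have hcont := Zf_cont (σ := 1 - σ) (by linarith)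
  obtain ⟨K₁, hK₁⟩ := (isCompact_Icc (a := (-1 : ℝ)) (b := 1)).exists_bound_of_continuousOn
    (f := fun t : ℝ => ‖Zf ((1 - σ : ℝ) + t * Complex.I)‖ ^ m) (hcont.norm.pow m).continuousOn
  have hK₁0 : 0 ≤ K₁ := (norm_nonneg _).trans (hK₁ 0 ⟨by norm_num, by norm_num⟩)
  obtain ⟨G, hG⟩ : ∃ G, G = ∫ t : ℝ, ‖Zf (σ + t * Complex.I)‖ ^ m / (1 + t ^ 2) := ⟨_, rfl⟩
  -- the majorant
  have hmaj : ∀ T : ℝ, 1 ≤ T → ∀ t : ℝ, ‖Zf ((1 - σ : ℝ) + t * Complex.I)‖ ^ m * Real.exp (-(1 / T ^ 2) * t ^ 2) ≤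
      2 * K ^ m * T ^ (1 - δ) * (‖Zf (σ + t * Complex.I)‖ ^ m / (1 + t ^ 2)) + 2 * K₁ * (1 + t ^ 2)⁻¹ := by
    intro T hT t
    have hT0 : 0 < T := by linarith
    have hexp : Real.exp (-(1 / T ^ 2) * t ^ 2) ≤ 1 := by
      rw [Real.exp_le_one_iff]
      have : 0 ≤ 1 / T ^ 2 * t ^ 2 := by positivity
      linarith
    by_cases ht : 1 ≤ |t|
    · have ht0 : 0 < |t| := by linarith
      have h2 := hfe σ h0 h1 t ht
      have h3 : ‖Zf ((1 - σ : ℝ) + t * Complex.I)‖ ^ m ≤ K ^ m * |t| ^ (-(1 + δ)) * ‖Zf (σ + t * Complex.I)‖ ^ m := by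
        calc ‖Zf ((1 - σ : ℝ) + t * Complex.I)‖ ^ m ≤ (K * |t| ^ (-(1 / 2 - σ)) * ‖Zf (σ + t * Complex.I)‖) ^ m := by gcongr
          _ = K ^ m * |t| ^ (-(m * (1 / 2 - σ))) * ‖Zf (σ + t * Complex.I)‖ ^ m := by
              rw [mul_pow, mul_pow, ← Real.rpow_natCast (|t| ^ _), ← Real.rpow_mul ht0.le]
              congr 3
              ring
          _ ≤ _ := by
              have : |t| ^ (-(m * (1 / 2 - σ))) ≤ |t| ^ (-(1 + δ)) := Real.rpow_le_rpow_of_exponent_le ht (by linarith)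
              gcongr
      have h4 : |t| ^ (1 - δ) * Real.exp (-(1 / T ^ 2) * t ^ 2) ≤ T ^ (1 - δ) := by
        have h5 := pow_gauss (x := |t| / T) (by positivity) hδ0.le (by linarith)
        rw [Real.div_rpow (abs_nonneg t) hT0.le, div_pow, sq_abs] at h5
        have h6 : 0 < T ^ (1 - δ) := Real.rpow_pos_of_pos hT0 _
        have e : -(1 / T ^ 2) * t ^ 2 = -(t ^ 2 / T ^ 2) := by ring
        rw [e]
        calc |t| ^ (1 - δ) * Real.exp (-(t ^ 2 / T ^ 2)) =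
            T ^ (1 - δ) * (|t| ^ (1 - δ) / T ^ (1 - δ) * Real.exp (-(t ^ 2 / T ^ 2))) := by field_simp
          _ ≤ T ^ (1 - δ) * 1 := by gcongr
          _ = _ := mul_one _
      have h5 : |t| ^ (-(1 + δ)) * (1 + t ^ 2) ≤ 2 * |t| ^ (1 - δ) := by
        have h6 : 1 + t ^ 2 ≤ 2 * |t| ^ (2 : ℝ) := by
          rw [Real.rpow_two, sq_abs]
          have : 1 ≤ t ^ 2 := by rw [← sq_abs]; nlinarith
          linarith
        calc |t| ^ (-(1 + δ)) * (1 + t ^ 2) ≤ |t| ^ (-(1 + δ)) * (2 * |t| ^ (2 : ℝ)) := by gcongr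
          _ = 2 * (|t| ^ (-(1 + δ)) * |t| ^ (2 : ℝ)) := by ring
          _ = 2 * |t| ^ (1 - δ) := by
              rw [← Real.rpow_add ht0]
              congr 2
              ring
      have h7 : 0 ≤ 2 * K₁ * (1 + t ^ 2)⁻¹ := by positivity
      have h8 : (0 : ℝ) < 1 + t ^ 2 := by positivity
      calc ‖Zf ((1 - σ : ℝ) + t * Complex.I)‖ ^ m * Real.exp (-(1 / T ^ 2) * t ^ 2) ≤
          (K ^ m * |t| ^ (-(1 + δ)) * ‖Zf (σ + t * Complex.I)‖ ^ m) * Real.exp (-(1 / T ^ 2) * t ^ 2) := by gcongr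
        _ = K ^ m * (|t| ^ (-(1 + δ)) * (1 + t ^ 2)) * Real.exp (-(1 / T ^ 2) * t ^ 2) * (‖Zf (σ + t * Complex.I)‖ ^ m / (1 + t ^ 2)) := by
            field_simp
        _ ≤ K ^ m * (2 * |t| ^ (1 - δ)) * Real.exp (-(1 / T ^ 2) * t ^ 2) * (‖Zf (σ + t * Complex.I)‖ ^ m / (1 + t ^ 2)) := by
            gcongr
        _ = 2 * K ^ m * (|t| ^ (1 - δ) * Real.exp (-(1 / T ^ 2) * t ^ 2)) * (‖Zf (σ + t * Complex.I)‖ ^ m / (1 + t ^ 2)) := by
            ring
        _ ≤ 2 * K ^ m * T ^ (1 - δ) * (‖Zf (σ + t * Complex.I)‖ ^ m / (1 + t ^ 2)) := by gcongr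
        _ ≤ _ := by linarith
    · push Not at ht
      have h2 := hK₁ t ⟨by linarith [(abs_lt.1 ht).1], by linarith [(abs_lt.1 ht).2]⟩
      rw [Real.norm_eq_abs, abs_of_nonneg (by positivity)] at h2
      have h3 : 1 / 2 ≤ (1 + t ^ 2)⁻¹ := by
        rw [one_div]
        apply inv_anti₀ (by positivity)
        have : t ^ 2 < 1 := by rw [← sq_abs]; nlinarith [abs_nonneg t]
        linarith
      have h4 : 0 ≤ 2 * K ^ m * T ^ (1 - δ) * (‖Zf (σ + t * Complex.I)‖ ^ m / (1 + t ^ 2)) := by positivity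
      calc ‖Zf ((1 - σ : ℝ) + t * Complex.I)‖ ^ m * Real.exp (-(1 / T ^ 2) * t ^ 2) ≤ K₁ * 1 := by gcongr
        _ ≤ 2 * K₁ * (1 + t ^ 2)⁻¹ := by nlinarith
        _ ≤ _ := by linarith
  have hmi : ∀ T : ℝ, 1 ≤ T → Integrable (fun t : ℝ => ‖Zf ((1 - σ : ℝ) + t * Complex.I)‖ ^ m * Real.exp (-(1 / T ^ 2) * t ^ 2)) := by
    intro T hT
    refine Integrable.mono' ((Integrable.const_mul hI (2 * K ^ m * T ^ (1 - δ))).add
      (integrable_inv_one_add_sq.const_mul (2 * K₁))) ?_ ?_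
    · exact Continuous.aestronglyMeasurable (by fun_prop)
    · refine Eventually.of_forall fun t => ?_
      rw [Real.norm_eq_abs, abs_of_nonneg (by positivity)]
      exact hmaj T hT t
  have hM : ∀ T : ℝ, 1 ≤ T → ∫ t : ℝ, ‖Zf ((1 - σ : ℝ) + t * Complex.I)‖ ^ m * Real.exp (-(1 / T ^ 2) * t ^ 2) ≤
      2 * K ^ m * G * T ^ (1 - δ) + 2 * K₁ * Real.pi := by
    intro T hT
    calc ∫ t : ℝ, ‖Zf ((1 - σ : ℝ) + t * Complex.I)‖ ^ m * Real.exp (-(1 / T ^ 2) * t ^ 2) ≤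
        ∫ t : ℝ, (2 * K ^ m * T ^ (1 - δ) * (‖Zf (σ + t * Complex.I)‖ ^ m / (1 + t ^ 2)) + 2 * K₁ * (1 + t ^ 2)⁻¹) :=
          integral_mono (hmi T hT) ((Integrable.const_mul hI _).add (integrable_inv_one_add_sq.const_mul _)) (hmaj T hT)
      _ = _ := by
          rw [integral_add (Integrable.const_mul hI _) (integrable_inv_one_add_sq.const_mul _), integral_const_mul,
            integral_const_mul, ← hG, integral_univ_inv_one_add_sq]
          ring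
  obtain ⟨l, hl⟩ : ∃ l, l = c / 40 := ⟨_, rfl⟩
  have hl0 : 0 < l := by rw [hl]; positivity
  obtain ⟨Q, hQ⟩ : ∃ Q, Q = (1 / l) ^ (m - 1) := ⟨_, rfl⟩
  have hQ0 : 0 < Q := by rw [hQ]; positivity
  have hbig : ∀ T : ℝ, T₀ ≤ T → c * T ≤ c / 2 * T + 3 * Q * (2 * K ^ m * G * T ^ (1 - δ) + 2 * K₁ * Real.pi) := by
    intro T hT
    have hT1 : 1 ≤ T := hT₀.trans hT
    have hT0 : 0 < T := by linarith
    have h2 := hmean T hT (1 - σ) (by linarith) (by linarith)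
    have hgi := integrable_exp_neg_mul_sq (b := 1 / T ^ 2) (by positivity)
    have hbd : ∀ t : ℝ, ‖Zf ((1 - σ : ℝ) + t * Complex.I) * Gt T ((1 - σ : ℝ) + t * Complex.I)‖ ≤
        3 * (l * Real.exp (-(1 / T ^ 2) * t ^ 2) + Q * (‖Zf ((1 - σ : ℝ) + t * Complex.I)‖ ^ m * Real.exp (-(1 / T ^ 2) * t ^ 2))) := by
      intro t
      rw [norm_mul, Gt_norm hT0]
      have h3 : Real.exp ((((1 - σ : ℝ) + t * Complex.I : ℂ).re ^ 2 - ((1 - σ : ℝ) + t * Complex.I : ℂ).im ^ 2) / T ^ 2) ≤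
          3 * Real.exp (-(1 / T ^ 2) * t ^ 2) := by
        have h4 : Real.exp 1 ≤ 3 := by linarith [Real.exp_one_lt_d9]
        refine le_trans ?_ (mul_le_mul_of_nonneg_right h4 (Real.exp_pos _).le)
        rw [← Real.exp_add]
        apply Real.exp_le_exp.2
        have e1 : (((1 - σ : ℝ) : ℂ) + t * Complex.I).re = 1 - σ := by simp
        have e2 : (((1 - σ : ℝ) : ℂ) + t * Complex.I).im = t := by simp
        rw [e1, e2]
        have h5 : (1 - σ) ^ 2 / T ^ 2 ≤ 1 := by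
          rw [div_le_one (by positivity)]
          nlinarith
        calc ((1 - σ) ^ 2 - t ^ 2) / T ^ 2 = (1 - σ) ^ 2 / T ^ 2 + -(1 / T ^ 2) * t ^ 2 := by ring
          _ ≤ _ := by linarith
      have h5 := pow_split hm (norm_nonneg (Zf ((1 - σ : ℝ) + t * Complex.I))) hl0
      rw [← hQ] at h5
      calc ‖Zf ((1 - σ : ℝ) + t * Complex.I)‖ * _ ≤ (l + Q * ‖Zf ((1 - σ : ℝ) + t * Complex.I)‖ ^ m) * (3 * Real.exp (-(1 / T ^ 2) * t ^ 2)) :=
            mul_le_mul h5 h3 (Real.exp_pos _).le (by positivity)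
        _ = _ := by ring
    have h3 := norm_integral_le_of_norm_le (((hgi.const_mul l).add ((hmi T hT1).const_mul Q)).const_mul 3)
      (Eventually.of_forall hbd)
    have h4 : ∫ t : ℝ, 3 * (l * Real.exp (-(1 / T ^ 2) * t ^ 2) + Q * (‖Zf ((1 - σ : ℝ) + t * Complex.I)‖ ^ m * Real.exp (-(1 / T ^ 2) * t ^ 2))) =
        3 * (l * (Real.sqrt Real.pi * T) + Q * ∫ t : ℝ, ‖Zf ((1 - σ : ℝ) + t * Complex.I)‖ ^ m * Real.exp (-(1 / T ^ 2) * t ^ 2)) := by
      rw [integral_const_mul, integral_add (hgi.const_mul l) ((hmi T hT1).const_mul Q), integral_const_mul, integral_const_mul,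
        gauss_T hT0]
    have h5 : Real.sqrt Real.pi ≤ 2 := by
      rw [Real.sqrt_le_left (by norm_num)]
      linarith [Real.pi_le_four]
    have h6 : 3 * (l * (Real.sqrt Real.pi * T)) ≤ c / 2 * T := by
      rw [hl]
      have : Real.sqrt Real.pi * T ≤ 2 * T := by gcongr
      nlinarith
    have h7 := hM T hT1
    calc c * T ≤ _ := h2
      _ ≤ _ := h3
      _ = _ := h4
      _ ≤ _ := by
        have : Q * (∫ t : ℝ, ‖Zf ((1 - σ : ℝ) + t * Complex.I)‖ ^ m * Real.exp (-(1 / T ^ 2) * t ^ 2)) ≤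
            Q * (2 * K ^ m * G * T ^ (1 - δ) + 2 * K₁ * Real.pi) := by gcongr
        linarith
  -- divide by `T` and let `T` tend to infinity
  have hlim : Tendsto (fun T : ℝ => 3 * Q * (2 * K ^ m * G * T ^ (-δ) + 2 * K₁ * Real.pi * T⁻¹)) atTop (𝓝 0) := by
    have h2 : Tendsto (fun T : ℝ => T ^ (-δ)) atTop (𝓝 0) := tendsto_rpow_neg_atTop hδ0
    have h3 : Tendsto (fun T : ℝ => T⁻¹) atTop (𝓝 0) := tendsto_inv_atTop_zero
    have h4 := ((h2.const_mul (2 * K ^ m * G)).add (h3.const_mul (2 * K₁ * Real.pi))).const_mul (3 * Q)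
    simpa using h4
  have hev := hlim.eventually (gt_mem_nhds (show (0 : ℝ) < c / 2 by positivity))
  obtain ⟨T, hT, hT2⟩ := (hev.and (eventually_ge_atTop T₀)).exists
  have hT0 : 0 < T := by linarith
  have h2 := hbig T hT2
  have h3 : 3 * Q * (2 * K ^ m * G * T ^ (1 - δ) + 2 * K₁ * Real.pi) =
      (3 * Q * (2 * K ^ m * G * T ^ (-δ) + 2 * K₁ * Real.pi * T⁻¹)) * T := by
    have : T ^ (1 - δ) = T ^ (-δ) * T := by
      rw [sub_eq_add_neg, add_comm, Real.rpow_add hT0, Real.rpow_one]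
    rw [this]
    field_simp
  rw [h3] at h2
  nlinarith

end

end Pool.Agent.J4H77.PE
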