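import Pool.Agent.J4H77.PE.Pl4

/-!
# Mean values of the zeta function and the mean square of the error term
-/

set_option autoImplicit false

open Filter Topology MeasureTheory Set
open scoped ENNReal FourierTransform

namespace Pool.Agent.J4H77.PE

noncomputable section

/-- `(s - 1) ζ(s) / (s + 1)` -/
def Zf (s : ℂ) : ℂ := riemannZeta₁ s / (s + 1)

/-- finite weighted moment on a vertical line -/
def Int (m : ℕ) (σ : ℝ) : Prop := Integrable (fun t : ℝ => ‖Zf (σ + t * Complex.I)‖ ^ m / (1 + t ^ 2))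

lemma Zf_diff {s : ℂ} (hs : -1 < s.re) : DifferentiableAt ℂ Zf s := by
  unfold Zf
  have h1 : s + 1 ≠ 0 := by
    intro h
    have : (s + 1).re = 0 := by rw [h]; simp
    simp at this
    linarith
  exact (differentiable_riemannZeta₁ s).div (by fun_prop) h1

lemma Zf_cont {σ : ℝ} (hσ : -1 < σ) : Continuous (fun t : ℝ => Zf (σ + t * Complex.I)) :=
  Pool.Agent.E8helper52.OR.cont_line (fun z hz => Zf_diff (by rw [hz]; exact hσ))

lemma Zf_le {s : ℂ} (hs : 0 ≤ s.re) (hs1 : s ≠ 1) : ‖Zf s‖ ≤ ‖riemannZeta s‖ := by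
  unfold Zf
  have h1 : riemannZeta₁ s = (s - 1) * riemannZeta s := by
    rw [riemannZeta_eq_inv_sub_mul hs1]
    have : s - 1 ≠ 0 := sub_ne_zero.2 hs1
    field_simp
  rw [h1, norm_div, norm_mul, mul_comm, mul_div_assoc]
  apply mul_le_of_le_one_right (norm_nonneg _)
  apply div_le_one_of_le₀ _ (norm_nonneg _)
  rw [← sq_le_sq₀ (norm_nonneg _) (norm_nonneg _), Complex.sq_norm, Complex.sq_norm, Complex.normSq_apply, Complex.normSq_apply]
  simp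
  nlinarith

lemma le_Zf {s : ℂ} (hs : 1 ≤ |s.im|) : ‖riemannZeta s‖ ≤ 3 * ‖Zf s‖ := by
  unfold Zf
  have hs1 : s ≠ 1 := by
    intro h0
    rw [h0] at hs
    simp at hs
    linarith
  have h1 : riemannZeta₁ s = (s - 1) * riemannZeta s := by
    rw [riemannZeta_eq_inv_sub_mul hs1]
    have : s - 1 ≠ 0 := sub_ne_zero.2 hs1
    field_simp
  have h2 : 1 ≤ ‖s - 1‖ := by
    have := Complex.abs_im_le_norm (s - 1)
    rw [Complex.sub_im, Complex.one_im, sub_zero] at this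
    exact hs.trans this
  have h3 : ‖s + 1‖ ≤ 3 * ‖s - 1‖ := by
    calc ‖s + 1‖ = ‖(s - 1) + 2‖ := by ring_nf
      _ ≤ ‖s - 1‖ + ‖(2 : ℂ)‖ := norm_add_le _ _
      _ ≤ 3 * ‖s - 1‖ := by rw [Complex.norm_ofNat]; linarith
  have h4 : 0 < ‖s + 1‖ := by
    have := Complex.abs_im_le_norm (s + 1)
    rw [Complex.add_im, Complex.one_im, add_zero] at this
    linarith
  rw [h1, norm_div, norm_mul, ← mul_div_assoc, le_div_iff₀ h4]
  calc ‖riemannZeta s‖ * ‖s + 1‖ ≤ ‖riemannZeta s‖ * (3 * ‖s - 1‖) := by gcongr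
    _ = 3 * (‖s - 1‖ * ‖riemannZeta s‖) := by ring

lemma Rf_le (P : Polynomial ℝ) : ∃ A : ℝ, 0 ≤ A ∧ ∀ s : ℂ, 1 ≤ |s.im| → ‖Rf P s‖ ≤ A / |s.im| := by
  refine ⟨P.sum (fun j p => |p| * j.factorial), ?_, fun s h3 => ?_⟩
  · unfold Polynomial.sum
    exact Finset.sum_nonneg fun j _ => by positivity
  have hn1 : |s.im| ≤ ‖s - 1‖ := by
    have := Complex.abs_im_le_norm (s - 1)
    rwa [Complex.sub_im, Complex.one_im, sub_zero] at this
  unfold Rf Polynomial.sum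
  rw [Finset.sum_div]
  refine (norm_sum_le _ _).trans (Finset.sum_le_sum fun j _ => ?_)
  rw [norm_mul, norm_div, norm_pow, Complex.norm_real, Real.norm_eq_abs, Complex.norm_natCast, mul_div_assoc]
  apply mul_le_mul_of_nonneg_left _ (abs_nonneg _)
  apply div_le_div_of_nonneg_left (by positivity) (by linarith)
  calc |s.im| ≤ ‖s - 1‖ := hn1
    _ = ‖s - 1‖ ^ 1 := (pow_one _).symm
    _ ≤ ‖s - 1‖ ^ (j + 1) := pow_le_pow_right₀ (h3.trans hn1) (by omega)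

lemma AH_iff {k : ℕ} (hk : 1 ≤ k) {P : Polynomial ℝ} {θ C : ℝ} (hg : Good k P θ C) {σ : ℝ} (hσ : 0 < σ) :
    AH k P σ < ⊤ ↔ Integrable (fun t : ℝ => ‖Hf k P (σ + t * Complex.I)‖ ^ 2) := by
  have hc := line_cont hk hg hσ
  have hpi : (2 * Real.pi : ℝ) ≠ 0 := by positivity
  have h1 : Integrable (fun t : ℝ => ‖Hf k P (σ + t * Complex.I)‖ ^ 2) ↔
      Integrable (fun ξ : ℝ => ‖Hf k P (σ + (2 * Real.pi * ξ : ℝ) * Complex.I)‖ ^ 2) := by
    constructor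
    · intro h
      exact h.comp_mul_left' hpi
    · intro h
      have := h.comp_mul_left' (inv_ne_zero hpi)
      refine this.congr (Eventually.of_forall fun t => ?_)
      simp only
      rw [mul_inv_cancel_left₀ hpi]
  rw [h1]
  have hc2 : Continuous (fun ξ : ℝ => ‖Hf k P (σ + (2 * Real.pi * ξ : ℝ) * Complex.I)‖ ^ 2) := by
    have : Continuous (fun ξ : ℝ => Hf k P (σ + (2 * Real.pi * ξ : ℝ) * Complex.I)) :=
      hc.comp (continuous_const.mul continuous_id)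
    fun_prop
  have h2 : AH k P σ = ∫⁻ ξ : ℝ, ‖‖Hf k P (σ + (2 * Real.pi * ξ : ℝ) * Complex.I)‖ ^ 2‖ₑ := by
    unfold AH
    apply lintegral_congr
    intro ξ
    rw [enorm_pow, enorm_norm]
  rw [h2]
  constructor
  · intro h
    exact ⟨hc2.aestronglyMeasurable, h⟩
  · intro h
    exact h.2

lemma bdd_of {f : ℝ → ℝ} (hf : Continuous f) {g : ℝ → ℝ} (hg : Integrable g) (hg0 : ∀ t, 0 ≤ g t) (hf0 : ∀ t, 0 ≤ f t)
    {A : ℝ} (hA : 0 ≤ A) (h : ∀ t, 1 ≤ |t| → f t ≤ A * g t + A * (1 + t ^ 2)⁻¹) : Integrable f := by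
  obtain ⟨B, hB⟩ := (isCompact_Icc (a := (-1 : ℝ)) (b := 1)).exists_bound_of_continuousOn hf.continuousOn
  have hB0 : 0 ≤ B := (norm_nonneg _).trans (hB 0 ⟨by norm_num, by norm_num⟩)
  refine Integrable.mono' ((hg.const_mul A).add (integrable_inv_one_add_sq.const_mul (A + 2 * B))) hf.aestronglyMeasurable ?_
  refine Eventually.of_forall fun t => ?_
  rw [Real.norm_eq_abs, abs_of_nonneg (hf0 t), Pi.add_apply]
  have h0 : (0 : ℝ) < 1 + t ^ 2 := by positivity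
  by_cases ht : 1 ≤ |t|
  · have h1 := h t ht
    have h2 : 0 ≤ 2 * B * (1 + t ^ 2)⁻¹ := by positivity
    linarith
  · push Not at ht
    have h1 := hB t ⟨by linarith [(abs_lt.1 ht).1], by linarith [(abs_lt.1 ht).2]⟩
    rw [Real.norm_eq_abs, abs_of_nonneg (hf0 t)] at h1
    have h3 : 1 / 2 ≤ (1 + t ^ 2)⁻¹ := by
      rw [one_div]
      apply inv_anti₀ h0
      have : t ^ 2 < 1 := by rw [← sq_abs]; nlinarith [abs_nonneg t]
      linarith
    have h4 := hg0 t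
    have h5 : 0 ≤ A * g t := mul_nonneg hA h4
    nlinarith

theorem Int_of_AH {k : ℕ} (hk : 1 ≤ k) {P : Polynomial ℝ} {θ C : ℝ} (hg : Good k P θ C) {σ : ℝ} (hσ : 0 < σ) (hσ2 : σ ≤ 2)
    (hA : AH k P σ < ⊤) : Int (2 * k) σ := by
  rw [AH_iff hk hg hσ] at hA
  obtain ⟨A, hA0, hR⟩ := Rf_le P
  refine bdd_of (A := 10 + 40 * A ^ 2) ?_ hA (fun t => by positivity) (fun t => by positivity) (by positivity) ?_
  · have := Zf_cont (σ := σ) (by linarith)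
    refine Continuous.div (by fun_prop) (by fun_prop) fun t => by positivity
  intro t ht
  obtain ⟨s, hs⟩ : ∃ s : ℂ, s = σ + t * Complex.I := ⟨_, rfl⟩
  have hre : s.re = σ := by rw [hs]; simp
  have him : s.im = t := by rw [hs]; simp
  have hs1 : s ≠ 1 := by
    intro h0
    rw [h0] at him
    simp at him
    rw [← him] at ht
    simp at ht
    linarith
  have hs0 : 0 < ‖s‖ := by
    have := Complex.abs_im_le_norm s
    rw [him] at this
    linarith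
  rw [← hs, Hf_ne hs1]
  unfold Ef
  have h1 : ‖Zf s‖ ^ (2 * k) / (1 + t ^ 2) ≤ 5 * ‖riemannZeta s ^ k / s‖ ^ 2 := by
    rw [norm_div, norm_pow, div_pow, ← pow_mul, mul_comm k 2, ← mul_div_assoc, div_le_div_iff₀ (by positivity) (by positivity)]
    have h2 : ‖s‖ ^ 2 ≤ 5 * (1 + t ^ 2) := by
      rw [Complex.sq_norm, Complex.normSq_apply, hre, him]
      nlinarith
    have h3 : ‖Zf s‖ ^ (2 * k) ≤ ‖riemannZeta s‖ ^ (2 * k) := by
      have := Zf_le (s := s) (by rw [hre]; exact hσ.le) hs1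
      gcongr
    calc ‖Zf s‖ ^ (2 * k) * ‖s‖ ^ 2 ≤ ‖riemannZeta s‖ ^ (2 * k) * (5 * (1 + t ^ 2)) := by gcongr
      _ = _ := by ring
  have h4 : ‖riemannZeta s ^ k / s‖ ^ 2 ≤ 2 * ‖riemannZeta s ^ k / s - Rf P s‖ ^ 2 + 2 * ‖Rf P s‖ ^ 2 := by
    have h5 : ‖riemannZeta s ^ k / s‖ ≤ ‖riemannZeta s ^ k / s - Rf P s‖ + ‖Rf P s‖ := by
      have := norm_add_le (riemannZeta s ^ k / s - Rf P s) (Rf P s)
      rwa [sub_add_cancel] at this
    have h6 := norm_nonneg (riemannZeta s ^ k / s)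
    nlinarith [sq_nonneg (‖riemannZeta s ^ k / s - Rf P s‖ - ‖Rf P s‖)]
  have h7 : ‖Rf P s‖ ^ 2 ≤ 2 * A ^ 2 * (1 + t ^ 2)⁻¹ := by
    have h8 := hR s (by rw [him]; exact ht)
    rw [him] at h8
    have h9 : 1 ≤ t ^ 2 := by rw [← sq_abs]; nlinarith
    calc ‖Rf P s‖ ^ 2 ≤ (A / |t|) ^ 2 := by gcongr
      _ = A ^ 2 / t ^ 2 := by rw [div_pow, sq_abs]
      _ ≤ 2 * A ^ 2 * (1 + t ^ 2)⁻¹ := by
        rw [← div_eq_mul_inv, div_le_div_iff₀ (by positivity) (by positivity)]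
        nlinarith [sq_nonneg A]
  have h10 : 0 ≤ ‖riemannZeta s ^ k / s - Rf P s‖ ^ 2 := by positivity
  have h11 : 0 ≤ (1 + t ^ 2)⁻¹ := by positivity
  have h12 : 0 ≤ A ^ 2 * ‖riemannZeta s ^ k / s - Rf P s‖ ^ 2 := by positivity
  nlinarith [sq_nonneg A]

theorem AH_of_Int {k : ℕ} (hk : 1 ≤ k) {P : Polynomial ℝ} {θ C : ℝ} (hg : Good k P θ C) {σ : ℝ} (hσ : 0 < σ)
    (hI : Int (2 * k) σ) : AH k P σ < ⊤ := by
  rw [AH_iff hk hg hσ]
  obtain ⟨A, hA0, hR⟩ := Rf_le P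
  refine bdd_of (A := 4 * 9 ^ k + 4 * A ^ 2) ?_ hI (fun t => by positivity) (fun t => by positivity) (by positivity) ?_
  · have := line_cont hk hg hσ
    fun_prop
  intro t ht
  obtain ⟨s, hs⟩ : ∃ s : ℂ, s = σ + t * Complex.I := ⟨_, rfl⟩
  have him : s.im = t := by rw [hs]; simp
  have hs1 : s ≠ 1 := by
    intro h0
    rw [h0] at him
    simp at him
    rw [← him] at ht
    simp at ht
    linarith
  have hst : |t| ≤ ‖s‖ := by
    have := Complex.abs_im_le_norm s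
    rwa [him] at this
  rw [← hs, Hf_ne hs1]
  unfold Ef
  have h9 : 1 ≤ t ^ 2 := by rw [← sq_abs]; nlinarith
  have h1 : ‖riemannZeta s ^ k / s‖ ^ 2 ≤ 2 * 9 ^ k * (‖Zf s‖ ^ (2 * k) / (1 + t ^ 2)) := by
    rw [norm_div, norm_pow, div_pow, ← pow_mul, mul_comm k 2, ← mul_div_assoc,
      div_le_div_iff₀ (by nlinarith [abs_nonneg t]) (by positivity)]
    have h2 : 1 + t ^ 2 ≤ 2 * ‖s‖ ^ 2 := by
      have : t ^ 2 ≤ ‖s‖ ^ 2 := by rw [← sq_abs]; gcongr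
      linarith
    have h3 : ‖riemannZeta s‖ ^ (2 * k) ≤ 9 ^ k * ‖Zf s‖ ^ (2 * k) := by
      have := le_Zf (s := s) (by rw [him]; exact ht)
      calc ‖riemannZeta s‖ ^ (2 * k) ≤ (3 * ‖Zf s‖) ^ (2 * k) := by gcongr
        _ = _ := by rw [mul_pow, pow_mul 3 2 k]; norm_num
    calc ‖riemannZeta s‖ ^ (2 * k) * (1 + t ^ 2) ≤ (9 ^ k * ‖Zf s‖ ^ (2 * k)) * (2 * ‖s‖ ^ 2) := by gcongr
      _ = _ := by ring
  have h4 : ‖riemannZeta s ^ k / s - Rf P s‖ ^ 2 ≤ 2 * ‖riemannZeta s ^ k / s‖ ^ 2 + 2 * ‖Rf P s‖ ^ 2 := by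
    have h5 := norm_sub_le (riemannZeta s ^ k / s) (Rf P s)
    have h6 := norm_nonneg (riemannZeta s ^ k / s - Rf P s)
    nlinarith [sq_nonneg (‖riemannZeta s ^ k / s‖ - ‖Rf P s‖)]
  have h7 : ‖Rf P s‖ ^ 2 ≤ 2 * A ^ 2 * (1 + t ^ 2)⁻¹ := by
    have h8 := hR s (by rw [him]; exact ht)
    rw [him] at h8
    calc ‖Rf P s‖ ^ 2 ≤ (A / |t|) ^ 2 := by gcongr
      _ = A ^ 2 / t ^ 2 := by rw [div_pow, sq_abs]
      _ ≤ 2 * A ^ 2 * (1 + t ^ 2)⁻¹ := by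
        rw [← div_eq_mul_inv, div_le_div_iff₀ (by positivity) (by positivity)]
        nlinarith [sq_nonneg A]
  have h10 : 0 ≤ ‖Zf s‖ ^ (2 * k) / (1 + t ^ 2) := by positivity
  have h11 : 0 ≤ (1 + t ^ 2)⁻¹ := by positivity
  have h12 : 0 ≤ A ^ 2 * (‖Zf s‖ ^ (2 * k) / (1 + t ^ 2)) := by positivity
  have h13 : 0 ≤ (4 * 9 ^ k : ℝ) * (1 + t ^ 2)⁻¹ := by positivity
  nlinarith [sq_nonneg A]

end

end Pool.Agent.J4H77.PE
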