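import Pool.Agent.J4H77.PE.Alp3
import Pool.Agent.TH988.RB.Lan

/-!
# One-sided bounds of the error term
-/

set_option autoImplicit false

open Filter Topology MeasureTheory Set
open scoped ComplexConjugate

namespace Pool.Agent.J4H77.PE

noncomputable section

lemma Hf_analytic {k : ℕ} (hk : 1 ≤ k) {P : Polynomial ℝ} {θ C : ℝ} (hg : Good k P θ C) {w : ℝ} (hw : 0 < w) :
    AnalyticAt ℝ (fun x : ℝ => (Hf k P x).re) w := by
  have h1 : AnalyticAt ℂ (Hf k P) (w : ℂ) := by
    apply DifferentiableOn.analyticAt (s := {z : ℂ | z ≠ 0})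
    · intro z hz
      exact (Hf_diff hk hg hz).differentiableWithinAt
    · apply isOpen_ne.mem_nhds
      intro h
      have : w = 0 := by exact_mod_cast h
      linarith
  have h2 : AnalyticAt ℝ (Hf k P) (w : ℂ) := h1.restrictScalars
  have h3 : AnalyticAt ℝ (fun x : ℝ => (x : ℂ)) w := Complex.ofRealCLM.analyticAt w
  have h4 : AnalyticAt ℝ (fun x : ℝ => Hf k P (x : ℂ)) w := AnalyticAt.comp' (g := Hf k P) h2 h3
  exact (Complex.reCLM.analyticAt _).comp' h4

lemma int_exp_val {c : ℝ} (hc : 0 < c) : ∫ u in Ioi (0 : ℝ), Real.exp (-(c * u)) = 1 / c := by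
  have := integral_exp_mul_Ioi (a := -c) (by linarith) 0
  have e : ∀ u : ℝ, Real.exp (-(c * u)) = Real.exp (-c * u) := fun u => by ring_nf
  simp_rw [e]
  rw [this]
  simp

/-- a one-sided bound gives convergence in mean -/
theorem conv_of_side {k : ℕ} (hk : 1 ≤ k) {P : Polynomial ℝ} {θ C : ℝ} (hg : Good k P θ C) {s a A : ℝ} (hs : s = 1 ∨ s = -1)
    (h : ∀ x : ℝ, 1 ≤ x → s * err k P x ≤ A * x ^ a) : Conv k P (max a 0) := by
  obtain ⟨b, hb⟩ : ∃ b, b = max a 0 := ⟨_, rfl⟩
  have hb0 : 0 ≤ b := by rw [hb]; exact le_max_right _ _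
  have hab : a ≤ b := by rw [hb]; exact le_max_left _ _
  rw [← hb]
  have hs1 : |s| = 1 := by rcases hs with h | h <;> rw [h] <;> norm_num
  obtain ⟨f, hf⟩ : ∃ f : ℝ → ℝ, f = fun u => |A| * Real.exp (b * u) - s * fe k P u := ⟨_, rfl⟩
  have hfm : Measurable f := by
    have := fe_meas k P
    rw [hf]
    fun_prop
  have hf0 : ∀ u : ℝ, 0 < u → 0 ≤ f u := by
    intro u hu
    rw [hf]
    simp only
    rw [fe_pos hu.le, sub_nonneg]
    refine (h _ (Real.one_le_exp hu.le)).trans ?_
    rw [← Real.exp_mul]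
    calc A * Real.exp (u * a) ≤ |A| * Real.exp (u * a) := mul_le_mul_of_nonneg_right (le_abs_self A) (Real.exp_pos _).le
      _ ≤ |A| * Real.exp (b * u) := by
          apply mul_le_mul_of_nonneg_left _ (abs_nonneg A)
          apply Real.exp_le_exp.2
          nlinarith
  have hei : ∀ w : ℝ, b < w → IntegrableOn (fun u : ℝ => Real.exp (-((w - b) * u))) (Ioi 0) := by
    intro w hw
    have := int_exp_Ioi (a := w - b) (by linarith)
    refine this.congr_fun (fun u _ => ?_) measurableSet_Ioi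
    simp only
    ring_nf
  have hfi : ∀ w : ℝ, θ < w → IntegrableOn (fun u : ℝ => fe k P u * Real.exp (-(w * u))) (Ioi 0) := by
    intro w hw
    have h1 := conv_good hg w hw
    refine Integrable.mono' h1 ?_ (Eventually.of_forall fun u => ?_)
    · have := fe_meas k P
      exact Measurable.aestronglyMeasurable (by fun_prop)
    · rw [Real.norm_eq_abs, abs_mul, abs_of_pos (Real.exp_pos _)]
      apply le_of_eq
      ring_nf
  have hsplit : ∀ w u : ℝ, f u * Real.exp (-(w * u)) = |A| * Real.exp (-((w - b) * u)) - s * (fe k P u * Real.exp (-(w * u))) := by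
    intro w u
    rw [hf]
    simp only
    have : Real.exp (-((w - b) * u)) = Real.exp (b * u) * Real.exp (-(w * u)) := by
      rw [← Real.exp_add]
      ring_nf
    rw [this]
    ring
  have hint : ∀ w : ℝ, max b 1 < w → IntegrableOn (fun u => f u * Real.exp (-(w * u))) (Ioi 0) := by
    intro w hw
    have h1 : b < w := lt_of_le_of_lt (le_max_left _ _) hw
    have h2 : 1 < w := lt_of_le_of_lt (le_max_right _ _) hw
    simp_rw [hsplit]
    exact ((hei w h1).const_mul _).sub ((hfi w (by linarith [hg.2.1])).const_mul _)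
  have hval : ∀ w : ℝ, max b 1 < w → b < w → (∫ u in Ioi (0 : ℝ), f u * Real.exp (-(w * u))) =
      |A| * (1 / (w - b)) - s * (Hf k P w).re := by
    intro w hw h1
    have h2 : 1 < w := lt_of_le_of_lt (le_max_right _ _) hw
    have h3 : θ < w := by linarith [hg.2.1]
    simp_rw [hsplit]
    rw [integral_sub ((hei w h1).const_mul _) ((hfi w h3).const_mul _), integral_const_mul, integral_const_mul,
      int_exp_val (by linarith)]
    congr 2
    rw [Hf_eq hk hg hg.1.le (by linarith [hg.2.1]) (conv_good hg) (by simpa using h3)]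
    unfold Mf
    have e : ∀ u : ℝ, (fe k P u : ℂ) * Complex.exp (-(w : ℂ) * u) = ((fe k P u * Real.exp (-(w * u)) : ℝ) : ℂ) := by
      intro u
      push_cast
      ring_nf
    simp_rw [e]
    rw [integral_complex_ofReal, Complex.ofReal_re]
  have hana : ∀ w > b, AnalyticAt ℝ (fun w : ℝ => |A| * (1 / (w - b)) - s * (Hf k P w).re) w := by
    intro w hw
    have h1 : AnalyticAt ℝ (fun w : ℝ => |A| * (1 / (w - b))) w := by
      apply AnalyticAt.mul analyticAt_const
      apply AnalyticAt.div analyticAt_const (by fun_prop)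
      linarith
    exact h1.sub (analyticAt_const.mul (Hf_analytic hk hg (by linarith)))
  obtain ⟨hL, -⟩ := Pool.Agent.TH988.RB.landau_lap hfm hf0 (a := b) (w1 := max b 1) (fun w hw => hint w hw) hana
    (fun w hw h1 => hval w hw h1)
  intro σ hσ
  have h1 : Integrable (fun u => f u * Real.exp (-(σ * u))) (volume.restrict (Ioi 0)) := hL σ hσ
  have h2 := (hei σ hσ).const_mul |A|
  refine Integrable.mono' (h1.add h2) ?_ ?_
  · have := fe_meas k P
    exact Measurable.aestronglyMeasurable (by fun_prop)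
  · refine (ae_restrict_iff' measurableSet_Ioi).2 (Eventually.of_forall fun u hu => ?_)
    rw [Real.norm_eq_abs, abs_mul, abs_abs, abs_of_pos (Real.exp_pos _), Pi.add_apply]
    have h3 := hf0 u hu
    have h4 : |fe k P u| ≤ f u + |A| * Real.exp (b * u) := by
      have h5 : |fe k P u| = |s * fe k P u| := by rw [abs_mul, hs1, one_mul]
      rw [h5]
      have h6 : s * fe k P u = |A| * Real.exp (b * u) - f u := by rw [hf]; ring
      rw [h6]
      have h7 : 0 ≤ |A| * Real.exp (b * u) := by positivity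
      rw [abs_le]
      constructor <;> linarith
    calc |fe k P u| * Real.exp (-σ * u) ≤ (f u + |A| * Real.exp (b * u)) * Real.exp (-σ * u) := by gcongr
      _ = f u * Real.exp (-(σ * u)) + |A| * (Real.exp (b * u) * Real.exp (-σ * u)) := by ring_nf
      _ = _ := by
          rw [← Real.exp_add]
          ring_nf

/-- convergence in mean gives a pointwise bound of the zeta function -/
lemma zeta_of_conv {k : ℕ} (hk : 1 ≤ k) {P : Polynomial ℝ} {θ C : ℝ} (hg : Good k P θ C) {a : ℝ} (ha : 0 ≤ a)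
    (h : Conv k P a) {σ : ℝ} (hσ : a < σ) (hσ2 : σ < 2) : ∃ B : ℝ, 0 ≤ B ∧ ∀ t : ℝ, 1 ≤ |t| →
    ‖riemannZeta (σ + t * Complex.I)‖ ^ k ≤ B * |t| := by
  obtain ⟨A, hA, hR⟩ := Rf_le P
  have h1 := h σ hσ
  obtain ⟨I, hI⟩ : ∃ I, I = ∫ u in Ioi (0 : ℝ), |fe k P u| * Real.exp (-σ * u) := ⟨_, rfl⟩
  have hI0 : 0 ≤ I := by
    rw [hI]
    exact integral_nonneg fun u => by positivity
  refine ⟨(I + A) * 3, by positivity, fun t ht => ?_⟩
  obtain ⟨z, hz⟩ : ∃ z : ℂ, z = σ + t * Complex.I := ⟨_, rfl⟩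
  have hre : z.re = σ := by rw [hz]; simp
  have him : z.im = t := by rw [hz]; simp
  have hz1 : z ≠ 1 := ne_one_of_im (by rw [him]; exact ht)
  have hz0 : 0 < ‖z‖ := by
    have := Complex.abs_im_le_norm z
    rw [him] at this
    linarith
  have h2 : ‖Hf k P z‖ ≤ I := by
    rw [Hf_eq hk hg ha (by linarith) h (by rw [hre]; exact hσ), hI]
    unfold Mf
    refine norm_integral_le_of_norm_le h1 (Eventually.of_forall fun u => ?_)
    rw [norm_mul, norm_cexp, Complex.norm_real, Real.norm_eq_abs, hre]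
  have h3 : ‖Rf P z‖ ≤ A := by
    refine (hR z (by rw [him]; exact ht)).trans ?_
    rw [him]
    exact div_le_self hA ht
  rw [Hf_ne hz1] at h2
  unfold Ef at h2
  have h4 : ‖riemannZeta z ^ k / z‖ ≤ I + A := by
    have := norm_add_le (riemannZeta z ^ k / z - Rf P z) (Rf P z)
    rw [sub_add_cancel] at this
    linarith
  rw [norm_div, norm_pow, div_le_iff₀ hz0] at h4
  have h5 : ‖z‖ ≤ 3 * |t| := by
    have := Complex.norm_le_abs_re_add_abs_im z
    rw [hre, him, abs_of_pos (by linarith)] at this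
    linarith
  rw [← hz]
  calc ‖riemannZeta z‖ ^ k ≤ (I + A) * ‖z‖ := h4
    _ ≤ (I + A) * (3 * |t|) := by gcongr
    _ = _ := by ring

/-- lower bound for the abscissa of convergence in mean -/
lemma conv_lower {k : ℕ} (hk : 2 ≤ k) {P : Polynomial ℝ} (hS : Sav k P) {a : ℝ} (ha : 0 ≤ a) (h : Conv k P a) :
    1 / 2 - 1 / ((k : ℝ) - 1) ≤ a := by
  obtain ⟨θ, C, hg⟩ := hS.good
  have hk0 : (2 : ℝ) ≤ k := by exact_mod_cast hk
  have hk1 : (0 : ℝ) < (k : ℝ) - 1 := by linarith
  by_contra hcon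
  push Not at hcon
  obtain ⟨σ, h1, h2⟩ := exists_between hcon
  have hpos : 0 < 1 / ((k : ℝ) - 1) := by positivity
  obtain ⟨B, hB, hz⟩ := zeta_of_conv (by omega) hg ha h h1 (by linarith)
  obtain ⟨m, hm⟩ : ∃ m, m = k - 1 := ⟨_, rfl⟩
  have hmk : (m : ℝ) = (k : ℝ) - 1 := by
    rw [hm]
    push_cast [Nat.cast_sub (show 1 ≤ k by omega)]
    ring
  have hc := Zf_cont (σ := σ) (by linarith)
  have hI : Int m σ := by
    obtain ⟨r, hr⟩ : ∃ r : ℝ, r = (m : ℝ) / k := ⟨_, rfl⟩
    have hr1 : r < 1 := by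
      rw [hr, div_lt_one (by linarith), hmk]
      linarith
    have hr0 : 0 ≤ r := by rw [hr]; positivity
    have hmaj : Integrable (fun t : ℝ => (1 + ‖t‖ ^ 2) ^ (-(2 - r) / 2)) :=
      integrable_rpow_neg_one_add_norm_sq (E := ℝ) (μ := volume) (by simp; linarith)
    refine bdd_of (f := fun t : ℝ => ‖Zf (σ + t * Complex.I)‖ ^ m / (1 + t ^ 2)) (A := B ^ r) ?_ hmaj
      (fun t => by positivity) (fun t => by positivity) (by positivity) ?_
    · refine Continuous.div (by fun_prop) (by fun_prop) fun t => by positivity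
    · intro t ht
      have ht0 : 0 < |t| := by linarith
      have h3 := hz t ht
      have h4 : ‖Zf (σ + t * Complex.I)‖ ≤ ‖riemannZeta (σ + t * Complex.I)‖ :=
        Zf_le (by simp; linarith) (ne_one_of_im (by simpa using ht))
      have h5 : ‖Zf (σ + t * Complex.I)‖ ^ m ≤ B ^ r * |t| ^ r := by
        calc ‖Zf (σ + t * Complex.I)‖ ^ m ≤ ‖riemannZeta (σ + t * Complex.I)‖ ^ m := by gcongr
          _ = (‖riemannZeta (σ + t * Complex.I)‖ ^ k) ^ r := by
              rw [← Real.rpow_natCast, ← Real.rpow_natCast, ← Real.rpow_mul (norm_nonneg _), hr]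
              congr 1
              field_simp
          _ ≤ (B * |t|) ^ r := by gcongr
          _ = _ := Real.mul_rpow hB ht0.le
      have h0 : (0 : ℝ) < 1 + t ^ 2 := by positivity
      have h6 : |t| ^ r ≤ (1 + t ^ 2) ^ (r / 2) := by
        have : |t| ^ r = (t ^ 2) ^ (r / 2) := by
          rw [← sq_abs, ← Real.rpow_natCast, ← Real.rpow_mul (abs_nonneg t)]
          congr 1
          push_cast
          ring
        rw [this]
        apply Real.rpow_le_rpow (by positivity) (by linarith) (by linarith)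
      have h7 : (1 + t ^ 2) ^ (r / 2) / (1 + t ^ 2) = (1 + ‖t‖ ^ 2) ^ (-(2 - r) / 2) := by
        rw [Real.norm_eq_abs, sq_abs]
        nth_rewrite 2 [← Real.rpow_one (1 + t ^ 2)]
        rw [← Real.rpow_sub h0]
        congr 1
        ring
      have h8 : 0 ≤ (1 + t ^ 2)⁻¹ := by positivity
      have hBr : 0 ≤ B ^ r := by positivity
      calc ‖Zf (σ + t * Complex.I)‖ ^ m / (1 + t ^ 2) ≤ B ^ r * (1 + t ^ 2) ^ (r / 2) / (1 + t ^ 2) := by
            have := h5.trans (mul_le_mul_of_nonneg_left h6 hBr)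
            gcongr
        _ = B ^ r * (1 + ‖t‖ ^ 2) ^ (-(2 - r) / 2) := by rw [mul_div_assoc, h7]
        _ ≤ _ := by nlinarith [mul_nonneg hBr h8]
  have h3 := low_exp (m := m) (by omega) (by linarith) (by linarith) hI
  rw [hmk] at h3
  have h4 : ((k : ℝ) - 1) * (1 / ((k : ℝ) - 1)) < ((k : ℝ) - 1) * (1 / 2 - σ) := by
    apply mul_lt_mul_of_pos_left _ hk1
    linarith
  rw [mul_one_div_cancel hk1.ne'] at h4
  linarith

/-- convergence in mean for infinitely many `k` -/
theorem sL_le_of_conv {P : ℕ → Polynomial ℝ} (hS : ∀ k, 2 ≤ k → Sav k (P k)) {a : ℝ} (ha : 0 ≤ a)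
    (h : ∃ᶠ k : ℕ in atTop, Conv k (P k) a) : sL ≤ a := by
  apply le_of_forall_pos_le_add
  intro η hη
  rcases le_or_gt 2 (a + η) with h2 | h2
  · exact (csInf_le Lind_bdd Lind_two).trans h2
  have hm : (a + η) ∈ LindSet := by
    refine ⟨by linarith, fun ε hε => ?_⟩
    obtain ⟨N, hN⟩ := exists_nat_gt (1 / ε + 2)
    obtain ⟨k, hk, hkN⟩ := (h.and_eventually (eventually_ge_atTop N)).exists
    have hk1 : 1 / ε + 2 < (k : ℝ) := lt_of_lt_of_le hN (by exact_mod_cast hkN)
    have hε1 : 0 < 1 / ε := by positivity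
    have hk2 : 2 ≤ k := by
      have : (2 : ℝ) < k := by linarith
      have : 2 < k := by exact_mod_cast this
      omega
    obtain ⟨θ, C, hg⟩ := (hS k hk2).good
    obtain ⟨B, hB, hz⟩ := zeta_of_conv (by omega) hg ha hk (show a < a + η by linarith) h2
    refine ⟨B ^ (1 / (k : ℝ)), fun t ht => ?_⟩
    have ht0 : 0 < t := by linarith
    have h3 := hz t (by rwa [abs_of_pos ht0])
    rw [abs_of_pos ht0] at h3
    have hkr : (0 : ℝ) < k := by linarith
    calc ‖riemannZeta ((a + η : ℝ) + t * Complex.I)‖ =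
        (‖riemannZeta ((a + η : ℝ) + t * Complex.I)‖ ^ k) ^ (1 / (k : ℝ)) := by
          rw [one_div, Real.pow_rpow_inv_natCast (norm_nonneg _) (by omega)]
      _ ≤ (B * t) ^ (1 / (k : ℝ)) := by gcongr
      _ = B ^ (1 / (k : ℝ)) * t ^ (1 / (k : ℝ)) := Real.mul_rpow hB ht0.le
      _ ≤ _ := by
          have h4 : 1 / (k : ℝ) ≤ ε := by
            rw [div_le_iff₀ hkr]
            have : 1 / ε < k := by linarith
            rw [div_lt_iff₀ hε] at this
            linarith
          have h5 := Real.rpow_le_rpow_of_exponent_le ht h4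
          gcongr
  exact csInf_le Lind_bdd hm

end

end Pool.Agent.J4H77.PE
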