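import Pool.Agent.J4H77.PE.Cont2
import Pool.Agent.H153R4.Pl

/-!
# The mean square of the error term and its Mellin transform: first half
-/

set_option autoImplicit false

open Filter Topology MeasureTheory Set
open scoped ENNReal FourierTransform

namespace Pool.Agent.J4H77.PE

noncomputable section

/-- the weighted error term, on the whole line -/
def fs (k : ℕ) (P : Polynomial ℝ) (σ u : ℝ) : ℂ := ((fe k P u * Real.exp (-σ * u) : ℝ) : ℂ)

lemma fs_meas (k : ℕ) (P : Polynomial ℝ) (σ : ℝ) : Measurable (fs k P σ) := by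
  unfold fs
  have := fe_meas k P
  fun_prop

lemma fs_norm (k : ℕ) (P : Polynomial ℝ) (σ u : ℝ) : ‖fs k P σ u‖ = |fe k P u| * Real.exp (-σ * u) := by
  unfold fs
  rw [Complex.norm_real, Real.norm_eq_abs, abs_mul, abs_of_pos (Real.exp_pos _)]

lemma fs_int {k : ℕ} {P : Polynomial ℝ} {a : ℝ} (h : Conv k P a) {σ : ℝ} (hσ : a < σ) : Integrable (fs k P σ) := by
  have h1 : IntegrableOn (fs k P σ) (Ioi 0) := by
    refine Integrable.mono' (h σ hσ) (fs_meas k P σ).aestronglyMeasurable ?_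
    exact Eventually.of_forall fun u => (fs_norm k P σ u).le
  rw [← integrable_indicator_iff measurableSet_Ioi] at h1
  refine h1.congr ?_
  have h0 : ∀ᵐ u : ℝ, u ≠ 0 := by
    rw [ae_iff]
    simp
  filter_upwards [h0] with u hu
  rcases lt_or_gt_of_ne hu with h2 | h2
  · rw [indicator_of_notMem (by simpa using h2.le)]
    unfold fs
    rw [fe_neg h2]
    simp
  · rw [indicator_of_mem (by simpa using h2)]

lemma fs_four {k : ℕ} {P : Polynomial ℝ} (σ ξ : ℝ) :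
    𝓕 (fs k P σ) ξ = Mf k P (σ + (2 * Real.pi * ξ : ℝ) * Complex.I) := by
  rw [Real.fourier_eq']
  unfold Mf
  rw [← integral_indicator measurableSet_Ioi]
  apply integral_congr_ae
  have h0 : ∀ᵐ u : ℝ, u ≠ 0 := by
    rw [ae_iff]
    simp
  filter_upwards [h0] with u hu
  rcases lt_or_gt_of_ne hu with h1 | h1
  · rw [indicator_of_notMem (by simpa using h1.le)]
    unfold fs
    rw [fe_neg h1]
    simp
  · rw [indicator_of_mem (by simpa using h1)]
    unfold fs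
    rw [smul_eq_mul]
    push_cast
    rw [mul_comm, mul_assoc, ← Complex.exp_add]
    congr 2
    simp only [RCLike.inner_apply, conj_trivial]
    push_cast
    ring

lemma planch {k : ℕ} (hk : 1 ≤ k) {P : Polynomial ℝ} {θ C : ℝ} (hg : Good k P θ C) {a : ℝ} (ha : 0 ≤ a) (ha2 : a < 2)
    (h : Conv k P a) {σ : ℝ} (hσ : a < σ) (h2 : MemLp (fs k P σ) 2) :
    ∫⁻ ξ : ℝ, ‖Hf k P (σ + (2 * Real.pi * ξ : ℝ) * Complex.I)‖ₑ ^ 2 = ∫⁻ u : ℝ, ‖fs k P σ u‖ₑ ^ 2 := by
  rw [← Pool.Agent.H153R4.plancherel (fs k P σ) (fs_int h hσ) h2]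
  apply lintegral_congr
  intro ξ
  rw [fs_four, Hf_eq hk hg ha ha2 h (by simpa using hσ)]

/-- finite weighted mean square -/
def L2 (k : ℕ) (P : Polynomial ℝ) (σ : ℝ) : Prop := ∫⁻ u : ℝ, ‖fs k P σ u‖ₑ ^ 2 < ⊤

lemma L2_mem {k : ℕ} {P : Polynomial ℝ} {σ : ℝ} (h : L2 k P σ) : MemLp (fs k P σ) 2 := by
  refine ⟨(fs_meas k P σ).aestronglyMeasurable, ?_⟩
  rw [eLpNorm_lt_top_iff_lintegral_rpow_enorm_lt_top (by norm_num) (by norm_num)]
  unfold L2 at h
  simpa using h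

lemma L2_mono {k : ℕ} {P : Polynomial ℝ} {σ σ' : ℝ} (h : L2 k P σ) (hs : σ ≤ σ') :
    ∫⁻ u : ℝ, ‖fs k P σ' u‖ₑ ^ 2 ≤ ∫⁻ u : ℝ, ‖fs k P σ u‖ₑ ^ 2 := by
  apply lintegral_mono
  intro u
  apply ENNReal.pow_le_pow_left
  rw [enorm_le_iff_norm_le, fs_norm, fs_norm]
  rcases lt_or_ge u 0 with hu | hu
  · rw [fe_neg hu]; simp
  · have h3 : Real.exp (-σ' * u) ≤ Real.exp (-σ * u) := by
      apply Real.exp_le_exp.2
      nlinarith
    gcongr

lemma L2_conv {k : ℕ} {P : Polynomial ℝ} {σ : ℝ} (h : L2 k P σ) : Conv k P σ := by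
  intro σ' hσ'
  have h1 : Integrable (fun u => ‖fs k P σ u‖ ^ 2) := (L2_mem h).integrable_norm_pow (by norm_num)
  have h2 : IntegrableOn (fun u : ℝ => Real.exp (-(2 * (σ' - σ)) * u)) (Ioi 0) := int_exp_Ioi (by linarith)
  refine Integrable.mono' (h1.integrableOn.add h2) ?_ ?_
  · have := fe_meas k P
    exact Measurable.aestronglyMeasurable (by fun_prop)
  · refine Eventually.of_forall fun u => ?_
    rw [Real.norm_eq_abs, abs_mul, abs_abs, abs_of_pos (Real.exp_pos _), Pi.add_apply, fs_norm]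
    have e1 : |fe k P u| * Real.exp (-σ' * u) = (|fe k P u| * Real.exp (-σ * u)) * Real.exp (-(σ' - σ) * u) := by
      rw [mul_assoc, ← Real.exp_add]; ring_nf
    have e2 : Real.exp (-(2 * (σ' - σ)) * u) = Real.exp (-(σ' - σ) * u) ^ 2 := by
      rw [← Real.exp_nat_mul]; ring_nf
    rw [e1, e2]
    nlinarith [sq_nonneg (|fe k P u| * Real.exp (-σ * u) - Real.exp (-(σ' - σ) * u)),
      sq_nonneg (|fe k P u| * Real.exp (-σ * u)), sq_nonneg (Real.exp (-(σ' - σ) * u))]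

/-- the Mellin transform is square integrable to the right -/
theorem H_L2 {k : ℕ} (hk : 1 ≤ k) {P : Polynomial ℝ} {θ C : ℝ} (hg : Good k P θ C) {a : ℝ} (ha : 0 ≤ a) (ha2 : a < 2)
    (h : L2 k P a) {σ : ℝ} (hσ : a < σ) :
    ∫⁻ ξ : ℝ, ‖Hf k P (σ + (2 * Real.pi * ξ : ℝ) * Complex.I)‖ₑ ^ 2 < ⊤ := by
  rw [planch hk hg ha ha2 (L2_conv h) hσ (L2_mem (lt_of_le_of_lt (L2_mono h hσ.le) h))]
  exact lt_of_le_of_lt (L2_mono h hσ.le) h

end

end Pool.Agent.J4H77.PE
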