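import Pool.Agent.J4H77.PE.Grow

/-!
# The mean square of the error term from the mean square of the continuation on a vertical line
-/

set_option autoImplicit false

open Filter Topology MeasureTheory Set
open scoped ENNReal FourierTransform

namespace Pool.Agent.J4H77.PE

noncomputable section

lemma Mf_line {k : ℕ} {P : Polynomial ℝ} (σ t : ℝ) :
    Mf k P (σ + t * Complex.I) = ∫ u : ℝ, fs k P σ u * Complex.exp (-(t * u : ℝ) * Complex.I) := by
  unfold Mf
  rw [← integral_indicator measurableSet_Ioi]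
  apply integral_congr_ae
  have h0 : ∀ᵐ u : ℝ, u ≠ 0 := by
    rw [ae_iff]
    simp
  filter_upwards [h0] with u hu
  rcases lt_or_gt_of_ne hu with h1 | h1
  · rw [indicator_of_notMem (by simpa using h1.le)]
    unfold fs
    rw [fe_neg h1]
    simp
  · rw [indicator_of_mem (by simpa using h1)]
    unfold fs
    push_cast
    rw [mul_assoc, ← Complex.exp_add]
    congr 2
    ring

/-- the Gaussian integral along a vertical line -/
lemma gauss_line {ε : ℝ} (hε : 0 < ε) (w : ℝ) :
    ∫ t : ℝ, gs ε w (2 + t * Complex.I) = ((Real.sqrt (Real.pi / ε) * Real.exp (-w ^ 2 / (4 * ε)) : ℝ) : ℂ) := by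
  have e : ∀ t : ℝ, gs ε w (2 + t * Complex.I) =
      Complex.exp (-(ε : ℂ) * (t : ℂ) ^ 2 + (4 * ε + w) * Complex.I * t + (4 * ε + 2 * w)) := by
    intro t
    unfold gs
    congr 1
    linear_combination (ε * (t : ℂ) ^ 2) * Complex.I_sq
  simp_rw [e]
  rw [integral_cexp_quadratic (by simpa using hε)]
  have h1 : (Real.pi / -(-(ε : ℂ))) ^ (1 / 2 : ℂ) = ((Real.sqrt (Real.pi / ε) : ℝ) : ℂ) := by
    rw [neg_neg, Real.sqrt_eq_rpow, ← Complex.ofReal_div]
    rw [Complex.ofReal_cpow (by positivity)]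
    norm_num
  rw [h1]
  push_cast
  congr 2
  have hε0 : (ε : ℂ) ≠ 0 := by exact_mod_cast hε.ne'
  field_simp
  linear_combination ((4 * ε + w) ^ 2 : ℂ) * Complex.I_sq

/-- the smoothed error term -/
def phi (k : ℕ) (P : Polynomial ℝ) (ε v : ℝ) : ℝ := ∫ u : ℝ, fe k P u * Real.exp (-(v - u) ^ 2 / (4 * ε))

lemma gauss_t_int {ε : ℝ} (hε : 0 < ε) (c : ℝ) : Integrable (fun t : ℝ => Real.exp (c - ε * t ^ 2)) := by
  have h := (integrable_exp_neg_mul_sq hε).const_mul (Real.exp c)
  refine h.congr (Eventually.of_forall fun t => ?_)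
  simp only
  rw [← Real.exp_add]
  ring_nf

theorem line_two {k : ℕ} (hk : 1 ≤ k) {P : Polynomial ℝ} {θ C : ℝ} (hg : Good k P θ C) {ε : ℝ} (hε : 0 < ε) (v : ℝ) :
    ∫ y : ℝ, Hf k P ((2 : ℝ) + y * Complex.I) * gs ε v ((2 : ℝ) + y * Complex.I) =
      ((Real.sqrt (Real.pi / ε) * phi k P ε v : ℝ) : ℂ) := by
  have hc := conv_good hg
  have hi := fs_int hc (σ := 2) (by linarith [hg.2.1])
  have e1 : ∀ y : ℝ, Hf k P ((2 : ℝ) + y * Complex.I) * gs ε v ((2 : ℝ) + y * Complex.I) =
      ∫ u : ℝ, fs k P 2 u * Complex.exp (-(y * u : ℝ) * Complex.I) * gs ε v ((2 : ℝ) + y * Complex.I) := by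
    intro y
    rw [Hf_eq hk hg hg.1.le (by linarith [hg.2.1]) hc (by simp; linarith [hg.2.1]), Mf_line, integral_mul_const]
  simp_rw [e1]
  rw [integral_integral_swap]
  · have e2 : ∀ u : ℝ, ∫ y : ℝ, fs k P 2 u * Complex.exp (-(y * u : ℝ) * Complex.I) * gs ε v ((2 : ℝ) + y * Complex.I) =
        ((Real.sqrt (Real.pi / ε) * (fe k P u * Real.exp (-(v - u) ^ 2 / (4 * ε))) : ℝ) : ℂ) := by
      intro u
      have e3 : ∀ y : ℝ, fs k P 2 u * Complex.exp (-(y * u : ℝ) * Complex.I) * gs ε v ((2 : ℝ) + y * Complex.I) =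
          (fe k P u : ℂ) * gs ε (v - u) (2 + y * Complex.I) := by
        intro y
        unfold fs gs
        push_cast
        rw [mul_assoc, mul_assoc, ← Complex.exp_add, ← Complex.exp_add]
        congr 2
        ring
      simp_rw [e3]
      rw [integral_const_mul, gauss_line hε]
      push_cast
      ring
    simp_rw [e2]
    rw [integral_complex_ofReal, integral_const_mul]
    rfl
  · have h1 : Integrable (fun p : ℝ × ℝ => Real.exp (4 * ε + 2 * v - ε * p.1 ^ 2) * ‖fs k P 2 p.2‖) (volume.prod volume) :=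
      (gauss_t_int hε _).mul_prod hi.norm
    refine Integrable.mono' h1 ?_ ?_
    · refine Measurable.aestronglyMeasurable ?_
      have hm := fs_meas k P 2
      unfold gs
      have hm2 : Measurable (fun p : ℝ × ℝ => fs k P 2 p.2) := hm.comp measurable_snd
      show Measurable (fun p : ℝ × ℝ => fs k P 2 p.2 * Complex.exp (-(p.1 * p.2 : ℝ) * Complex.I) *
        Complex.exp (ε * ((2 : ℝ) + p.1 * Complex.I) ^ 2 + ((2 : ℝ) + p.1 * Complex.I) * v))
      fun_prop
    · refine Eventually.of_forall fun p => ?_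
      show ‖fs k P 2 p.2 * Complex.exp (-(p.1 * p.2 : ℝ) * Complex.I) * gs ε v ((2 : ℝ) + p.1 * Complex.I)‖ ≤ _
      rw [norm_mul, norm_mul, gs_norm]
      have e4 : ‖Complex.exp (-(p.1 * p.2 : ℝ) * Complex.I)‖ = 1 := by
        rw [← Complex.ofReal_neg, Complex.norm_exp_ofReal_mul_I]
      rw [e4, mul_one, mul_comm]
      apply le_of_eq
      congr 2
      simp
      ring

end

end Pool.Agent.J4H77.PE
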