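import Pool.Agent.J4H77.PE.Pl2

/-!
# The mean square of the error term from the mean square of the continuation on a vertical line: end of the proof
-/

set_option autoImplicit false

open Filter Topology MeasureTheory Set
open scoped ENNReal FourierTransform

namespace Pool.Agent.J4H77.PE

noncomputable section

/-- the square integral of the continuation on a line -/
def AH (k : ℕ) (P : Polynomial ℝ) (σ : ℝ) : ℝ≥0∞ := ∫⁻ ξ : ℝ, ‖Hf k P (σ + (2 * Real.pi * ξ : ℝ) * Complex.I)‖ₑ ^ 2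

lemma line_cont {k : ℕ} (hk : 1 ≤ k) {P : Polynomial ℝ} {θ C : ℝ} (hg : Good k P θ C) {σ : ℝ} (hσ : 0 < σ) :
    Continuous (fun y : ℝ => Hf k P (σ + y * Complex.I)) := by
  refine Pool.Agent.E8helper52.OR.cont_line (fun z hz => Hf_diff hk hg ?_)
  intro h0
  rw [h0] at hz
  simp at hz
  linarith

lemma line_int {k : ℕ} (hk : 1 ≤ k) {P : Polynomial ℝ} {θ C : ℝ} (hg : Good k P θ C) {σ : ℝ} (hσ : 0 < σ) (hσ2 : σ ≤ 2)
    {ε : ℝ} (hε : 0 < ε) (v : ℝ) :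
    Integrable (fun y : ℝ => Hf k P (σ + y * Complex.I) * gs ε v (σ + y * Complex.I)) := by
  obtain ⟨C', hC', h⟩ := Hgs_bound k P hε v
  have hc : Continuous (fun y : ℝ => Hf k P (σ + y * Complex.I) * gs ε v (σ + y * Complex.I)) := by
    refine (line_cont hk hg hσ).mul ?_
    unfold gs
    fun_prop
  obtain ⟨C'', -, h2⟩ := Pool.Agent.E8helper52.OR.global_bd hc hC' (le_refl 1) (fun y hy => by
    have := h (σ + y * Complex.I) (by simp; linarith) (by simpa using hσ2) (by simpa using hy)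
    simpa using this)
  exact Pool.Agent.E8helper52.OR.integrable_of_bd hc h2

theorem phi_L2 {k : ℕ} (hk : 1 ≤ k) {P : Polynomial ℝ} {θ C : ℝ} (hg : Good k P θ C) {σ : ℝ} (hσ : 0 < σ) (hσ2 : σ ≤ 2)
    {ε : ℝ} (hε : 0 < ε) (hA : AH k P σ < ⊤) :
    ∫⁻ v : ℝ, ‖(1 / (2 * Real.pi) * Real.sqrt (Real.pi / ε) * phi k P ε v) * Real.exp (-σ * v)‖ₑ ^ 2 ≤
      ENNReal.ofReal (Real.exp (2 * ε * σ ^ 2)) * AH k P σ := by
  obtain ⟨g, hgd⟩ : ∃ g : ℝ → ℂ, g = fun ξ => Hf k P (σ + (2 * Real.pi * ξ : ℝ) * Complex.I) *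
    gs ε 0 (σ + (2 * Real.pi * ξ : ℝ) * Complex.I) := ⟨_, rfl⟩
  have hpi : (2 * Real.pi : ℝ) ≠ 0 := by positivity
  have hgi : Integrable g := by
    have h1 := line_int hk hg hσ hσ2 hε 0
    have h2 := h1.comp_mul_left' hpi
    rw [hgd]
    exact h2
  have hgn : ∀ ξ, ‖g ξ‖ₑ ^ 2 ≤ ENNReal.ofReal (Real.exp (2 * ε * σ ^ 2)) * ‖Hf k P (σ + (2 * Real.pi * ξ : ℝ) * Complex.I)‖ₑ ^ 2 := by
    intro ξ
    rw [hgd]
    simp only
    rw [enorm_mul, mul_pow, mul_comm]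
    gcongr
    rw [← ofReal_norm, ← ENNReal.ofReal_pow (norm_nonneg _)]
    apply ENNReal.ofReal_le_ofReal
    rw [gs_norm, ← Real.exp_nat_mul]
    apply Real.exp_le_exp.2
    simp
    nlinarith [sq_nonneg (2 * Real.pi * ξ)]
  have hgint : ∫⁻ ξ, ‖g ξ‖ₑ ^ 2 ≤ ENNReal.ofReal (Real.exp (2 * ε * σ ^ 2)) * AH k P σ := by
    unfold AH
    rw [← lintegral_const_mul']
    · exact lintegral_mono hgn
    · exact ENNReal.ofReal_ne_top
  have hg2 : MemLp g 2 := by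
    refine ⟨hgi.aestronglyMeasurable, ?_⟩
    rw [eLpNorm_lt_top_iff_lintegral_rpow_enorm_lt_top (by norm_num) (by norm_num)]
    have h3 : ∫⁻ ξ, ‖g ξ‖ₑ ^ 2 < ⊤ := lt_of_le_of_lt hgint (ENNReal.mul_lt_top ENNReal.ofReal_lt_top hA)
    simpa using h3
  have hF : ∀ v : ℝ, 𝓕 g (-v) = (((1 / (2 * Real.pi) * Real.sqrt (Real.pi / ε) * phi k P ε v) * Real.exp (-σ * v) : ℝ) : ℂ) := by
    intro v
    have h1 := shift hk hg hε v hσ hσ2 (le_refl (2:ℝ))
    rw [line_two hk hg hε v] at h1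
    have h2 : ∫ ξ : ℝ, Hf k P (σ + ((2 * Real.pi * ξ : ℝ) : ℂ) * Complex.I) * gs ε v (σ + ((2 * Real.pi * ξ : ℝ) : ℂ) * Complex.I) =
        |(2 * Real.pi)⁻¹| • ∫ y : ℝ, Hf k P (σ + y * Complex.I) * gs ε v (σ + y * Complex.I) :=
      Measure.integral_comp_mul_left (fun y : ℝ => Hf k P (σ + y * Complex.I) * gs ε v (σ + y * Complex.I)) (2 * Real.pi)
    rw [h1] at h2
    have h3 : 𝓕 g (-v) = Complex.exp (-σ * v) * ∫ ξ : ℝ, Hf k P (σ + ((2 * Real.pi * ξ : ℝ) : ℂ) * Complex.I) *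
        gs ε v (σ + ((2 * Real.pi * ξ : ℝ) : ℂ) * Complex.I) := by
      rw [Real.fourier_eq', ← integral_const_mul]
      apply integral_congr_ae
      refine Eventually.of_forall fun ξ => ?_
      simp only
      rw [hgd]
      simp only [smul_eq_mul, RCLike.inner_apply, conj_trivial]
      unfold gs
      rw [mul_left_comm, mul_left_comm (Complex.exp (-(σ : ℂ) * v)), ← Complex.exp_add, ← Complex.exp_add]
      congr 2
      push_cast
      ring
    rw [h3, h2, abs_of_pos (by positivity), Complex.real_smul]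
    push_cast
    rw [show Complex.exp (-(σ : ℂ) * v) = ((Real.exp (-σ * v) : ℝ) : ℂ) by push_cast; rfl]
    push_cast
    ring
  have h4 : ∫⁻ v : ℝ, ‖(1 / (2 * Real.pi) * Real.sqrt (Real.pi / ε) * phi k P ε v) * Real.exp (-σ * v)‖ₑ ^ 2 =
      ∫⁻ v : ℝ, ‖𝓕 g v‖ₑ ^ 2 := by
    rw [← lintegral_neg_eq_self (f := fun v => ‖𝓕 g v‖ₑ ^ 2)]
    apply lintegral_congr
    intro v
    rw [hF v]
    congr 1
    rw [← ofReal_norm, ← ofReal_norm, Complex.norm_real]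
  rw [h4, Pool.Agent.H153R4.plancherel g hgi hg2]
  exact hgint

end

end Pool.Agent.J4H77.PE
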