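import Pool.Agent.J4H77.PE.Pl3

/-!
# The limit of the smoothed error terms
-/

set_option autoImplicit false

open Filter Topology MeasureTheory Set
open scoped ENNReal FourierTransform

namespace Pool.Agent.J4H77.PE

noncomputable section

lemma D_locConst (k : ℕ) {x : ℝ} (hx : 0 ≤ x) (h : ∀ n : ℕ, (n : ℝ) ≠ x) : ∀ᶠ y in 𝓝 x, D k y = D k x := by
  have h1 : (⌊x⌋₊ : ℝ) < x := lt_of_le_of_ne (Nat.floor_le hx) (h _)
  have h2 : x < ⌊x⌋₊ + 1 := Nat.lt_floor_add_one x
  filter_upwards [Ioo_mem_nhds h1 h2] with y hy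
  have h3 : ⌊y⌋₊ = ⌊x⌋₊ := by
    rw [Nat.floor_eq_iff (le_trans (Nat.cast_nonneg _) hy.1.le)]
    exact ⟨hy.1.le, hy.2⟩
  unfold D
  rw [h3]

lemma fe_contAt (k : ℕ) (P : Polynomial ℝ) {v : ℝ} (hv : v ≠ 0) (h : ∀ n : ℕ, (n : ℝ) ≠ Real.exp v) : ContinuousAt (fe k P) v := by
  rcases lt_or_gt_of_ne hv with h1 | h1
  · have h2 : fe k P =ᶠ[𝓝 v] fun _ => 0 := by
      filter_upwards [Iio_mem_nhds h1] with u hu
      exact fe_neg hu
    exact (continuousAt_const).congr h2.symm
  · have h2 : fe k P =ᶠ[𝓝 v] fun u => D k (Real.exp v) - Real.exp u * P.eval u := by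
      have h3 := (Real.continuous_exp.tendsto v).eventually (D_locConst k (Real.exp_pos v).le h)
      filter_upwards [Ioi_mem_nhds h1, h3] with u hu hu2
      rw [fe_pos (le_of_lt hu)]
      unfold err
      rw [hu2, Real.log_exp]
    refine ContinuousAt.congr ?_ h2.symm
    have := P.continuous
    fun_prop

lemma fe_ae (k : ℕ) (P : Polynomial ℝ) : ∀ᵐ v : ℝ, ContinuousAt (fe k P) v := by
  have hc : (({0} : Set ℝ) ∪ Set.range (fun n : ℕ => Real.log n)).Countable :=
    (countable_singleton _).union (countable_range _)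
  filter_upwards [hc.ae_notMem volume] with v hv
  rw [mem_union, not_or] at hv
  refine fe_contAt k P (fun h => hv.1 (by rw [h]; exact mem_singleton _)) fun n hn => hv.2 ⟨n, ?_⟩
  simp only
  rw [hn, Real.log_exp]

/-- the sequence of scales -/
def en (n : ℕ) : ℝ := 1 / (4 * ((n : ℝ) + 1) ^ 2)

lemma en_pos (n : ℕ) : 0 < en n := by unfold en; positivity

lemma phi_eq (k : ℕ) (P : Polynomial ℝ) (n : ℕ) (v : ℝ) :
    1 / (2 * Real.pi) * Real.sqrt (Real.pi / en n) * phi k P (en n) v =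
      1 / Real.sqrt Real.pi * ∫ y : ℝ, fe k P (v - y / ((n : ℝ) + 1)) * Real.exp (-y ^ 2) := by
  have hN : (0 : ℝ) < (n : ℝ) + 1 := by positivity
  have h1 : phi k P (en n) v = ∫ x : ℝ, fe k P (v - x) * Real.exp (-(((n : ℝ) + 1) * x) ^ 2) := by
    unfold phi
    rw [← integral_sub_left_eq_self (fun u => fe k P u * Real.exp (-(v - u) ^ 2 / (4 * en n))) volume v]
    apply integral_congr_ae
    refine Eventually.of_forall fun x => ?_
    simp only
    congr 2
    unfold en
    field_simp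
    ring
  have h2 : ∫ y : ℝ, fe k P (v - y / ((n : ℝ) + 1)) * Real.exp (-y ^ 2) =
      ((n : ℝ) + 1) * ∫ x : ℝ, fe k P (v - x) * Real.exp (-(((n : ℝ) + 1) * x) ^ 2) := by
    have h3 := Measure.integral_comp_div (fun x : ℝ => fe k P (v - x) * Real.exp (-(((n : ℝ) + 1) * x) ^ 2)) ((n : ℝ) + 1)
    rw [abs_of_pos hN, smul_eq_mul] at h3
    rw [← h3]
    apply integral_congr_ae
    refine Eventually.of_forall fun y => ?_
    simp only
    congr 3
    field_simp
  rw [h2, ← h1]
  have h4 : Real.sqrt (Real.pi / en n) = 2 * ((n : ℝ) + 1) * Real.sqrt Real.pi := by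
    have e : Real.pi / en n = (2 * ((n : ℝ) + 1)) ^ 2 * Real.pi := by
      unfold en
      field_simp
      ring
    rw [e, Real.sqrt_mul (by positivity), Real.sqrt_sq (by positivity)]
  rw [h4]
  have h5 : Real.sqrt Real.pi ≠ 0 := (Real.sqrt_pos.2 Real.pi_pos).ne'
  have h6 : Real.sqrt Real.pi ^ 2 = Real.pi := Real.sq_sqrt Real.pi_pos.le
  have h7 := Real.pi_pos.ne'
  have h8 : 1 / (2 * Real.pi) * (2 * ((n : ℝ) + 1) * Real.sqrt Real.pi) = 1 / Real.sqrt Real.pi * ((n : ℝ) + 1) := by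
    obtain ⟨r, hr⟩ : ∃ r, r = Real.sqrt Real.pi := ⟨_, rfl⟩
    rw [← hr] at h5 h6 ⊢
    rw [← h6]
    field_simp
  rw [h8, mul_assoc]

theorem phi_tendsto {k : ℕ} {P : Polynomial ℝ} {θ C : ℝ} (hg : Good k P θ C) {v : ℝ} (hv : ContinuousAt (fe k P) v) :
    Tendsto (fun n : ℕ => 1 / (2 * Real.pi) * Real.sqrt (Real.pi / en n) * phi k P (en n) v) atTop (𝓝 (fe k P v)) := by
  simp_rw [phi_eq]
  have h1 : Tendsto (fun n : ℕ => ∫ y : ℝ, fe k P (v - y / ((n : ℝ) + 1)) * Real.exp (-y ^ 2)) atTop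
      (𝓝 (∫ y : ℝ, fe k P v * Real.exp (-y ^ 2))) := by
    apply tendsto_integral_of_dominated_convergence (fun y : ℝ => C * Real.exp (|v| + 1 / 2) * Real.exp (-(1 / 2) * y ^ 2))
    · intro n
      have := fe_meas k P
      exact Measurable.aestronglyMeasurable (by fun_prop)
    · exact (integrable_exp_neg_mul_sq (by norm_num)).const_mul _
    · intro n
      refine Eventually.of_forall fun y => ?_
      rw [norm_mul, Real.norm_eq_abs, Real.norm_eq_abs, abs_of_pos (Real.exp_pos _)]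
      have h2 := fe_le hg (v - y / ((n : ℝ) + 1))
      have h3 : θ * (v - y / ((n : ℝ) + 1)) ≤ |v| + |y| := by
        have h4 : |v - y / ((n : ℝ) + 1)| ≤ |v| + |y| := by
          refine (abs_sub _ _).trans (add_le_add le_rfl ?_)
          rw [abs_div]
          apply div_le_self (abs_nonneg _)
          rw [abs_of_pos (by positivity)]
          have : (0 : ℝ) ≤ n := Nat.cast_nonneg _
          linarith
        calc θ * (v - y / ((n : ℝ) + 1)) ≤ |θ * (v - y / ((n : ℝ) + 1))| := le_abs_self _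
          _ = θ * |v - y / ((n : ℝ) + 1)| := by rw [abs_mul, abs_of_pos hg.1]
          _ ≤ 1 * (|v| + |y|) := mul_le_mul hg.2.1.le h4 (abs_nonneg _) zero_le_one
          _ = _ := one_mul _
      have h5 : |y| ≤ 1 / 2 + 1 / 2 * y ^ 2 := by
        rw [← sq_abs y]
        nlinarith [sq_nonneg (|y| - 1)]
      calc |fe k P (v - y / ((n : ℝ) + 1))| * Real.exp (-y ^ 2) ≤
          (C * Real.exp (|v| + |y|)) * Real.exp (-y ^ 2) := by
            apply mul_le_mul_of_nonneg_right _ (Real.exp_pos _).le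
            exact h2.trans (mul_le_mul_of_nonneg_left (Real.exp_le_exp.2 h3) hg.2.2.1)
        _ = C * Real.exp (|v| + |y| - y ^ 2) := by
            rw [mul_assoc, ← Real.exp_add]
            ring_nf
        _ ≤ C * Real.exp ((|v| + 1 / 2) + (-(1 / 2) * y ^ 2)) := by
            apply mul_le_mul_of_nonneg_left _ hg.2.2.1
            apply Real.exp_le_exp.2
            linarith
        _ = _ := by rw [Real.exp_add, mul_assoc]
    · refine Eventually.of_forall fun y => ?_
      have h2 : Tendsto (fun n : ℕ => v - y / ((n : ℝ) + 1)) atTop (𝓝 v) := by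
        have h3 : Tendsto (fun n : ℕ => y / ((n : ℝ) + 1)) atTop (𝓝 0) := by
          refine Tendsto.div_atTop tendsto_const_nhds ?_
          exact tendsto_atTop_add_const_right _ _ tendsto_natCast_atTop_atTop
        have := h3.const_sub v
        simpa using this
      exact (hv.tendsto.comp h2).mul_const _
  have h2 := h1.const_mul (1 / Real.sqrt Real.pi)
  rw [integral_const_mul] at h2
  have h3 : ∫ y : ℝ, Real.exp (-y ^ 2) = Real.sqrt Real.pi := by
    have := integral_gaussian 1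
    simpa using this
  rw [h3] at h2
  have h5 : Real.sqrt Real.pi ≠ 0 := (Real.sqrt_pos.2 Real.pi_pos).ne'
  have h6 : 1 / Real.sqrt Real.pi * (fe k P v * Real.sqrt Real.pi) = fe k P v := by field_simp
  rw [h6] at h2
  exact h2

lemma fs_enorm (k : ℕ) (P : Polynomial ℝ) (σ u : ℝ) : ‖fs k P σ u‖ₑ = ‖fe k P u * Real.exp (-σ * u)‖ₑ := by
  unfold fs
  rw [← ofReal_norm, ← ofReal_norm, Complex.norm_real]

/-- from the continuation to the error term -/
theorem L2_of_AH {k : ℕ} (hk : 1 ≤ k) {P : Polynomial ℝ} {θ C : ℝ} (hg : Good k P θ C) {σ : ℝ} (hσ : 0 < σ) (hσ2 : σ ≤ 2)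
    (hA : AH k P σ < ⊤) : L2 k P σ := by
  have hm := fe_meas k P
  have hphi : ∀ n : ℕ, Measurable (fun v : ℝ => phi k P (en n) v) := by
    intro n
    unfold phi
    refine (StronglyMeasurable.integral_prod_right (f := fun v u : ℝ => fe k P u * Real.exp (-(v - u) ^ 2 / (4 * en n))) ?_).measurable
    refine Measurable.stronglyMeasurable ?_
    have : Measurable (fun p : ℝ × ℝ => fe k P p.2) := hm.comp measurable_snd
    show Measurable (fun p : ℝ × ℝ => fe k P p.2 * Real.exp (-(p.1 - p.2) ^ 2 / (4 * en n)))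
    fun_prop
  have h1 : ∀ᵐ v : ℝ, Tendsto (fun n : ℕ => ‖(1 / (2 * Real.pi) * Real.sqrt (Real.pi / en n) * phi k P (en n) v) * Real.exp (-σ * v)‖ₑ ^ 2)
      atTop (𝓝 (‖fs k P σ v‖ₑ ^ 2)) := by
    filter_upwards [fe_ae k P] with v hv
    have h2 := (phi_tendsto hg hv).mul_const (Real.exp (-σ * v))
    have h3 := (continuous_enorm.tendsto _).comp h2
    have h4 := ((ENNReal.continuous_pow 2).tendsto _).comp h3
    rw [fs_enorm]
    exact h4
  have h2 : ∫⁻ v : ℝ, ‖fs k P σ v‖ₑ ^ 2 ≤ liminf (fun n : ℕ =>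
      ∫⁻ v : ℝ, ‖(1 / (2 * Real.pi) * Real.sqrt (Real.pi / en n) * phi k P (en n) v) * Real.exp (-σ * v)‖ₑ ^ 2) atTop := by
    calc ∫⁻ v : ℝ, ‖fs k P σ v‖ₑ ^ 2 = ∫⁻ v : ℝ, liminf (fun n : ℕ =>
          ‖(1 / (2 * Real.pi) * Real.sqrt (Real.pi / en n) * phi k P (en n) v) * Real.exp (-σ * v)‖ₑ ^ 2) atTop := by
          apply lintegral_congr_ae
          filter_upwards [h1] with v hv
          exact hv.liminf_eq.symm
      _ ≤ _ := by
          apply lintegral_liminf_le
          intro n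
          have := hphi n
          fun_prop
  have h3 : liminf (fun n : ℕ =>
      ∫⁻ v : ℝ, ‖(1 / (2 * Real.pi) * Real.sqrt (Real.pi / en n) * phi k P (en n) v) * Real.exp (-σ * v)‖ₑ ^ 2) atTop ≤
      ENNReal.ofReal (Real.exp (2 * σ ^ 2)) * AH k P σ := by
    apply liminf_le_of_le (by isBoundedDefault)
    intro b hb
    obtain ⟨n, hn⟩ := hb.exists
    refine hn.trans ((phi_L2 hk hg hσ hσ2 (en_pos n) hA).trans ?_)
    gcongr
    have : en n ≤ 1 := by
      unfold en
      rw [div_le_one (by positivity)]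
      have : (0 : ℝ) ≤ n := Nat.cast_nonneg _
      nlinarith
    nlinarith [sq_nonneg σ]
  unfold L2
  exact lt_of_le_of_lt (h2.trans h3) (ENNReal.mul_lt_top ENNReal.ofReal_lt_top hA)

end

end Pool.Agent.J4H77.PE
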