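import Pool.Agent.J4H77.PE.Low2

/-!
# The structure of the exponents of the mean square
-/

set_option autoImplicit false

open Filter Topology MeasureTheory Set
open scoped ComplexConjugate

namespace Pool.Agent.J4H77.PE

noncomputable section

/-- the exponent of the mean square -/
def bet (k : ℕ) (P : Polynomial ℝ) : ℝ := sInf (BetaSet k P)

/-- some power saving -/
def Sav (k : ℕ) (P : Polynomial ℝ) : Prop := ∃ θ C : ℝ, θ < 1 ∧ ∀ x : ℝ, 1 ≤ x → |err k P x| ≤ C * x ^ θ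

lemma Sav.good {k : ℕ} {P : Polynomial ℝ} (h : Sav k P) : ∃ θ C : ℝ, Good k P θ C := by
  obtain ⟨θ, C, h1, h2⟩ := h
  refine ⟨max θ (1 / 2), max C 0, by positivity, max_lt h1 (by norm_num), le_max_right _ _, fun x hx => (h2 x hx).trans ?_⟩
  have h3 : 0 < x ^ θ := Real.rpow_pos_of_pos (by linarith) _
  have h4 : x ^ θ ≤ x ^ (max θ (1 / 2)) := Real.rpow_le_rpow_of_exponent_le hx (le_max_left _ _)
  calc C * x ^ θ ≤ max C 0 * x ^ θ := mul_le_mul_of_nonneg_right (le_max_left _ _) h3.le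
    _ ≤ _ := mul_le_mul_of_nonneg_left h4 (le_max_right _ _)

lemma exists_sav (k : ℕ) (hk : 1 ≤ k) : ∃ P : Polynomial ℝ, Sav k P := by
  obtain ⟨P, θ, C, h⟩ := exists_good k hk
  exact ⟨P, θ, C, h.2.1, h.2.2.2⟩

lemma beta_lower {k : ℕ} (hk : 2 ≤ k) {P : Polynomial ℝ} (h : Sav k P) {b : ℝ} (hb : b ∈ BetaSet k P) :
    ((k : ℝ) - 1) / (2 * k) ≤ b := by
  obtain ⟨θ, C, hg⟩ := h.good
  have hk0 : (2 : ℝ) ≤ k := by exact_mod_cast hk
  by_contra hcon
  push Not at hcon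
  have e : ((k : ℝ) - 1) / (2 * k) = 1 / 2 - 1 / (2 * k) := by field_simp
  have hpos : 0 < ((k : ℝ) - 1) / (2 * k) := by
    apply div_pos <;> linarith
  obtain ⟨σ, h1, h2⟩ := exists_between (max_lt hcon hpos)
  have h3 : b < σ := lt_of_le_of_lt (le_max_left _ _) h1
  have h4 : 0 < σ := lt_of_le_of_lt (le_max_right _ _) h1
  have h5 : 0 < 1 / (2 * (k : ℝ)) := by positivity
  have h6 := low_exp (m := 2 * k) (by omega) h4 (by linarith) (Int_of_beta (by omega) hg hb h3 h4 (by linarith))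
  push_cast at h6
  have h7 : 2 * (k : ℝ) * (1 / 2 - σ) > 2 * k * (1 / (2 * k)) := by
    apply mul_lt_mul_of_pos_left _ (by positivity)
    linarith
  have h8 : 2 * (k : ℝ) * (1 / (2 * k)) = 1 := by field_simp
  linarith

lemma beta_ne {k : ℕ} {P : Polynomial ℝ} (h : Sav k P) : (BetaSet k P).Nonempty := by
  obtain ⟨θ, C, hg⟩ := h.good
  exact ⟨θ, beta_of_point hg⟩

lemma beta_bdd {k : ℕ} (hk : 2 ≤ k) {P : Polynomial ℝ} (h : Sav k P) : BddBelow (BetaSet k P) :=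
  ⟨_, fun _ hb => beta_lower hk h hb⟩

theorem bet_lower {k : ℕ} (hk : 2 ≤ k) {P : Polynomial ℝ} (h : Sav k P) : ((k : ℝ) - 1) / (2 * k) ≤ bet k P :=
  le_csInf (beta_ne h) fun _ hb => beta_lower hk h hb

lemma bet_nonneg {k : ℕ} (hk : 2 ≤ k) {P : Polynomial ℝ} (h : Sav k P) : 0 ≤ bet k P := by
  refine le_trans ?_ (bet_lower hk h)
  have hk0 : (2 : ℝ) ≤ k := by exact_mod_cast hk
  apply div_nonneg <;> linarith

lemma bet_le_one {k : ℕ} (hk : 2 ≤ k) {P : Polynomial ℝ} (h : Sav k P) : bet k P ≤ 1 := by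
  obtain ⟨θ, C, hg⟩ := h.good
  exact (csInf_le (beta_bdd hk h) (beta_of_point hg)).trans hg.2.1.le

lemma mem_of_gt {k : ℕ} {P : Polynomial ℝ} (h : Sav k P) {b : ℝ} (hb : bet k P < b) : b ∈ BetaSet k P := by
  obtain ⟨b', h1, h2⟩ := exists_lt_of_csInf_lt (beta_ne h) hb
  exact BetaSet_up h1 h2.le

lemma Int_of_gt {k : ℕ} (hk : 2 ≤ k) {P : Polynomial ℝ} (h : Sav k P) {σ : ℝ} (hb : bet k P < σ) (h2 : σ ≤ 2) : Int (2 * k) σ := by
  obtain ⟨θ, C, hg⟩ := h.good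
  obtain ⟨b, h3, h4⟩ := exists_between hb
  exact Int_of_beta (by omega) hg (mem_of_gt h h3) h4 (lt_of_le_of_lt (bet_nonneg hk h) hb) h2

lemma bet_le_of_Int {k : ℕ} (hk : 2 ≤ k) {P : Polynomial ℝ} (h : Sav k P) {σ : ℝ} (h0 : 0 < σ) (h2 : σ ≤ 2) (hI : Int (2 * k) σ) :
    bet k P ≤ σ := by
  obtain ⟨θ, C, hg⟩ := h.good
  exact csInf_le (beta_bdd hk h) (beta_of_Int (by omega) hg h0 h2 hI)

/-- general form of the convexity -/
lemma conv_gen {j k l : ℕ} (hj : 1 ≤ j) (hjk : j < k) (hkl : k < l) {P : Polynomial ℝ} (h : Sav k P) {a b : ℝ}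
    (ha : 0 ≤ a) (ha1 : a ≤ 1) (hb : 0 ≤ b) (hb1 : b ≤ 1)
    (hA : ∀ σ : ℝ, a < σ → σ ≤ 2 → Int (2 * j) σ) (hB : ∀ σ : ℝ, b < σ → σ ≤ 2 → Int (2 * l) σ) :
    (1 / (j : ℝ) - 1 / l) * bet k P ≤ (1 / (k : ℝ) - 1 / l) * a + (1 / (j : ℝ) - 1 / k) * b := by
  have hj0 : (0 : ℝ) < j := by exact_mod_cast hj
  have hk0 : (j : ℝ) < k := by exact_mod_cast hjk
  have hl0 : (k : ℝ) < l := by exact_mod_cast hkl
  have h1 : 1 / (k : ℝ) < 1 / j := one_div_lt_one_div_of_lt hj0 hk0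
  have h2 : 1 / (l : ℝ) < 1 / k := one_div_lt_one_div_of_lt (by linarith) hl0
  obtain ⟨S, hS⟩ : ∃ S, S = 1 / (j : ℝ) - 1 / l := ⟨_, rfl⟩
  have hS0 : 0 < S := by linarith
  obtain ⟨ϑ, hϑ⟩ : ∃ ϑ, ϑ = (1 / (j : ℝ) - 1 / k) / S := ⟨_, rfl⟩
  have hϑ' : 1 - ϑ = (1 / (k : ℝ) - 1 / l) / S := by
    rw [eq_div_iff hS0.ne', sub_mul, hϑ, div_mul_cancel₀ _ hS0.ne', one_mul, hS]
    ring
  have hϑ0 : 0 ≤ ϑ := by rw [hϑ]; apply div_nonneg <;> linarith
  have hϑ1 : ϑ ≤ 1 := by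
    have : 0 ≤ 1 - ϑ := by rw [hϑ']; apply div_nonneg <;> linarith
    linarith
  have hex : (1 - ϑ) * ((2 * k : ℕ) : ℝ) / ((2 * j : ℕ) : ℝ) + ϑ * ((2 * k : ℕ) : ℝ) / ((2 * l : ℕ) : ℝ) = 1 := by
    have hk1 : (k : ℝ) ≠ 0 := by linarith
    have hl1 : (l : ℝ) ≠ 0 := by linarith
    have e1 : (1 - ϑ) / j + ϑ / l = 1 / k := by
      have e2 : ϑ * S = 1 / j - 1 / k := by rw [hϑ, div_mul_cancel₀ _ hS0.ne']
      have e3 : (1 - ϑ) / j + ϑ / l = 1 / j - ϑ * S := by rw [hS]; ring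
      rw [e3, e2]
      ring
    push_cast
    calc (1 - ϑ) * (2 * k) / (2 * j) + ϑ * (2 * k) / (2 * l) = ((1 - ϑ) / j + ϑ / l) * k := by field_simp
      _ = 1 := by rw [e1]; field_simp
  have hmain : bet k P ≤ (1 - ϑ) * a + ϑ * b := by
    apply le_of_forall_pos_lt_add
    intro ε hε
    obtain ⟨σ, h3, h4, h5⟩ := Int_conv (m := 2 * k) (by omega) (by omega) ha hb ha1 hb1 hϑ0 hϑ1 hex hA hB
      (ε := min ε 1) (by positivity)
    have h6 : 0 ≤ (1 - ϑ) * a + ϑ * b := by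
      have : 0 ≤ 1 - ϑ := by linarith
      positivity
    have h7 : (1 - ϑ) * a + ϑ * b ≤ 1 := by nlinarith
    have h8 := bet_le_of_Int (by omega) h (σ := σ) (by linarith) (by linarith [min_le_right ε 1]) h5
    linarith [min_le_left ε 1]
  rw [← hS]
  calc S * bet k P ≤ S * ((1 - ϑ) * a + ϑ * b) := by gcongr
    _ = _ := by
        rw [hϑ', hϑ]
        field_simp

/-- convexity of the exponent as a function of `1 / k` -/
theorem bet_convex {j k l : ℕ} (hj : 2 ≤ j) (hjk : j < k) (hkl : k < l) {Pj Pk Pl : Polynomial ℝ}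
    (h1 : Sav j Pj) (h2 : Sav k Pk) (h3 : Sav l Pl) :
    (1 / (j : ℝ) - 1 / l) * bet k Pk ≤ (1 / (k : ℝ) - 1 / l) * bet j Pj + (1 / (j : ℝ) - 1 / k) * bet l Pl :=
  conv_gen (by omega) hjk hkl h2 (bet_nonneg hj h1) (bet_le_one hj h1) (bet_nonneg (by omega) h3) (bet_le_one (by omega) h3)
    (fun _ hs hs2 => Int_of_gt hj h1 hs hs2) (fun _ hs hs2 => Int_of_gt (by omega) h3 hs hs2)

/-- monotonicity of the normalised exponent -/
theorem bet_mono {k l : ℕ} (hk : 2 ≤ k) (hkl : k < l) {Pk Pl : Polynomial ℝ}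
    (h2 : Sav k Pk) (h3 : Sav l Pl) : (1 - 1 / (l : ℝ)) * bet k Pk ≤ (1 - 1 / (k : ℝ)) * bet l Pl := by
  have h := conv_gen (j := 1) le_rfl (by omega) hkl h2 le_rfl zero_le_one (bet_nonneg (by omega) h3) (bet_le_one (by omega) h3)
    (fun σ hs hs2 => Int_two hs hs2) (fun σ hs hs2 => Int_of_gt (by omega) h3 hs hs2)
  simpa using h

/-- the abscissas at which zeta is of order zero -/
def LindSet : Set ℝ := {σ | 0 < σ ∧ ∀ ε : ℝ, 0 < ε → ∃ C : ℝ, ∀ t : ℝ, 1 ≤ t → ‖riemannZeta (σ + t * Complex.I)‖ ≤ C * t ^ ε}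

/-- the Lindelöf abscissa -/
def sL : ℝ := sInf LindSet

lemma Lind_two : (2 : ℝ) ∈ LindSet := by
  refine ⟨by norm_num, fun ε hε => ⟨2, fun t ht => ?_⟩⟩
  have h1 := H345.Chi.zeta_two_line t
  have h3 : ‖riemannZeta (2 + (t : ℂ) * Complex.I)‖ ≤ 2 := by
    have := norm_add_le (riemannZeta (2 + (t : ℂ) * Complex.I) - 1) 1
    rw [sub_add_cancel, norm_one] at this
    linarith
  push_cast
  refine h3.trans ?_
  have := Real.one_le_rpow ht hε.le
  linarith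

lemma Lind_bdd : BddBelow LindSet := ⟨0, fun _ h => h.1.le⟩

lemma Int_of_Lind {σ : ℝ} (h : σ ∈ LindSet) (m : ℕ) : Int m σ := by
  obtain ⟨h0, h⟩ := h
  obtain ⟨ε, hε⟩ : ∃ ε : ℝ, ε = 1 / (2 * (m + 1)) := ⟨_, rfl⟩
  have hε0 : 0 < ε := by rw [hε]; positivity
  obtain ⟨C, hC⟩ := h ε hε0
  have hC0 : 0 ≤ C := by
    have := (norm_nonneg _).trans (hC 1 le_rfl)
    simpa using this
  have hc := Zf_cont (σ := σ) (by linarith)
  have hz : ∀ t : ℝ, 1 ≤ |t| → ‖Zf (σ + t * Complex.I)‖ ≤ C * |t| ^ ε := by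
    have key : ∀ t : ℝ, 1 ≤ t → ‖Zf (σ + t * Complex.I)‖ ≤ C * |t| ^ ε := by
      intro t ht
      rw [abs_of_pos (by linarith)]
      refine (Zf_le (by simpa using h0.le) (ne_one_of_im ?_)).trans (hC t ht)
      simp only [Complex.add_im, Complex.ofReal_im, Complex.mul_im, Complex.ofReal_re, Complex.I_im, mul_one, Complex.I_re,
        mul_zero, add_zero, zero_add]
      rwa [abs_of_pos (by linarith)]
    intro t ht
    rcases le_or_gt 0 t with h1 | h1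
    · exact key t (by rwa [abs_of_nonneg h1] at ht)
    · have h2 := key (-t) (by rwa [abs_of_neg h1] at ht)
      have e2 : (σ : ℂ) + (-t : ℝ) * Complex.I = conj ((σ : ℂ) + t * Complex.I) := by simp
      rw [e2, Zf_conj (ne_one_of_im (by simpa using ht)), abs_neg] at h2
      exact h2
  -- the majorant: `(1 + t ^ 2) ^ (-3/4)`
  have hmaj : Integrable (fun t : ℝ => (1 + ‖t‖ ^ 2) ^ (-(3 / 2 : ℝ) / 2)) :=
    integrable_rpow_neg_one_add_norm_sq (E := ℝ) (μ := volume) (by simp; norm_num)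
  refine bdd_of (f := fun t : ℝ => ‖Zf (σ + t * Complex.I)‖ ^ m / (1 + t ^ 2)) (A := 2 * C ^ m) ?_ hmaj
    (fun t => by positivity) (fun t => by positivity) (by positivity) ?_
  · refine Continuous.div (by fun_prop) (by fun_prop) fun t => by positivity
  · intro t ht
    have ht0 : 0 < |t| := by linarith
    have h1 : ‖Zf (σ + t * Complex.I)‖ ^ m ≤ C ^ m * |t| ^ (1 / 2 : ℝ) := by
      calc ‖Zf (σ + t * Complex.I)‖ ^ m ≤ (C * |t| ^ ε) ^ m := by
            have := hz t ht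
            gcongr
        _ = C ^ m * |t| ^ (ε * m) := by rw [mul_pow, ← Real.rpow_natCast (|t| ^ ε), ← Real.rpow_mul ht0.le]
        _ ≤ _ := by
            have h2 : ε * m ≤ 1 / 2 := by
              rw [hε, div_mul_eq_mul_div, div_le_div_iff₀ (by positivity) (by norm_num)]
              linarith
            have h3 := Real.rpow_le_rpow_of_exponent_le ht h2
            gcongr
    have h2 : |t| ^ (1 / 2 : ℝ) ≤ (1 + t ^ 2) ^ (1 / 4 : ℝ) := by
      have : |t| ^ (1 / 2 : ℝ) = (t ^ 2) ^ (1 / 4 : ℝ) := by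
        rw [← sq_abs, ← Real.rpow_natCast, ← Real.rpow_mul (abs_nonneg t)]
        norm_num
      rw [this]
      apply Real.rpow_le_rpow (by positivity) (by linarith) (by norm_num)
    have h0 : (0 : ℝ) < 1 + t ^ 2 := by positivity
    have h3 : (1 + t ^ 2) ^ (1 / 4 : ℝ) / (1 + t ^ 2) = (1 + ‖t‖ ^ 2) ^ (-(3 / 2 : ℝ) / 2) := by
      rw [Real.norm_eq_abs, sq_abs]
      nth_rewrite 2 [← Real.rpow_one (1 + t ^ 2)]
      rw [← Real.rpow_sub h0]
      norm_num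
    have h4 : 0 ≤ (1 + t ^ 2)⁻¹ := by positivity
    have h5 : 0 ≤ (1 + ‖t‖ ^ 2) ^ (-(3 / 2 : ℝ) / 2) := by positivity
    calc ‖Zf (σ + t * Complex.I)‖ ^ m / (1 + t ^ 2) ≤ C ^ m * (1 + t ^ 2) ^ (1 / 4 : ℝ) / (1 + t ^ 2) := by
          have := h1.trans (mul_le_mul_of_nonneg_left h2 (by positivity))
          gcongr
      _ = C ^ m * (1 + ‖t‖ ^ 2) ^ (-(3 / 2 : ℝ) / 2) := by rw [mul_div_assoc, h3]
      _ ≤ _ := by
        have : 0 ≤ C ^ m := by positivity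
        nlinarith [mul_nonneg this h5, mul_nonneg this h4]

lemma bet_le_Lind {k : ℕ} (hk : 2 ≤ k) {P : Polynomial ℝ} (h : Sav k P) {σ : ℝ} (hσ : σ ∈ LindSet) : bet k P ≤ σ := by
  rcases le_or_gt σ 2 with h2 | h2
  · exact bet_le_of_Int hk h hσ.1 h2 (Int_of_Lind hσ _)
  · linarith [bet_le_one hk h]

lemma bet_le_sL {k : ℕ} (hk : 2 ≤ k) {P : Polynomial ℝ} (h : Sav k P) : bet k P ≤ sL :=
  le_csInf ⟨2, Lind_two⟩ fun _ hσ => bet_le_Lind hk h hσ

/-- from mean values to a pointwise bound -/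
lemma point_of_Int {m : ℕ} {σ d : ℝ} (hd : 0 < d) (h0 : 0 ≤ σ - d) (h2 : σ + d ≤ 2) (hI1 : Int m (σ - d)) (hI2 : Int m (σ + d)) :
    ∃ C : ℝ, 0 ≤ C ∧ ∀ t : ℝ, ‖Zf (σ + t * Complex.I)‖ ^ m ≤ C * (1 + t ^ 2) := by
  have key : ∀ s : ℝ, -1 < s → Int m s → ∃ C : ℝ, 0 ≤ C ∧ ∀ t : ℝ,
      ∫ y : ℝ, ‖Zf (s + y * Complex.I)‖ ^ m * Real.exp (-1 * (y - t) ^ 2) ≤ C * (1 + t ^ 2) := by
    intro s hs hI
    refine ⟨5 * ∫ y : ℝ, ‖Zf (s + y * Complex.I)‖ ^ m / (1 + y ^ 2), ?_, fun t => ?_⟩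
    · have : 0 ≤ ∫ y : ℝ, ‖Zf (s + y * Complex.I)‖ ^ m / (1 + y ^ 2) := integral_nonneg fun y => by positivity
      positivity
    · have h3 : ∀ y : ℝ, ‖Zf (s + y * Complex.I)‖ ^ m * Real.exp (-1 * (y - t) ^ 2) ≤
          5 * (1 + t ^ 2) * (‖Zf (s + y * Complex.I)‖ ^ m / (1 + y ^ 2)) := by
        intro y
        have h1 : Real.exp (-1 * (y - t) ^ 2) ≤ 1 := by
          rw [Real.exp_le_one_iff]
          nlinarith [sq_nonneg (y - t)]
        have h2 := gauss_beat 1 (ε := 1) one_pos (y - t)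
        simp only [Nat.factorial_one, Nat.cast_one, mul_one, one_pow, div_one] at h2
        have h3 : y ^ 2 ≤ 2 * (y - t) ^ 2 + 2 * t ^ 2 := by nlinarith [sq_nonneg (y - 2 * t)]
        have h4 : 0 < Real.exp (-1 * (y - t) ^ 2) := Real.exp_pos _
        have h5 : (1 + y ^ 2) * Real.exp (-1 * (y - t) ^ 2) ≤ 5 * (1 + t ^ 2) := by
          nlinarith [sq_nonneg t]
        have h6 : (0 : ℝ) < 1 + y ^ 2 := by positivity
        have h7 : Real.exp (-1 * (y - t) ^ 2) ≤ 5 * (1 + t ^ 2) / (1 + y ^ 2) := by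
          rw [le_div_iff₀ h6]
          linarith
        calc ‖Zf (s + y * Complex.I)‖ ^ m * Real.exp (-1 * (y - t) ^ 2) ≤
            ‖Zf (s + y * Complex.I)‖ ^ m * (5 * (1 + t ^ 2) / (1 + y ^ 2)) := by gcongr
          _ = _ := by ring
      calc ∫ y : ℝ, ‖Zf (s + y * Complex.I)‖ ^ m * Real.exp (-1 * (y - t) ^ 2) ≤
          ∫ y : ℝ, 5 * (1 + t ^ 2) * (‖Zf (s + y * Complex.I)‖ ^ m / (1 + y ^ 2)) :=
            integral_mono (Int_gauss hs hI one_pos t) (Integrable.const_mul hI _) h3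
        _ = _ := by rw [integral_const_mul]; ring
  obtain ⟨C1, hC1, h3⟩ := key _ (by linarith) hI1
  obtain ⟨C2, hC2, h4⟩ := key _ (by linarith) hI2
  refine ⟨Real.exp (d ^ 2) / d * (C1 + C2), by positivity, fun t => ?_⟩
  have h5 := sup1 hd h0 h2 hI1 hI2 t
  have h6 := h3 t
  have h7 := h4 t
  have h8 : 0 < Real.exp (d ^ 2) / d := by positivity
  calc _ ≤ _ := h5
    _ ≤ Real.exp (d ^ 2) / d * (C1 * (1 + t ^ 2) + C2 * (1 + t ^ 2)) := by gcongr
    _ = _ := by ring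

/-- the pointwise bound, for the zeta function -/
lemma point_conv {k : ℕ} {σ ε C : ℝ} (hk1 : (1 : ℝ) < k) (hk : 1 / ε + 1 < k) (hε : 0 < ε) (hC : 0 ≤ C)
    (hp : ∀ t : ℝ, ‖Zf (σ + t * Complex.I)‖ ^ (2 * k) ≤ C * (1 + t ^ 2)) :
    ∃ C' : ℝ, ∀ t : ℝ, 1 ≤ t → ‖riemannZeta (σ + t * Complex.I)‖ ≤ C' * t ^ ε := by
  have hk0 : (0 : ℝ) < k := by linarith
  have hkn : k ≠ 0 := by
    intro h
    rw [h] at hk1
    norm_num at hk1
  refine ⟨3 * (2 * C) ^ (1 / (2 * k : ℝ)), fun t ht => ?_⟩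
  have ht0 : 0 < t := by linarith
  have h1 : ‖Zf (σ + t * Complex.I)‖ ^ (2 * k) ≤ 2 * C * t ^ 2 := by
    refine (hp t).trans ?_
    have : 1 ≤ t ^ 2 := one_le_pow₀ ht
    nlinarith
  have h2 : ‖Zf (σ + t * Complex.I)‖ ≤ (2 * C) ^ (1 / (2 * k : ℝ)) * t ^ ε := by
    calc ‖Zf (σ + t * Complex.I)‖ = (‖Zf (σ + t * Complex.I)‖ ^ (2 * k)) ^ (1 / (2 * k : ℝ)) := by
          rw [one_div]
          have e : (2 * (k : ℝ)) = ((2 * k : ℕ) : ℝ) := by push_cast; ring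
          rw [e, Real.pow_rpow_inv_natCast (norm_nonneg _) (by omega)]
      _ ≤ (2 * C * t ^ 2) ^ (1 / (2 * k : ℝ)) := by gcongr
      _ = (2 * C) ^ (1 / (2 * k : ℝ)) * t ^ (1 / (k : ℝ)) := by
          rw [Real.mul_rpow (by positivity) (by positivity), ← Real.rpow_natCast t 2, ← Real.rpow_mul ht0.le]
          congr 2
          push_cast
          field_simp
      _ ≤ _ := by
          have h3 : 1 / (k : ℝ) ≤ ε := by
            rw [div_le_iff₀ hk0]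
            have : 1 / ε < k := by linarith
            rw [div_lt_iff₀ hε] at this
            linarith
          have h4 := Real.rpow_le_rpow_of_exponent_le ht h3
          gcongr
  have h3 := le_Zf (s := σ + t * Complex.I) (by
    simp only [Complex.add_im, Complex.ofReal_im, Complex.mul_im, Complex.ofReal_re, Complex.I_im, mul_one, Complex.I_re,
        mul_zero, add_zero, zero_add]
    rwa [abs_of_pos ht0])
  calc _ ≤ _ := h3
    _ ≤ 3 * ((2 * C) ^ (1 / (2 * k : ℝ)) * t ^ ε) := by gcongr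
    _ = _ := by ring

/-- if all exponents are below `a`, then `a` is at least the Lindelöf abscissa -/
lemma sL_le {P : ℕ → Polynomial ℝ} (h : ∀ k, 2 ≤ k → Sav k (P k)) {a : ℝ} (ha : ∀ k, 2 ≤ k → bet k (P k) ≤ a) : sL ≤ a := by
  have ha0 : 0 ≤ a := (bet_nonneg le_rfl (h 2 le_rfl)).trans (ha 2 le_rfl)
  apply le_of_forall_pos_le_add
  intro η hη
  obtain ⟨e, he⟩ : ∃ e, e = min η (1 / 2) := ⟨_, rfl⟩
  have he0 : 0 < e := by rw [he]; positivity
  have he1 : e ≤ η := by rw [he]; exact min_le_left _ _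
  have he2 : e ≤ 1 / 2 := by rw [he]; exact min_le_right _ _
  rcases le_or_gt a 1 with ha1 | ha1
  swap
  · -- then `a + e` is beyond one; use the abscissa one
    have h1 : sL ≤ 1 + e := by
      have hm : (1 + e) ∈ LindSet := by
        refine ⟨by linarith, fun ε hε => ?_⟩
        obtain ⟨k, hk⟩ := exists_nat_gt (1 / ε + 1)
        have hk1 : (1 : ℝ) < k := by
          have : 0 < 1 / ε := by positivity
          linarith
        have hk2 : 2 ≤ k := by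
          have : 1 < k := by exact_mod_cast hk1
          omega
        obtain ⟨C, hC, hp⟩ := point_of_Int (m := 2 * k) (σ := 1 + e) (d := e / 2) (by positivity) (by linarith) (by linarith)
          (Int_of_gt hk2 (h k hk2) (lt_of_le_of_lt (bet_le_one hk2 (h k hk2)) (by linarith)) (by linarith))
          (Int_of_gt hk2 (h k hk2) (lt_of_le_of_lt (bet_le_one hk2 (h k hk2)) (by linarith)) (by linarith))
        exact point_conv hk1 hk hε hC hp
      exact csInf_le Lind_bdd hm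
    linarith
  have hm : (a + e) ∈ LindSet := by
    refine ⟨by linarith, fun ε hε => ?_⟩
    obtain ⟨k, hk⟩ := exists_nat_gt (1 / ε + 1)
    have hk1 : (1 : ℝ) < k := by
      have : 0 < 1 / ε := by positivity
      linarith
    have hk2 : 2 ≤ k := by
      have : 1 < k := by exact_mod_cast hk1
      omega
    obtain ⟨C, hC, hp⟩ := point_of_Int (m := 2 * k) (σ := a + e) (d := e / 2) (by positivity) (by linarith) (by linarith)
      (Int_of_gt hk2 (h k hk2) (lt_of_le_of_lt (ha k hk2) (by linarith)) (by linarith))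
      (Int_of_gt hk2 (h k hk2) (lt_of_le_of_lt (ha k hk2) (by linarith)) (by linarith))
    exact point_conv hk1 hk hε hC hp
  exact (csInf_le Lind_bdd hm).trans (by linarith)

end

end Pool.Agent.J4H77.PE
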