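import Pool.Agent.J4H77.PE.Kern

/-!
# Convexity of the mean values of the zeta function
-/

set_option autoImplicit false

open Filter Topology MeasureTheory Set

namespace Pool.Agent.J4H77.PE

noncomputable section

/-- the local mean value -/
def Wm (m : ℕ) (σ τ : ℝ) : ℝ := ∫ y : ℝ, ‖Zf (σ + y * Complex.I)‖ ^ m * Real.exp (-(y - τ) ^ 2 / 2)

/-- integrability against Gaussian factors -/
lemma Int_gauss {m : ℕ} {σ : ℝ} (hσ : -1 < σ) (h : Int m σ) {c : ℝ} (hc : 0 < c) (τ : ℝ) :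
    Integrable (fun y : ℝ => ‖Zf (σ + y * Complex.I)‖ ^ m * Real.exp (-c * (y - τ) ^ 2)) := by
  have hcont := Zf_cont hσ
  have hb : ∀ y : ℝ, (1 + y ^ 2) * Real.exp (-c * (y - τ) ^ 2) ≤ 1 + 2 * τ ^ 2 + 2 / c := by
    intro y
    have h1 : Real.exp (-c * (y - τ) ^ 2) ≤ 1 := by
      rw [Real.exp_le_one_iff]
      nlinarith [sq_nonneg (y - τ)]
    have h2 := gauss_beat 1 hc (y - τ)
    simp only [Nat.factorial_one, Nat.cast_one, mul_one, pow_one] at h2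
    have h3 : y ^ 2 ≤ 2 * (y - τ) ^ 2 + 2 * τ ^ 2 := by nlinarith [sq_nonneg (y - 2 * τ)]
    have h4 : 0 < Real.exp (-c * (y - τ) ^ 2) := Real.exp_pos _
    have h5 : 2 * (1 / c) = 2 / c := by ring
    nlinarith [sq_nonneg τ]
  refine Integrable.mono' (Integrable.const_mul h (1 + 2 * τ ^ 2 + 2 / c)) ?_ ?_
  · exact Continuous.aestronglyMeasurable (by fun_prop)
  · refine Eventually.of_forall fun y => ?_
    rw [Real.norm_eq_abs, abs_of_nonneg (by positivity)]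
    have h0 : (0 : ℝ) < 1 + y ^ 2 := by positivity
    rw [← mul_div_assoc, le_div_iff₀ h0]
    calc ‖Zf (σ + y * Complex.I)‖ ^ m * Real.exp (-c * (y - τ) ^ 2) * (1 + y ^ 2) =
        ‖Zf (σ + y * Complex.I)‖ ^ m * ((1 + y ^ 2) * Real.exp (-c * (y - τ) ^ 2)) := by ring
      _ ≤ ‖Zf (σ + y * Complex.I)‖ ^ m * (1 + 2 * τ ^ 2 + 2 / c) := by
          apply mul_le_mul_of_nonneg_left (hb y) (by positivity)
      _ = _ := by ring

lemma Wm_nonneg (m : ℕ) (σ τ : ℝ) : 0 ≤ Wm m σ τ := integral_nonneg fun y => by positivity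

/-- bound of one of the line integrals -/
lemma line_bound {m : ℕ} {σ₀ τ δ : ℝ} (hδ : δ ≠ 0) (h1 : -1 < σ₀ + δ) (hI : Int m (σ₀ + δ)) :
    ‖∫ y : ℝ, Zf ((σ₀ + τ * Complex.I) + (δ + y * Complex.I)) ^ m *
      (Complex.exp ((δ + y * Complex.I) ^ 2) / (δ + y * Complex.I))‖ ≤
      Real.exp (δ ^ 2) / |δ| * ∫ y : ℝ, ‖Zf ((σ₀ + δ : ℝ) + y * Complex.I)‖ ^ m * Real.exp (-1 * (y - τ) ^ 2) := by
  have h3 : 0 < |δ| := abs_pos.2 hδ
  have hg := Int_gauss h1 hI one_pos τ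
  rw [← integral_const_mul]
  have e : ∫ y : ℝ, Real.exp (δ ^ 2) / |δ| * (‖Zf ((σ₀ + δ : ℝ) + y * Complex.I)‖ ^ m * Real.exp (-1 * (y - τ) ^ 2)) =
      ∫ y : ℝ, Real.exp (δ ^ 2) / |δ| * (‖Zf ((σ₀ + δ : ℝ) + ((y + τ : ℝ) : ℂ) * Complex.I)‖ ^ m * Real.exp (-1 * (y + τ - τ) ^ 2)) := by
    rw [← integral_add_right_eq_self _ τ]
  rw [e]
  refine norm_integral_le_of_norm_le ?_ ?_
  · have := (hg.const_mul (Real.exp (δ ^ 2) / |δ|)).comp_add_right τ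
    exact this
  · refine Eventually.of_forall fun y => ?_
    rw [norm_mul, norm_pow, norm_div, norm_quad, add_sub_cancel_right]
    have h8 : |δ| ≤ ‖(δ + y * Complex.I : ℂ)‖ := by
      have := Complex.abs_re_le_norm (δ + y * Complex.I : ℂ)
      simpa using this
    have e2 : (σ₀ + τ * Complex.I : ℂ) + (δ + y * Complex.I) = (σ₀ + δ : ℝ) + ((y + τ : ℝ) : ℂ) * Complex.I := by
      push_cast
      ring
    rw [e2]
    have h9 : Real.exp (δ ^ 2 - y ^ 2) = Real.exp (δ ^ 2) * Real.exp (-1 * y ^ 2) := by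
      rw [← Real.exp_add]
      ring_nf
    rw [h9]
    calc ‖Zf ((σ₀ + δ : ℝ) + ((y + τ : ℝ) : ℂ) * Complex.I)‖ ^ m * (Real.exp (δ ^ 2) * Real.exp (-1 * y ^ 2) / ‖(δ + y * Complex.I : ℂ)‖) ≤
        ‖Zf ((σ₀ + δ : ℝ) + ((y + τ : ℝ) : ℂ) * Complex.I)‖ ^ m * (Real.exp (δ ^ 2) * Real.exp (-1 * y ^ 2) / |δ|) := by gcongr
      _ = _ := by ring

/-- pointwise bound by mean values on two lines -/
lemma sup1 {m : ℕ} {σ₀ d : ℝ} (hd : 0 < d) (h0 : 0 ≤ σ₀ - d) (h2 : σ₀ + d ≤ 2) (hI1 : Int m (σ₀ - d)) (hI2 : Int m (σ₀ + d)) (t : ℝ) :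
    ‖Zf (σ₀ + t * Complex.I)‖ ^ m ≤ Real.exp (d ^ 2) / d *
      ((∫ y : ℝ, ‖Zf ((σ₀ - d : ℝ) + y * Complex.I)‖ ^ m * Real.exp (-1 * (y - t) ^ 2)) +
       ∫ y : ℝ, ‖Zf ((σ₀ + d : ℝ) + y * Complex.I)‖ ^ m * Real.exp (-1 * (y - t) ^ 2)) := by
  obtain ⟨C, hg⟩ := Zf_growth m
  have hF : ∀ z : ℂ, -1 < z.re → DifferentiableAt ℂ (fun s => Zf s ^ m) z := fun z hz => (Zf_diff hz).pow m
  have h := cauchy_gauss hF hg (s₀ := σ₀ + t * Complex.I) hd hd (by simpa using h0) (by simpa using h2)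
  have h3 := line_bound (m := m) (σ₀ := σ₀) (τ := t) (δ := d) hd.ne' (by linarith) hI2
  have h4 := line_bound (m := m) (σ₀ := σ₀) (τ := t) (δ := -d) (by linarith) (by linarith) (by rw [← sub_eq_add_neg]; exact hI1)
  rw [neg_sq, abs_neg, abs_of_pos hd, ← sub_eq_add_neg] at h4
  rw [abs_of_pos hd] at h3
  have h5 : ‖(2 * Real.pi * Zf (σ₀ + t * Complex.I) ^ m : ℂ)‖ = 2 * Real.pi * ‖Zf (σ₀ + t * Complex.I)‖ ^ m := by
    rw [norm_mul, norm_mul, norm_pow, Complex.norm_ofNat, Complex.norm_real, Real.norm_of_nonneg Real.pi_pos.le]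
  have h6 : 2 * Real.pi * ‖Zf (σ₀ + t * Complex.I)‖ ^ m ≤ Real.exp (d ^ 2) / d *
      ((∫ y : ℝ, ‖Zf ((σ₀ - d : ℝ) + y * Complex.I)‖ ^ m * Real.exp (-1 * (y - t) ^ 2)) +
       ∫ y : ℝ, ‖Zf ((σ₀ + d : ℝ) + y * Complex.I)‖ ^ m * Real.exp (-1 * (y - t) ^ 2)) := by
    rw [← h5, h]
    refine (norm_sub_le _ _).trans ?_
    rw [mul_add]
    linarith
  have h7 : 0 ≤ ‖Zf (σ₀ + t * Complex.I)‖ ^ m := by positivity
  nlinarith [Real.pi_gt_three]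

/-- with a Gaussian factor -/
lemma sup2 {m : ℕ} {σ₀ d : ℝ} (hd : 0 < d) (h0 : 0 ≤ σ₀ - d) (h2 : σ₀ + d ≤ 2) (hI1 : Int m (σ₀ - d)) (hI2 : Int m (σ₀ + d)) (t τ : ℝ) :
    ‖Zf (σ₀ + t * Complex.I)‖ ^ m * Real.exp (-(t - τ) ^ 2) ≤ Real.exp (d ^ 2) / d * (Wm m (σ₀ - d) τ + Wm m (σ₀ + d) τ) := by
  have key : ∀ σ : ℝ, -1 < σ → Int m σ → (∫ y : ℝ, ‖Zf (σ + y * Complex.I)‖ ^ m * Real.exp (-1 * (y - t) ^ 2)) * Real.exp (-(t - τ) ^ 2) ≤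
      Wm m σ τ := by
    intro σ hσ hI
    rw [← integral_mul_const]
    unfold Wm
    have i1 := (Int_gauss hσ hI one_pos t).mul_const (Real.exp (-(t - τ) ^ 2))
    have i2 := Int_gauss hσ hI (c := 1 / 2) (by norm_num) τ
    have i3 : Integrable (fun y : ℝ => ‖Zf (σ + y * Complex.I)‖ ^ m * Real.exp (-(y - τ) ^ 2 / 2)) := by
      refine i2.congr (Eventually.of_forall fun y => ?_)
      simp only
      ring_nf
    apply integral_mono i1 i3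
    intro y
    simp only
    rw [mul_assoc, ← Real.exp_add]
    apply mul_le_mul_of_nonneg_left _ (by positivity)
    apply Real.exp_le_exp.2
    nlinarith [sq_nonneg ((y - t) - (t - τ))]
  have h3 := sup1 hd h0 h2 hI1 hI2 t
  have h4 := key _ (by linarith) hI1
  have h5 := key _ (by linarith) hI2
  have h6 : 0 < Real.exp (-(t - τ) ^ 2) := Real.exp_pos _
  have h7 : 0 < Real.exp (d ^ 2) / d := by positivity
  calc ‖Zf (σ₀ + t * Complex.I)‖ ^ m * Real.exp (-(t - τ) ^ 2) ≤ (Real.exp (d ^ 2) / d *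
      ((∫ y : ℝ, ‖Zf ((σ₀ - d : ℝ) + y * Complex.I)‖ ^ m * Real.exp (-1 * (y - t) ^ 2)) +
       ∫ y : ℝ, ‖Zf ((σ₀ + d : ℝ) + y * Complex.I)‖ ^ m * Real.exp (-1 * (y - t) ^ 2))) * Real.exp (-(t - τ) ^ 2) := by gcongr
    _ = Real.exp (d ^ 2) / d *
      ((∫ y : ℝ, ‖Zf ((σ₀ - d : ℝ) + y * Complex.I)‖ ^ m * Real.exp (-1 * (y - t) ^ 2)) * Real.exp (-(t - τ) ^ 2) +
       (∫ y : ℝ, ‖Zf ((σ₀ + d : ℝ) + y * Complex.I)‖ ^ m * Real.exp (-1 * (y - t) ^ 2)) * Real.exp (-(t - τ) ^ 2)) := by ring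
    _ ≤ _ := by gcongr

end

end Pool.Agent.J4H77.PE
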