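import Pool.Agent.J4H77.PE.Three

/-!
# Convexity of the mean values of the zeta function: three lines
-/

set_option autoImplicit false

open Filter Topology MeasureTheory Set

namespace Pool.Agent.J4H77.PE

noncomputable section

open Complex.HadamardThreeLines

/-- the function with the Gaussian factor -/
def fg (τ : ℝ) (z : ℂ) : ℂ := Zf z * Complex.exp ((z - τ * Complex.I) ^ 2)

lemma fg_norm (τ : ℝ) (z : ℂ) : ‖fg τ z‖ = ‖Zf z‖ * Real.exp (z.re ^ 2 - (z.im - τ) ^ 2) := by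
  unfold fg
  rw [norm_mul, Complex.norm_exp]
  congr 2
  simp [pow_two]

lemma fg_bdd (τ : ℝ) {A B : ℝ} (hA : 0 ≤ A) (hB : B ≤ 2) : BddAbove ((norm ∘ fg τ) '' verticalClosedStrip A B) := by
  obtain ⟨C, hC, hg⟩ := Zf_growth 1
  have hK : IsCompact ((fun p : ℝ × ℝ => (p.1 + p.2 * Complex.I : ℂ)) '' (Icc A B ×ˢ Icc (-1) 1)) :=
    (isCompact_Icc.prod isCompact_Icc).image (by fun_prop)
  obtain ⟨K, hKb⟩ := hK.exists_bound_of_continuousOn (f := Zf) (by
    intro z hz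
    obtain ⟨p, hp, rfl⟩ := hz
    refine (Zf_diff ?_).continuousAt.continuousWithinAt
    simp
    have := hp.1.1
    linarith)
  refine ⟨max (C * (2 + 2 * τ ^ 2) * Real.exp 4) (K * Real.exp 4), ?_⟩
  rintro x ⟨z, hz, rfl⟩
  simp only [Function.comp]
  rw [fg_norm]
  have hz1 : A ≤ z.re ∧ z.re ≤ B := hz
  have h4 : z.re ^ 2 ≤ 4 := by nlinarith
  by_cases hy : 1 ≤ |z.im|
  · apply le_max_of_le_left
    have h1 := hg z (by linarith) (by linarith) hy
    simp only [pow_one, mul_one] at h1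
    have h2 := gauss_beat 1 one_pos (z.im - τ)
    simp only [mul_one, pow_one, Nat.factorial_one, Nat.cast_one, div_one] at h2
    have h3 : Real.exp (z.re ^ 2 - (z.im - τ) ^ 2) ≤ Real.exp 4 * Real.exp (-1 * (z.im - τ) ^ 2) := by
      rw [← Real.exp_add]
      apply Real.exp_le_exp.2
      linarith
    have h5 : z.im ^ 2 * Real.exp (-1 * (z.im - τ) ^ 2) ≤ 2 + 2 * τ ^ 2 := by
      have h6 : Real.exp (-1 * (z.im - τ) ^ 2) ≤ 1 := by
        rw [Real.exp_le_one_iff]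
        nlinarith [sq_nonneg (z.im - τ)]
      have h7 : z.im ^ 2 ≤ 2 * (z.im - τ) ^ 2 + 2 * τ ^ 2 := by nlinarith [sq_nonneg (z.im - 2 * τ)]
      have h8 : 0 < Real.exp (-1 * (z.im - τ) ^ 2) := Real.exp_pos _
      nlinarith [sq_nonneg τ]
    calc ‖Zf z‖ * Real.exp (z.re ^ 2 - (z.im - τ) ^ 2) ≤ (C * z.im ^ 2) * (Real.exp 4 * Real.exp (-1 * (z.im - τ) ^ 2)) := by
          have : 0 ≤ C * z.im ^ 2 := by positivity
          gcongr
      _ = C * (z.im ^ 2 * Real.exp (-1 * (z.im - τ) ^ 2)) * Real.exp 4 := by ring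
      _ ≤ _ := by gcongr
  · apply le_max_of_le_right
    push Not at hy
    rw [abs_lt] at hy
    have h1 := hKb z ⟨(z.re, z.im), ⟨hz1, ⟨hy.1.le, hy.2.le⟩⟩, by simp [Complex.re_add_im]⟩
    have h3 : Real.exp (z.re ^ 2 - (z.im - τ) ^ 2) ≤ Real.exp 4 := by
      apply Real.exp_le_exp.2
      nlinarith [sq_nonneg (z.im - τ)]
    have h0 : 0 ≤ K := le_trans (norm_nonneg _) h1
    gcongr

lemma fg_diff (τ : ℝ) {A B : ℝ} (hA : 0 ≤ A) (hAB : A < B) : DiffContOnCl ℂ (fg τ) (verticalStrip A B) := by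
  apply DifferentiableOn.diffContOnCl
  have h1 : closure (verticalStrip A B) ⊆ {z : ℂ | -1 < z.re} := by
    intro z hz
    rw [verticalStrip, Complex.closure_preimage_re, closure_Ioo hAB.ne] at hz
    have : A ≤ z.re := hz.1
    simp only [mem_setOf_eq]
    linarith
  intro z hz
  have := Zf_diff (h1 hz)
  unfold fg
  exact DifferentiableAt.differentiableWithinAt (by fun_prop)

/-- two lines and a point in between -/
theorem three {mA mB m : ℕ} (hmA : 1 ≤ mA) (hmB : 1 ≤ mB) {A B d ϑ : ℝ} (hd : 0 < d)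
    (h0 : 0 ≤ A - d) (hAB : A < B) (h2 : B + d ≤ 2) (hϑ0 : 0 ≤ ϑ) (hϑ1 : ϑ ≤ 1)
    (hex : (1 - ϑ) * m / mA + ϑ * m / mB = 1)
    (hA1 : Int mA (A - d)) (hA2 : Int mA (A + d)) (hB1 : Int mB (B - d)) (hB2 : Int mB (B + d)) (τ : ℝ) :
    ‖Zf (((1 - ϑ) * A + ϑ * B : ℝ) + τ * Complex.I)‖ ^ m ≤ Real.exp (4 * m) * (Real.exp (d ^ 2) / d) *
      ((Wm mA (A - d) τ + Wm mA (A + d) τ) + (Wm mB (B - d) τ + Wm mB (B + d) τ)) := by
  obtain ⟨MA, hMA⟩ : ∃ M, M = Real.exp (d ^ 2) / d * (Wm mA (A - d) τ + Wm mA (A + d) τ) := ⟨_, rfl⟩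
  obtain ⟨MB, hMB⟩ : ∃ M, M = Real.exp (d ^ 2) / d * (Wm mB (B - d) τ + Wm mB (B + d) τ) := ⟨_, rfl⟩
  have hMA0 : 0 ≤ MA := by
    rw [hMA]
    have := Wm_nonneg mA (A - d) τ
    have := Wm_nonneg mA (A + d) τ
    positivity
  have hMB0 : 0 ≤ MB := by
    rw [hMB]
    have := Wm_nonneg mB (B - d) τ
    have := Wm_nonneg mB (B + d) τ
    positivity
  have edge : ∀ (X M : ℝ) (n : ℕ), 1 ≤ n → 0 ≤ X → X ≤ 2 → 0 ≤ M →
      (∀ t : ℝ, ‖Zf (X + t * Complex.I)‖ ^ n * Real.exp (-(t - τ) ^ 2) ≤ M) →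
      ∀ z ∈ Complex.re ⁻¹' {X}, ‖fg τ z‖ ≤ Real.exp 4 * M ^ (1 / (n : ℝ)) := by
    intro X M n hn hX hX2 hM h z hz
    have hre : z.re = X := hz
    have hz' : z = X + z.im * Complex.I := by
      rw [← hre, Complex.re_add_im]
    have h3 := h z.im
    rw [← hz'] at h3
    rw [fg_norm, hre]
    have h4 : ‖Zf z‖ * Real.exp (-(z.im - τ) ^ 2) ≤ M ^ (1 / (n : ℝ)) := by
      have h5 : (‖Zf z‖ * Real.exp (-(z.im - τ) ^ 2)) ^ n ≤ M := by
        rw [mul_pow]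
        refine le_trans ?_ h3
        apply mul_le_mul_of_nonneg_left _ (by positivity)
        calc Real.exp (-(z.im - τ) ^ 2) ^ n ≤ Real.exp (-(z.im - τ) ^ 2) ^ 1 := by
              apply pow_le_pow_of_le_one (Real.exp_pos _).le _ hn
              rw [Real.exp_le_one_iff]
              nlinarith [sq_nonneg (z.im - τ)]
          _ = _ := pow_one _
      have hn0 : (n : ℝ) ≠ 0 := by positivity
      calc ‖Zf z‖ * Real.exp (-(z.im - τ) ^ 2) = ((‖Zf z‖ * Real.exp (-(z.im - τ) ^ 2)) ^ n) ^ (1 / (n : ℝ)) := by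
            rw [one_div, Real.pow_rpow_inv_natCast (by positivity) (by omega)]
        _ ≤ _ := by gcongr
    have h6 : Real.exp (X ^ 2 - (z.im - τ) ^ 2) = Real.exp (X ^ 2) * Real.exp (-(z.im - τ) ^ 2) := by
      rw [← Real.exp_add]
      ring_nf
    have h7 : Real.exp (X ^ 2) ≤ Real.exp 4 := by
      apply Real.exp_le_exp.2
      nlinarith
    rw [h6]
    calc ‖Zf z‖ * (Real.exp (X ^ 2) * Real.exp (-(z.im - τ) ^ 2)) = Real.exp (X ^ 2) * (‖Zf z‖ * Real.exp (-(z.im - τ) ^ 2)) := by ring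
      _ ≤ _ := by gcongr
  obtain ⟨s, hs⟩ : ∃ s : ℂ, s = (((1 - ϑ) * A + ϑ * B : ℝ) : ℂ) + τ * Complex.I := ⟨_, rfl⟩
  have hsre : s.re = (1 - ϑ) * A + ϑ * B := by rw [hs]; simp
  have hsim : s.im = τ := by rw [hs]; simp
  have hmem : s ∈ verticalClosedStrip A B := by
    show A ≤ s.re ∧ s.re ≤ B
    rw [hsre]
    constructor <;> nlinarith
  have h := norm_le_interp_of_mem_verticalClosedStrip' hAB hmem (fg_diff τ (by linarith) hAB)
    (fg_bdd τ (by linarith) (by linarith))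
    (edge A MA mA hmA (by linarith) (by linarith) hMA0 (fun t => by rw [hMA]; exact sup2 hd h0 (by linarith) hA1 hA2 t τ))
    (edge B MB mB hmB (by linarith) (by linarith) hMB0 (fun t => by rw [hMB]; exact sup2 hd (by linarith) h2 hB1 hB2 t τ))
  have hfr : (s.re - A) / (B - A) = ϑ := by
    rw [hsre, div_eq_iff (by linarith)]
    ring
  rw [hfr] at h
  rw [← hs]
  have h3 : ‖Zf s‖ ≤ ‖fg τ s‖ := by
    rw [fg_norm, hsim, sub_self]
    apply le_mul_of_one_le_right (norm_nonneg _)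
    rw [Real.one_le_exp_iff]
    nlinarith [sq_nonneg s.re]
  have h4 : (Real.exp 4 * MA ^ (1 / (mA : ℝ))) ^ (1 - ϑ) * (Real.exp 4 * MB ^ (1 / (mB : ℝ))) ^ ϑ =
      Real.exp 4 * (MA ^ ((1 - ϑ) / mA) * MB ^ (ϑ / mB)) := by
    rw [Real.mul_rpow (Real.exp_pos _).le (by positivity), Real.mul_rpow (Real.exp_pos _).le (by positivity),
      ← Real.rpow_mul hMA0, ← Real.rpow_mul hMB0]
    have e1 : Real.exp 4 ^ (1 - ϑ) * Real.exp 4 ^ ϑ = Real.exp 4 := by
      rw [← Real.rpow_add (Real.exp_pos _), sub_add_cancel, Real.rpow_one]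
    have e2 : 1 / (mA : ℝ) * (1 - ϑ) = (1 - ϑ) / mA := by ring
    have e3 : 1 / (mB : ℝ) * ϑ = ϑ / mB := by ring
    rw [e2, e3]
    calc Real.exp 4 ^ (1 - ϑ) * MA ^ ((1 - ϑ) / mA) * (Real.exp 4 ^ ϑ * MB ^ (ϑ / mB)) =
        (Real.exp 4 ^ (1 - ϑ) * Real.exp 4 ^ ϑ) * (MA ^ ((1 - ϑ) / mA) * MB ^ (ϑ / mB)) := by ring
      _ = _ := by rw [e1]
  rw [h4] at h
  have h5 : ‖Zf s‖ ^ m ≤ (Real.exp 4 * (MA ^ ((1 - ϑ) / mA) * MB ^ (ϑ / mB))) ^ m := by
    have := h3.trans h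
    gcongr
  have h6 : (Real.exp 4 * (MA ^ ((1 - ϑ) / mA) * MB ^ (ϑ / mB))) ^ m = Real.exp (4 * m) *
      (MA ^ ((1 - ϑ) * m / mA) * MB ^ (ϑ * m / mB)) := by
    rw [mul_pow, mul_pow, ← Real.exp_nat_mul, ← Real.rpow_natCast (MA ^ _), ← Real.rpow_natCast (MB ^ _),
      ← Real.rpow_mul hMA0, ← Real.rpow_mul hMB0]
    rw [mul_comm (m : ℝ) 4]
    congr 3 <;> ring
  have hp : 0 ≤ (1 - ϑ) * m / mA := by
    have : 0 ≤ 1 - ϑ := by linarith
    positivity
  have hq : 0 ≤ ϑ * m / mB := by positivity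
  have h7 : MA ^ ((1 - ϑ) * m / mA) * MB ^ (ϑ * m / mB) ≤ MA + MB := by
    calc MA ^ ((1 - ϑ) * m / mA) * MB ^ (ϑ * m / mB) ≤ (MA + MB) ^ ((1 - ϑ) * m / mA) * (MA + MB) ^ (ϑ * m / mB) := by
          gcongr
          · linarith
          · linarith
      _ = (MA + MB) ^ ((1 - ϑ) * m / mA + ϑ * m / mB) := by
          rcases eq_or_lt_of_le (add_nonneg hMA0 hMB0) with h8 | h8
          · rw [← h8, hex, Real.rpow_one]
            rcases eq_or_lt_of_le hp with h9 | h9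
            · have h10 : ϑ * m / mB = 1 := by linarith
              rw [h10, Real.rpow_one, mul_zero]
            · rw [Real.zero_rpow h9.ne', zero_mul]
          · rw [Real.rpow_add h8]
      _ = MA + MB := by rw [hex, Real.rpow_one]
  calc ‖Zf s‖ ^ m ≤ Real.exp (4 * m) * (MA + MB) := by
        rw [h6] at h5
        refine h5.trans ?_
        gcongr
    _ = _ := by rw [hMA, hMB]; ring

end

end Pool.Agent.J4H77.PE
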