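import Pool.Agent.J4H77.PE.Three2

/-!
# Convexity of the mean values of the zeta function: integrated form
-/

set_option autoImplicit false

open Filter Topology MeasureTheory Set

namespace Pool.Agent.J4H77.PE

noncomputable section

lemma kern_bound (y τ : ℝ) : 1 / (1 + τ ^ 2) ≤ 2 * (1 + (y - τ) ^ 2) / (1 + y ^ 2) := by
  rw [div_le_div_iff₀ (by positivity) (by positivity)]
  nlinarith [sq_nonneg (y - 2 * τ), mul_nonneg (sq_nonneg (y - τ)) (sq_nonneg τ)]

lemma gk_int : Integrable (fun u : ℝ => 2 * (1 + u ^ 2) * Real.exp (-u ^ 2 / 2)) := by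
  have h1 : Integrable (fun u : ℝ => Real.exp (-(1 / 2 : ℝ) * u ^ 2)) := integrable_exp_neg_mul_sq (by norm_num)
  have h2 : Integrable (fun u : ℝ => Real.exp (-(1 / 4 : ℝ) * u ^ 2)) := integrable_exp_neg_mul_sq (by norm_num)
  refine Integrable.mono' ((h1.const_mul 2).add (h2.const_mul 8)) ?_ ?_
  · exact Continuous.aestronglyMeasurable (by fun_prop)
  · refine Eventually.of_forall fun u => ?_
    rw [Real.norm_eq_abs, abs_of_nonneg (by positivity), Pi.add_apply]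
    have h3 := gauss_beat 1 (ε := 1 / 4) (by norm_num) u
    simp only [mul_one, pow_one, Nat.factorial_one, Nat.cast_one] at h3
    have e1 : Real.exp (-u ^ 2 / 2) = Real.exp (-(1 / 2 : ℝ) * u ^ 2) := by ring_nf
    have e2 : Real.exp (-u ^ 2 / 2) = Real.exp (-(1 / 4 : ℝ) * u ^ 2) * Real.exp (-(1 / 4 : ℝ) * u ^ 2) := by
      rw [← Real.exp_add]; ring_nf
    have h4 : u ^ 2 * Real.exp (-u ^ 2 / 2) ≤ 4 * Real.exp (-(1 / 4 : ℝ) * u ^ 2) := by
      rw [e2, ← mul_assoc]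
      apply mul_le_mul_of_nonneg_right _ (Real.exp_pos _).le
      have : (1 : ℝ) / (1 / 4) = 4 := by norm_num
      rw [this] at h3
      exact h3
    calc 2 * (1 + u ^ 2) * Real.exp (-u ^ 2 / 2) = 2 * Real.exp (-u ^ 2 / 2) + 2 * (u ^ 2 * Real.exp (-u ^ 2 / 2)) := by ring
      _ ≤ 2 * Real.exp (-(1 / 2 : ℝ) * u ^ 2) + 2 * (4 * Real.exp (-(1 / 4 : ℝ) * u ^ 2)) := by
          rw [e1] at h4 ⊢
          linarith
      _ = _ := by ring

lemma Wm_int {m : ℕ} {σ : ℝ} (hσ : -1 < σ) (h : Int m σ) : Integrable (fun τ : ℝ => Wm m σ τ / (1 + τ ^ 2)) := by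
  have h1 := Integrable.convolution_integrand (L := ContinuousLinearMap.mul ℝ ℝ) (μ := volume) (ν := volume) h gk_int
  have hc := Zf_cont hσ
  have h2 : Integrable (fun p : ℝ × ℝ => ‖Zf (σ + p.2 * Complex.I)‖ ^ m * Real.exp (-(p.2 - p.1) ^ 2 / 2) / (1 + p.1 ^ 2))
      (volume.prod volume) := by
    refine Integrable.mono' h1 ?_ ?_
    · apply Continuous.aestronglyMeasurable
      have h3 : Continuous (fun p : ℝ × ℝ => Zf (σ + p.2 * Complex.I)) := hc.comp continuous_snd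
      refine Continuous.div (by fun_prop) (by fun_prop) fun p => by positivity
    · refine Eventually.of_forall fun p => ?_
      rw [Real.norm_eq_abs, abs_of_nonneg (by positivity)]
      simp only [ContinuousLinearMap.mul_apply']
      have h3 := kern_bound p.2 p.1
      have h4 : (p.1 - p.2) ^ 2 = (p.2 - p.1) ^ 2 := by ring
      rw [h4]
      calc ‖Zf (σ + p.2 * Complex.I)‖ ^ m * Real.exp (-(p.2 - p.1) ^ 2 / 2) / (1 + p.1 ^ 2) =
          ‖Zf (σ + p.2 * Complex.I)‖ ^ m * Real.exp (-(p.2 - p.1) ^ 2 / 2) * (1 / (1 + p.1 ^ 2)) := by ring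
        _ ≤ ‖Zf (σ + p.2 * Complex.I)‖ ^ m * Real.exp (-(p.2 - p.1) ^ 2 / 2) * (2 * (1 + (p.2 - p.1) ^ 2) / (1 + p.2 ^ 2)) := by
            gcongr
        _ = _ := by ring
  have h5 := h2.integral_prod_left
  refine h5.congr (Eventually.of_forall fun τ => ?_)
  simp only
  unfold Wm
  rw [integral_div]

/-- convexity of mean values, for fixed lines -/
theorem Int_three {mA mB m : ℕ} (hmA : 1 ≤ mA) (hmB : 1 ≤ mB) {A B d ϑ : ℝ} (hd : 0 < d)
    (h0 : 0 ≤ A - d) (hAB : A < B) (h2 : B + d ≤ 2) (hϑ0 : 0 ≤ ϑ) (hϑ1 : ϑ ≤ 1)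
    (hex : (1 - ϑ) * m / mA + ϑ * m / mB = 1)
    (hA1 : Int mA (A - d)) (hA2 : Int mA (A + d)) (hB1 : Int mB (B - d)) (hB2 : Int mB (B + d)) :
    Int m ((1 - ϑ) * A + ϑ * B) := by
  have hσ : 0 ≤ (1 - ϑ) * A + ϑ * B := by
    have : 0 ≤ 1 - ϑ := by linarith
    have hA : 0 ≤ A := by linarith
    have hB : 0 ≤ B := by linarith
    positivity
  have hc := Zf_cont (σ := (1 - ϑ) * A + ϑ * B) (by linarith)
  have i1 := (Wm_int (by linarith) hA1).add (Wm_int (by linarith) hA2)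
  have i2 := (Wm_int (by linarith) hB1).add (Wm_int (by linarith) hB2)
  refine Integrable.mono' ((i1.add i2).const_mul (Real.exp (4 * m) * (Real.exp (d ^ 2) / d))) ?_ ?_
  · apply Continuous.aestronglyMeasurable
    refine Continuous.div (by fun_prop) (by fun_prop) fun t => by positivity
  · refine Eventually.of_forall fun τ => ?_
    rw [Real.norm_eq_abs, abs_of_nonneg (by positivity)]
    simp only [Pi.add_apply]
    have h := three hmA hmB hd h0 hAB h2 hϑ0 hϑ1 hex hA1 hA2 hB1 hB2 τ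
    rw [div_le_iff₀ (by positivity)]
    refine h.trans (le_of_eq ?_)
    have : (1 + τ ^ 2 : ℝ) ≠ 0 := by positivity
    field_simp

/-- convexity of mean values -/
theorem Int_conv {mA mB m : ℕ} (hmA : 1 ≤ mA) (hmB : 1 ≤ mB) {a b ϑ : ℝ}
    (ha : 0 ≤ a) (hb : 0 ≤ b) (ha1 : a ≤ 1) (hb1 : b ≤ 1) (hϑ0 : 0 ≤ ϑ) (hϑ1 : ϑ ≤ 1)
    (hex : (1 - ϑ) * m / mA + ϑ * m / mB = 1)
    (hA : ∀ σ : ℝ, a < σ → σ ≤ 2 → Int mA σ) (hB : ∀ σ : ℝ, b < σ → σ ≤ 2 → Int mB σ) {ε : ℝ} (hε : 0 < ε) :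
    ∃ σ : ℝ, (1 - ϑ) * a + ϑ * b < σ ∧ σ < (1 - ϑ) * a + ϑ * b + ε ∧ Int m σ := by
  obtain ⟨e, he⟩ : ∃ e, e = min (ε / 4) (1 / 8) := ⟨_, rfl⟩
  have he0 : 0 < e := by rw [he]; positivity
  have he1 : e ≤ ε / 4 := by rw [he]; exact min_le_left _ _
  have he2 : e ≤ 1 / 8 := by rw [he]; exact min_le_right _ _
  rcases le_or_gt a b with hab | hab
  · refine ⟨(1 - ϑ) * (a + e) + ϑ * (b + 2 * e), by nlinarith, by nlinarith, ?_⟩
    exact Int_three hmA hmB (d := e / 2) (by positivity) (by linarith) (by linarith) (by linarith) hϑ0 hϑ1 hex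
      (hA _ (by linarith) (by linarith)) (hA _ (by linarith) (by linarith))
      (hB _ (by linarith) (by linarith)) (hB _ (by linarith) (by linarith))
  · refine ⟨(1 - ϑ) * (a + e) + ϑ * (b + e), by nlinarith, by nlinarith, ?_⟩
    have e1 : (1 - ϑ) * (a + e) + ϑ * (b + e) = (1 - (1 - ϑ)) * (b + e) + (1 - ϑ) * (a + e) := by ring
    rw [e1]
    exact Int_three hmB hmA (d := e / 2) (by positivity) (by linarith) (by linarith) (by linarith) (by linarith) (by linarith)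
      (by rw [sub_sub_cancel, add_comm]; exact hex)
      (hB _ (by linarith) (by linarith)) (hB _ (by linarith) (by linarith))
      (hA _ (by linarith) (by linarith)) (hA _ (by linarith) (by linarith))

end

end Pool.Agent.J4H77.PE
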